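import Pool.Agent.Q106.IV.Two

/-!
# The sieved models of the primes
-/

set_option autoImplicit false

namespace Pool.Agent.Q106.IV

open Finset Filter
open scoped Topology

/-- The product `∏ (1 - 1/q)` over the primes `q ≤ z`. -/
noncomputable def VV (z : ℕ) : ℝ := ∏ q ∈ (Finset.range (z + 1)).filter Nat.Prime, (1 - 1 / (q : ℝ))

open Classical in
/-- The probabilities of the model sieved by the primes up to `C log log N` (for `C = 0`: Cramér's model). -/
noncomputable def sieved (C : ℝ) (N : ℕ) : ℝ :=
  if ∀ q : ℕ, q.Prime → q ∣ N → C * Real.log (Real.log N) < q then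
    min 1 (1 / (VV ⌊C * Real.log (Real.log N)⌋₊ * Real.log N)) else 0

theorem VV_pos (z : ℕ) : 0 < VV z := by
  unfold VV
  refine prod_pos (fun q hq => ?_)
  rw [mem_filter] at hq
  have h1 : (2 : ℝ) ≤ q := by exact_mod_cast hq.2.two_le
  have h2 : 1 / (q : ℝ) ≤ 1 / 2 := one_div_le_one_div_of_le (by norm_num) h1
  linarith

theorem VV_le_one (z : ℕ) : VV z ≤ 1 := by
  unfold VV
  refine prod_le_one (fun q hq => ?_) (fun q hq => ?_)
  · rw [mem_filter] at hq
    have h1 : (2 : ℝ) ≤ q := by exact_mod_cast hq.2.two_le
    have h2 : 1 / (q : ℝ) ≤ 1 / 2 := one_div_le_one_div_of_le (by norm_num) h1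
    linarith
  · have : (0 : ℝ) ≤ 1 / q := by positivity
    linarith

theorem VV_ge (z : ℕ) : 1 / ((z : ℝ) + 1) ≤ VV z := by
  have h1 : ∀ m : ℕ, 1 / ((m : ℝ) + 1) ≤ VV (m + 1) := by
    intro m
    induction m with
    | zero =>
      unfold VV
      rw [show (Finset.range (0 + 1 + 1)).filter Nat.Prime = ∅ by decide]
      simp
    | succ m ih =>
      have e1 : VV (m + 1 + 1) = VV (m + 1) * (if (m + 2).Prime then (1 - 1 / ((m : ℝ) + 2)) else 1) := by
        unfold VV
        rw [Finset.range_add_one (n := m + 1 + 1), filter_insert]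
        split_ifs with h
        · rw [prod_insert (by simp), mul_comm]
          push_cast
          congr 3
          ring
        · rw [mul_one]
      rw [e1]
      have h0 := VV_pos (m + 1)
      have e2 : (1 - 1 / ((m : ℝ) + 2)) ≤ (if (m + 2).Prime then (1 - 1 / ((m : ℝ) + 2)) else 1) := by
        split_ifs
        · exact le_rfl
        · have : (0 : ℝ) ≤ 1 / ((m : ℝ) + 2) := by positivity
          linarith
      have e3 : (0 : ℝ) ≤ 1 - 1 / ((m : ℝ) + 2) := by
        rw [sub_nonneg, div_le_one (by positivity)]
        have : (0 : ℝ) ≤ m := Nat.cast_nonneg _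
        linarith
      refine le_trans ?_ (mul_le_mul ih e2 e3 h0.le)
      refine le_of_eq ?_
      push_cast
      have : (m : ℝ) + 1 ≠ 0 := by positivity
      have : (m : ℝ) + 2 ≠ 0 := by positivity
      have : (m : ℝ) + 1 + 1 ≠ 0 := by positivity
      field_simp
      ring
  rcases Nat.eq_zero_or_pos z with h | h
  · rw [h]
    unfold VV
    rw [show (Finset.range (0 + 1)).filter Nat.Prime = ∅ by decide]
    simp
  · obtain ⟨m, rfl⟩ : ∃ m, z = m + 1 := ⟨z - 1, by omega⟩
    refine le_trans ?_ (h1 m)
    refine one_div_le_one_div_of_le (by positivity) ?_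
    push_cast
    linarith

theorem dens_sieved (C : ℝ) : Dens C (sieved C) := by
  have hlog : Tendsto (fun N : ℕ => Real.log N) atTop atTop := Real.tendsto_log_atTop.comp tendsto_natCast_atTop_atTop
  have hll : Tendsto (fun N : ℕ => Real.log (Real.log N)) atTop atTop := Real.tendsto_log_atTop.comp hlog
  refine ⟨fun N => ?_, fun η hη => ?_, fun η hη => ?_⟩
  · unfold sieved
    split_ifs
    · refine ⟨le_min zero_le_one ?_, min_le_left _ _⟩
      have := VV_pos ⌊C * Real.log (Real.log N)⌋₊
      have := Real.log_natCast_nonneg N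
      positivity
    · exact ⟨le_rfl, zero_le_one⟩
  · have g1 := (isLittleO_log_rpow_atTop (r := η) hη).def (c := (|C| + 1)⁻¹ / 2) (by positivity)
    have g2 : Tendsto (fun y : ℝ => y ^ η) atTop atTop := tendsto_rpow_atTop hη
    filter_upwards [hlog.eventually g1, hlog.eventually (g2.eventually_ge_atTop 2), hlog.eventually_gt_atTop 1, hll.eventually_ge_atTop 0]
      with N h1 h2 h3 h4
    have hL : 0 < Real.log N := by linarith
    unfold sieved
    split_ifs
    · refine (min_le_right _ _).trans ?_
      obtain ⟨z, hz⟩ : ∃ z, z = ⌊C * Real.log (Real.log N)⌋₊ := ⟨_, rfl⟩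
      rw [← hz]
      have e1 : (z : ℝ) ≤ |C| * Real.log (Real.log N) := by
        rcases le_or_gt 0 (C * Real.log (Real.log N)) with h | h
        · rw [hz]
          exact (Nat.floor_le h).trans (mul_le_mul_of_nonneg_right (le_abs_self C) h4)
        · rw [hz, Nat.floor_of_nonpos h.le]
          simp only [Nat.cast_zero]
          exact mul_nonneg (abs_nonneg C) h4
      rw [Real.norm_of_nonneg h4, Real.norm_of_nonneg (by positivity)] at h1
      have e2 : (z : ℝ) + 1 ≤ Real.log N ^ η := by
        have e3 : |C| * Real.log (Real.log N) ≤ 1 / 2 * Real.log N ^ η := by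
          calc |C| * Real.log (Real.log N) ≤ (|C| + 1) * Real.log (Real.log N) := mul_le_mul_of_nonneg_right (by linarith) h4
            _ ≤ (|C| + 1) * ((|C| + 1)⁻¹ / 2 * Real.log N ^ η) := mul_le_mul_of_nonneg_left h1 (by positivity)
            _ = 1 / 2 * Real.log N ^ η := by
                have : |C| + 1 ≠ 0 := by positivity
                field_simp
        linarith
      have e3 := VV_ge z
      have e4 := VV_pos z
      have e5 : 1 / VV z ≤ (z : ℝ) + 1 := by
        rw [div_le_iff₀ e4]
        rw [div_le_iff₀ (by positivity)] at e3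
        linarith
      calc 1 / (VV z * Real.log N) = 1 / VV z * (Real.log N)⁻¹ := by field_simp
        _ ≤ Real.log N ^ η * (Real.log N)⁻¹ := mul_le_mul_of_nonneg_right (e5.trans e2) (by positivity)
        _ = Real.log N ^ (-1 + η) := by
            rw [← Real.rpow_neg_one, ← Real.rpow_add hL]
            congr 1
            ring
    · positivity
  · filter_upwards [hlog.eventually_gt_atTop 1] with N h3 hq
    have hL : 0 < Real.log N := by linarith
    unfold sieved
    rw [if_pos hq]
    refine le_min ?_ ?_
    · exact Real.rpow_le_one_of_one_le_of_nonpos h3.le (by linarith)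
    · have e4 := VV_pos ⌊C * Real.log (Real.log N)⌋₊
      have e5 := VV_le_one ⌊C * Real.log (Real.log N)⌋₊
      calc Real.log N ^ (-1 - η) ≤ Real.log N ^ (-1 : ℝ) := Real.rpow_le_rpow_of_exponent_le h3.le (by linarith)
        _ = 1 / Real.log N := by rw [Real.rpow_neg_one, one_div]
        _ ≤ _ := by
            refine one_div_le_one_div_of_le (by positivity) ?_
            nlinarith

end Pool.Agent.Q106.IV
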