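import Pool.Agent.Q106.IV.Three

/-!
# The sieved models of the primes: constant and growing levels
-/

set_option autoImplicit false

namespace Pool.Agent.Q106.IV

open Finset Filter
open scoped Topology

open Classical in
/-- The probabilities of the model sieved by the primes up to `z + C log log N`. -/
noncomputable def sievedL (z C : ℝ) (N : ℕ) : ℝ :=
  if ∀ q : ℕ, q.Prime → q ∣ N → z + C * Real.log (Real.log N) < q then
    min 1 (1 / (VV ⌊z + C * Real.log (Real.log N)⌋₊ * Real.log N)) else 0

theorem densL_sieved (z C : ℝ) : DensL z C (sievedL z C) := by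
  have hlog : Tendsto (fun N : ℕ => Real.log N) atTop atTop := Real.tendsto_log_atTop.comp tendsto_natCast_atTop_atTop
  have hll : Tendsto (fun N : ℕ => Real.log (Real.log N)) atTop atTop := Real.tendsto_log_atTop.comp hlog
  refine ⟨fun N => ?_, fun η hη => ?_, fun η hη => ?_⟩
  · unfold sievedL
    split_ifs
    · refine ⟨le_min zero_le_one ?_, min_le_left _ _⟩
      have := VV_pos ⌊z + C * Real.log (Real.log N)⌋₊
      have := Real.log_natCast_nonneg N
      positivity
    · exact ⟨le_rfl, zero_le_one⟩
  · have g1 := (isLittleO_log_rpow_atTop (r := η) hη).def (c := (|C| + |z| + 1)⁻¹ / 2) (by positivity)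
    have g2 : Tendsto (fun y : ℝ => y ^ η) atTop atTop := tendsto_rpow_atTop hη
    filter_upwards [hlog.eventually g1, hlog.eventually (g2.eventually_ge_atTop 2), hlog.eventually_gt_atTop 1, hll.eventually_ge_atTop 1]
      with N h1 h2 h3 h4
    have hL : 0 < Real.log N := by linarith
    unfold sievedL
    split_ifs
    · refine (min_le_right _ _).trans ?_
      obtain ⟨u, hu⟩ : ∃ u, u = ⌊z + C * Real.log (Real.log N)⌋₊ := ⟨_, rfl⟩
      rw [← hu]
      have e0 : z + C * Real.log (Real.log N) ≤ (|C| + |z|) * Real.log (Real.log N) := by
        have k1 := le_abs_self z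
        have k2 := abs_nonneg z
        have k3 := mul_le_mul_of_nonneg_right (le_abs_self C) (by linarith : 0 ≤ Real.log (Real.log N))
        nlinarith
      have e1 : (u : ℝ) ≤ (|C| + |z|) * Real.log (Real.log N) := by
        rcases le_or_gt 0 (z + C * Real.log (Real.log N)) with h | h
        · rw [hu]
          exact (Nat.floor_le h).trans e0
        · rw [hu, Nat.floor_of_nonpos h.le]
          simp only [Nat.cast_zero]
          positivity
      rw [Real.norm_of_nonneg (by linarith), Real.norm_of_nonneg (by positivity)] at h1
      have e2 : (u : ℝ) + 1 ≤ Real.log N ^ η := by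
        have e3 : (|C| + |z|) * Real.log (Real.log N) ≤ 1 / 2 * Real.log N ^ η := by
          calc (|C| + |z|) * Real.log (Real.log N) ≤ (|C| + |z| + 1) * Real.log (Real.log N) :=
                mul_le_mul_of_nonneg_right (by linarith) (by linarith)
            _ ≤ (|C| + |z| + 1) * ((|C| + |z| + 1)⁻¹ / 2 * Real.log N ^ η) := mul_le_mul_of_nonneg_left h1 (by positivity)
            _ = 1 / 2 * Real.log N ^ η := by
                have : |C| + |z| + 1 ≠ 0 := by positivity
                field_simp
        linarith
      have e3 := VV_ge u
      have e4 := VV_pos u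
      have e5 : 1 / VV u ≤ (u : ℝ) + 1 := by
        rw [div_le_iff₀ e4]
        rw [div_le_iff₀ (by positivity)] at e3
        linarith
      calc 1 / (VV u * Real.log N) = 1 / VV u * (Real.log N)⁻¹ := by field_simp
        _ ≤ Real.log N ^ η * (Real.log N)⁻¹ := mul_le_mul_of_nonneg_right (e5.trans e2) (by positivity)
        _ = Real.log N ^ (-1 + η) := by
            rw [← Real.rpow_neg_one, ← Real.rpow_add hL]
            congr 1
            ring
    · positivity
  · filter_upwards [hlog.eventually_gt_atTop 1] with N h3 hq
    have hL : 0 < Real.log N := by linarith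
    unfold sievedL
    rw [if_pos hq]
    refine le_min ?_ ?_
    · exact Real.rpow_le_one_of_one_le_of_nonpos h3.le (by linarith)
    · have e4 := VV_pos ⌊z + C * Real.log (Real.log N)⌋₊
      have e5 := VV_le_one ⌊z + C * Real.log (Real.log N)⌋₊
      calc Real.log N ^ (-1 - η) ≤ Real.log N ^ (-1 : ℝ) := Real.rpow_le_rpow_of_exponent_le h3.le (by linarith)
        _ = 1 / Real.log N := by rw [Real.rpow_neg_one, one_div]
        _ ≤ _ := by
            refine one_div_le_one_div_of_le (by positivity) ?_
            nlinarith

end Pool.Agent.Q106.IV
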