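import Pool.Agent.Q106.IV.Tr
import Pool.Agent.Q197.IT.Thresh

/-!
# Iterated-index representations in random sets of small information
-/

set_option autoImplicit false

namespace Pool.Agent.Q106.IV

open Finset Filter MeasureTheory ProbabilityTheory Pool.Agent.Q197.FM Pool.Agent.Q197.CI Pool.Agent.Q197.BH Pool.Agent.Q197.IT
open Pool.Agent.Q120.GM (prodMeasure trueSet isModel)
open Pool.Agent.Q120.ET (IsRandomSet)
open Pool.Agent.Q120.ME (relEnt ind)
open Pool.Agent.Q106.WG (mem_ind)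
open scoped Topology

/-- The probabilities of Cramér's model. -/
noncomputable def cram (n : ℕ) : ℝ := if 3 ≤ n then 1 / Real.log n else 0

theorem log_gt_one {n : ℕ} (hn : 3 ≤ n) : 1 < Real.log (n : ℝ) := Pool.Agent.Q120.ET.one_lt_log hn

theorem un_cram {n : ℕ} : n ∈ Un cram ↔ 3 ≤ n := by
  constructor
  · intro h
    by_contra hcon
    have h1 : cram n = 0 := by unfold cram; rw [if_neg hcon]
    have h2 : 0 < cram n := h.1
    linarith
  · intro h
    have h1 : cram n = 1 / Real.log n := by unfold cram; rw [if_pos h]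
    have h2 := log_gt_one h
    refine ⟨?_, ?_⟩
    · show 0 < cram n
      rw [h1]
      positivity
    · show cram n < 1
      rw [h1, div_lt_one (by linarith)]
      exact h2

theorem cut_cram {n : ℕ} (hn : 3 ≤ n) : cut cram n = 1 / Real.log n := by
  rw [cut_of_mem (un_cram.2 hn)]
  unfold cram
  rw [if_pos hn]

theorem ref_indep : IndepElems (prodMeasure (cut cram)) (trueSet (ι := ℕ)) :=
  ⟨(isModel (cut cram) cut_nonneg cut_le_one).meas, (isModel (cut cram) cut_nonneg cut_le_one).indep⟩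

theorem ref_prob {n : ℕ} (hn : 3 ≤ n) : (prodMeasure (cut cram)).real {ω | n ∈ trueSet (ι := ℕ) ω} = 1 / Real.log n := by
  rw [(isModel (cut cram) cut_nonneg cut_le_one).prob n, cut_cram hn]

/-- The count fails. -/
def CtBad (n : ℕ) (S : Set ℕ) : Prop := ¬ ((n : ℝ) / (2 * Real.log n) ≤ ct S n ∧ (ct S n : ℝ) ≤ 2 * n / Real.log n)

theorem ct_loc {S S' : Set ℕ} {n : ℕ} (h : ∀ a ∈ Ico 3 n, (a ∈ S ↔ a ∈ S')) : ct S n = ct S' n := by
  classical
  unfold ct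
  congr 1
  exact filter_congr h

theorem ctBad_loc {n : ℕ} (hn : 1 ≤ n) : Loc (ind (Un cram) (2 * n)) (CtBad n) := by
  intro S S' h
  have h1 : ct S n = ct S' n := ct_loc (fun a ha => h a (by
    rw [mem_Ico] at ha
    rw [mem_ind]
    exact ⟨by omega, un_cram.2 ha.1⟩))
  unfold CtBad
  rw [h1]

theorem sc_ct (S : Set ℕ) (n : ℕ) : sc (fun a : ℕ => ({a} : Finset ℕ)) (Ico 3 n) S = ct S n := by
  classical
  unfold sc ct
  congr 2
  refine filter_congr (fun a _ => ?_)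
  simp

theorem pw_ref (n : ℕ) : ∑ i ∈ Ico 3 n, pw (prodMeasure (cut cram)) (trueSet (ι := ℕ)) ({i} : Finset ℕ) = Lf n := by
  unfold Lf
  refine sum_congr rfl (fun i hi => ?_)
  rw [mem_Ico] at hi
  unfold pw pb
  rw [prod_singleton, ref_prob hi.1]

theorem ctBad_prob {γ : ℝ} (hγ : γ < 1) : ∀ᶠ n : ℕ in atTop,
    (prodMeasure (cut cram)).real {ω | CtBad n (trueSet (ι := ℕ) ω)} ≤ Real.exp (-((n : ℝ) ^ γ)) := by
  have hL1 := tendsto_Lf.eventually_const_lt (show (3 / 4 : ℝ) < 1 by norm_num)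
  have hL2 := tendsto_Lf.eventually_lt_const (show (1 : ℝ) < 3 / 2 by norm_num)
  obtain ⟨δ, hδ⟩ : ∃ δ : ℝ, δ = max γ (1 / 2) := ⟨_, rfl⟩
  have hδ1 : δ < 1 := by rw [hδ]; exact max_lt hγ (by norm_num)
  have hδ0 : 0 < δ := by rw [hδ]; exact lt_of_lt_of_le (by norm_num) (le_max_right _ _)
  have hδγ : γ ≤ δ := by rw [hδ]; exact le_max_left _ _
  have g1 : Tendsto (fun x : ℝ => Real.log x / x ^ (1 - δ)) atTop (𝓝 0) :=
    (isLittleO_log_rpow_atTop (r := 1 - δ) (by linarith)).tendsto_div_nhds_zero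
  have g2 : Tendsto (fun n : ℕ => Real.log (n : ℝ) / (n : ℝ) ^ (1 - δ)) atTop (𝓝 0) := g1.comp tendsto_natCast_atTop_atTop
  have g3 : Tendsto (fun n : ℕ => (n : ℝ) ^ δ) atTop atTop := (tendsto_rpow_atTop hδ0).comp tendsto_natCast_atTop_atTop
  filter_upwards [hL1, hL2, g2.eventually_lt_const (show (0 : ℝ) < 1 / 256 by norm_num), g3.eventually_ge_atTop 1,
    eventually_ge_atTop 3] with n h1 h2 h3 h4 h5
  have hn0 : (0 : ℝ) < n := by exact_mod_cast (show 0 < n by omega)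
  have hn1 : (1 : ℝ) ≤ n := by exact_mod_cast (show 1 ≤ n by omega)
  have hlog := log_gt_one h5
  obtain ⟨m, hm⟩ : ∃ m : ℝ, m = (n : ℝ) / Real.log n := ⟨_, rfl⟩
  have hm0 : 0 < m := by rw [hm]; positivity
  rw [← hm] at h1 h2
  rw [lt_div_iff₀ hm0] at h1
  rw [div_lt_iff₀ hm0] at h2
  have hdisj : ∀ i ∈ Ico 3 n, ∀ j ∈ Ico 3 n, i ≠ j → Disjoint ((fun a : ℕ => ({a} : Finset ℕ)) i) ((fun a : ℕ => ({a} : Finset ℕ)) j) := by
    intro i _ j _ hij
    simpa using hij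
  have hup := upper_tail ref_indep (Ico 3 n) (fun a : ℕ => ({a} : Finset ℕ)) hdisj (t := m / 4) (M := 3 / 2 * m)
    (by positivity) (by positivity) (by linarith) (by rw [pw_ref]; linarith)
  have hlo := lower_tail ref_indep (Ico 3 n) (fun a : ℕ => ({a} : Finset ℕ)) hdisj (t := m / 4) (M := 3 / 2 * m)
    (by positivity) (by positivity) (by linarith) (by rw [pw_ref]; linarith)
  rw [pw_ref] at hup hlo
  simp only [sc_ct] at hup hlo
  have hexp : (m / 4) ^ 2 / (4 * (3 / 2 * m)) = m / 96 := by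
    field_simp
    norm_num
  rw [hexp] at hup hlo
  have hsub : {ω | CtBad n (trueSet (ι := ℕ) ω)} ⊆ {ω | Lf n + m / 4 ≤ (ct (trueSet (ι := ℕ) ω) n : ℝ)} ∪
      {ω | (ct (trueSet (ι := ℕ) ω) n : ℝ) ≤ Lf n - m / 4} := by
    intro ω hω
    by_contra hcon
    simp only [Set.mem_union, Set.mem_ofPred_eq, not_or, not_le] at hcon
    refine hω ⟨?_, ?_⟩
    · have e1 : (n : ℝ) / (2 * Real.log n) = m / 2 := by
        rw [hm]
        field_simp
      rw [e1]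
      linarith [hcon.2]
    · have e1 : 2 * (n : ℝ) / Real.log n = 2 * m := by
        rw [hm]
        ring
      rw [e1]
      linarith [hcon.1]
  refine (measureReal_mono hsub (measure_ne_top _ _)).trans ((measureReal_union_le _ _).trans ?_)
  have h6 : (n : ℝ) ^ δ * 256 ≤ m := by
    have e1 : (n : ℝ) = (n : ℝ) ^ δ * (n : ℝ) ^ (1 - δ) := by
      rw [← Real.rpow_add hn0]
      simp
    rw [div_lt_iff₀ (by positivity)] at h3
    rw [hm, le_div_iff₀ (by linarith)]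
    have h7 : 0 < (n : ℝ) ^ δ := by positivity
    calc (n : ℝ) ^ δ * 256 * Real.log n = (n : ℝ) ^ δ * (256 * Real.log n) := by ring
      _ ≤ (n : ℝ) ^ δ * (n : ℝ) ^ (1 - δ) := mul_le_mul_of_nonneg_left (by linarith) h7.le
      _ = n := e1.symm
  have h7 : (n : ℝ) ^ γ ≤ (n : ℝ) ^ δ := Real.rpow_le_rpow_of_exponent_le hn1 hδγ
  have h8 : (2 : ℝ) ≤ Real.exp 1 := by
    have := Real.add_one_le_exp (1 : ℝ)
    linarith
  have h9 : 2 * Real.exp (-(m / 96)) ≤ Real.exp (-((n : ℝ) ^ γ)) := by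
    calc 2 * Real.exp (-(m / 96)) ≤ Real.exp 1 * Real.exp (-(m / 96)) :=
          mul_le_mul_of_nonneg_right h8 (Real.exp_pos _).le
      _ = Real.exp (1 + -(m / 96)) := by rw [← Real.exp_add]
      _ ≤ _ := Real.exp_le_exp.2 (by linarith)
  linarith

/-- The count law for random sets of small information. -/
theorem info_count {θ : ℝ} (hθ0 : 0 ≤ θ) (hθ1 : θ < 1) :
    ∀ (Ω : Type) [MeasurableSpace Ω] (μ : Measure Ω) [IsProbabilityMeasure μ] (A : Ω → Set ℕ), IsRandomSet A →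
      (∀ᶠ x : ℕ in atTop, relEnt cram μ A (ind (Un cram) x) ≤ (x : ℝ) ^ θ) →
      ∀ᵐ ω ∂μ, ∀ᶠ n : ℕ in atTop, (n : ℝ) / (2 * Real.log n) ≤ ct (A ω) n ∧ (ct (A ω) n : ℝ) ≤ 2 * n / Real.log n := by
  intro Ω _ μ _ A hA hent
  have h1 := transfer (p := cram) (E := CtBad) (γ := (1 + θ) / 2) hθ0 (by linarith)
    (by filter_upwards [eventually_ge_atTop 1] with n hn; exact ctBad_loc hn) (ctBad_prob (by linarith)) Ω μ A hA hent
  filter_upwards [h1] with ω h2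
  filter_upwards [h2] with n h3
  exact not_not.1 h3

/-- Powers of the logarithm. -/
theorem growth2 {C ε ε' : ℝ} (hC : 1 ≤ C) (hε : 0 ≤ ε) (hεε : ε' < ε) : ∀ᶠ n : ℕ in atTop, ∀ k : ℕ,
    (k : ℝ) * Real.log (Real.log n) ≤ (1 - ε) * Real.log n → (C * Real.log n) ^ k ≤ (n : ℝ) ^ (1 - ε') := by
  obtain ⟨δ, hδ⟩ : ∃ δ : ℝ, δ = ε - ε' := ⟨_, rfl⟩
  have hδ0 : 0 < δ := by rw [hδ]; linarith
  filter_upwards [loglog_nat_top.eventually_ge_atTop (Real.log C / δ + 1), log_nat_top.eventually_ge_atTop 1,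
    eventually_gt_atTop 0] with n h1 h2 h3 k hk
  have hn0 : (0 : ℝ) < n := by exact_mod_cast h3
  have hlC : 0 ≤ Real.log C := Real.log_nonneg hC
  have hCl : 0 < C * Real.log n := by positivity
  rw [← Real.exp_log hCl, ← Real.exp_nat_mul, Real.rpow_def_of_pos hn0, Real.log_mul (by positivity) (by positivity)]
  refine Real.exp_le_exp.2 ?_
  have h4 : (k : ℝ) * Real.log C ≤ δ * Real.log n := by
    have h5 : (k : ℝ) * (Real.log C / δ) ≤ (1 - ε) * Real.log n := by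
      refine le_trans ?_ hk
      exact mul_le_mul_of_nonneg_left (by linarith) (Nat.cast_nonneg _)
    have h6 : (k : ℝ) * (Real.log C / δ) = (k * Real.log C) / δ := by ring
    rw [h6, div_le_iff₀ hδ0] at h5
    have h7 : (1 - ε) * Real.log n * δ ≤ 1 * Real.log n * δ := by
      refine mul_le_mul_of_nonneg_right (mul_le_mul_of_nonneg_right (by linarith) (by linarith)) hδ0.le
    linarith
  rw [hδ] at h4
  nlinarith

/-- The sum over all types. -/
theorem numeric2 {γ δ : ℝ} (hγδ : γ < δ) (hδ : 0 < δ) : ∀ᶠ n : ℕ in atTop, ∀ k : ℕ, (k : ℝ) ≤ Real.log n →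
    (n : ℝ) ^ 2 * (((n : ℝ) + 3) ^ (2 * k) * (k * Real.exp (-((n : ℝ) ^ δ / 256)))) ≤ Real.exp (-((n : ℝ) ^ γ)) := by
  have h1 : Tendsto (fun n : ℕ => Real.log (n : ℝ) ^ (2 : ℝ) / (n : ℝ) ^ δ) atTop (𝓝 0) :=
    ((isLittleO_log_rpow_rpow_atTop 2 hδ).tendsto_div_nhds_zero).comp tendsto_natCast_atTop_atTop
  have h1' : Tendsto (fun n : ℕ => (n : ℝ) ^ (δ - γ)) atTop atTop :=
    (tendsto_rpow_atTop (by linarith)).comp tendsto_natCast_atTop_atTop
  filter_upwards [h1.eventually_lt_const (show (0 : ℝ) < 1 / 5120 by norm_num), h1'.eventually_ge_atTop 512,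
    eventually_ge_atTop 3, log_nat_top.eventually_ge_atTop 1] with n h2 h2' h3 h4 k hk
  have hn0 : (0 : ℝ) < n := by exact_mod_cast (by omega : 0 < n)
  have hn3 : (3 : ℝ) ≤ n := by exact_mod_cast h3
  have hp : 0 < (n : ℝ) ^ δ := Real.rpow_pos_of_pos hn0 _
  rw [div_lt_iff₀ hp, Real.rpow_two] at h2
  have hγn : (n : ℝ) ^ γ * 512 ≤ (n : ℝ) ^ δ := by
    have e1 : (n : ℝ) ^ δ = (n : ℝ) ^ γ * (n : ℝ) ^ (δ - γ) := by
      rw [← Real.rpow_add hn0]
      congr 1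
      ring
    rw [e1]
    exact mul_le_mul_of_nonneg_left h2' (by positivity)
  obtain ⟨L, hL⟩ : ∃ L : ℝ, L = Real.log n := ⟨_, rfl⟩
  rw [← hL] at h2 h4 hk
  have hexpL : Real.exp L = n := by rw [hL]; exact Real.exp_log hn0
  have e1 : ((n : ℝ) + 3) ^ (2 * k) ≤ Real.exp (4 * L ^ 2) := by
    have h5 : (n : ℝ) + 3 ≤ (n : ℝ) ^ 2 := by nlinarith
    calc ((n : ℝ) + 3) ^ (2 * k) ≤ ((n : ℝ) ^ 2) ^ (2 * k) := pow_le_pow_left₀ (by positivity) h5 _
      _ = Real.exp ((4 * k : ℕ) * L) := by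
          rw [← pow_mul, ← hexpL, ← Real.exp_nat_mul]
          congr 2
          push_cast
          ring
      _ ≤ Real.exp (4 * L ^ 2) := by
          refine Real.exp_le_exp.2 ?_
          push_cast
          nlinarith
  have e2 : (k : ℝ) ≤ Real.exp L := by
    have := Real.add_one_le_exp L
    linarith
  have e3 : (n : ℝ) ^ 2 = Real.exp (2 * L) := by
    rw [← hexpL, ← Real.exp_nat_mul]
    push_cast
    ring_nf
  rw [e3]
  calc Real.exp (2 * L) * (((n : ℝ) + 3) ^ (2 * k) * (k * Real.exp (-((n : ℝ) ^ δ / 256))))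
      ≤ Real.exp (2 * L) * (Real.exp (4 * L ^ 2) * (Real.exp L * Real.exp (-((n : ℝ) ^ δ / 256)))) := by
        refine mul_le_mul_of_nonneg_left ?_ (Real.exp_pos _).le
        refine mul_le_mul e1 ?_ (by positivity) (Real.exp_pos _).le
        exact mul_le_mul_of_nonneg_right e2 (Real.exp_pos _).le
    _ = Real.exp (2 * L + (4 * L ^ 2 + (L + -((n : ℝ) ^ δ / 256)))) := by
        rw [← Real.exp_add, ← Real.exp_add, ← Real.exp_add]
    _ ≤ Real.exp (-((n : ℝ) ^ γ)) := by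
        refine Real.exp_le_exp.2 ?_
        nlinarith

/-- The chain of two blocks fails for some type. -/
def ChBad (ε : ℝ) (n : ℕ) (S : Set ℕ) : Prop := ∃ v ∈ range n ×ˢ range n,
  ((v.1 + v.2 + 2 : ℕ) : ℝ) * Real.log (Real.log n) ≤ (1 - ε) * Real.log n ∧
  BC (n + 2) (K1 (n + 2) v.2 (n + 1 - n / 4 - n / 8) (n / 8)) (v.1 + 1) ∅ (n / 4) (n / 4 + n / 8) (range (n / 8)) id S

theorem chBad_loc {ε : ℝ} {n : ℕ} (hn : 2 ≤ n) : Loc (ind (Un cram) (2 * n)) (ChBad ε n) := by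
  have hK0l : ∀ Used T, Loc (Ico 3 (n + 2) \ Used) (K0 Used T) := fun Used T S S' _ => rfl
  intro S S' h
  unfold ChBad
  refine propext (exists_congr (fun v => and_congr_right (fun _ => and_congr_right (fun _ => ?_))))
  have hK1l : ∀ Used T, Loc (Ico 3 (n + 2) \ Used) (K1 (n + 2) v.2 (n + 1 - n / 4 - n / 8) (n / 8) Used T) :=
    fun Used T => bc_loc hK0l (v.2 + 1) Used _ _ T _
  have h1 := bc_loc hK1l (v.1 + 1) ∅ (n / 4) (n / 4 + n / 8) (range (n / 8)) id S S' (fun a ha => h a (by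
    have ha := (Finset.mem_sdiff.1 ha).1
    rw [mem_Ico] at ha
    rw [mem_ind]
    exact ⟨by omega, un_cram.2 ha.1⟩))
  rw [h1]

theorem chBad_prob {ε γ : ℝ} (hγ0 : 0 < γ) (hγ : γ < ε) (hε1 : ε ≤ 1) : ∀ᶠ n : ℕ in atTop,
    (prodMeasure (cut cram)).real {ω | ChBad ε n (trueSet (ι := ℕ) ω)} ≤ Real.exp (-((n : ℝ) ^ γ)) := by
  classical
  obtain ⟨δ, hδ⟩ : ∃ δ : ℝ, δ = (γ + ε) / 2 := ⟨_, rfl⟩
  have hδ1 : γ < δ := by linarith
  have hδ2 : δ < ε := by linarith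
  filter_upwards [growth2 (C := 4) (by norm_num) (by linarith : 0 ≤ ε) hδ2, numeric2 hδ1 (by linarith), eventually_ge_atTop 16,
    loglog_nat_top.eventually_ge_atTop 1, log_nat_top.eventually_ge_atTop 1] with n h1 h2 h3 h4 h5
  have hn0 : (0 : ℝ) < n := by exact_mod_cast (by omega : 0 < n)
  have hn16 : (16 : ℝ) ≤ n := by exact_mod_cast h3
  obtain ⟨τ, hτ⟩ : ∃ τ : ℝ, τ = 1 / (2 * Real.log n) := ⟨_, rfl⟩
  have hτ0 : 0 < τ := by rw [hτ]; positivity
  have hτ1 : τ ≤ 1 := by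
    rw [hτ, div_le_one (by positivity)]
    linarith
  obtain ⟨ν, hν⟩ : ∃ ν, ν = prodMeasure (cut cram) := ⟨_, rfl⟩
  obtain ⟨A', hA'⟩ : ∃ A', A' = trueSet (ι := ℕ) := ⟨_, rfl⟩
  have hind : IndepElems ν A' := by rw [hν, hA']; exact ref_indep
  haveI : IsProbabilityMeasure ν := by rw [hν]; infer_instance
  have hτN : ∀ a : ℕ, 3 ≤ a → a < n + 2 → τ ≤ ν.real {ω | a ∈ A' ω} := by
    intro a ha haN
    rw [hν, hA', ref_prob ha, hτ]
    have ha0 : (3 : ℝ) ≤ a := by exact_mod_cast ha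
    have h6 : 0 < Real.log (a : ℝ) := Real.log_pos (by linarith)
    refine one_div_le_one_div_of_le h6 ?_
    have h7 : (a : ℝ) ≤ (n : ℝ) ^ 2 := by
      have : (a : ℝ) ≤ n + 2 := by exact_mod_cast haN.le
      nlinarith
    have h8 := Real.log_le_log (by linarith) h7
    rw [Real.log_pow] at h8
    exact_mod_cast h8
  have hH : ((n : ℝ)) / 16 ≤ ((n / 8 : ℕ) : ℝ) := by
    have h6 : n ≤ 16 * (n / 8) := by omega
    have h7 : (n : ℝ) ≤ 16 * ((n / 8 : ℕ) : ℝ) := by exact_mod_cast h6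
    linarith
  rw [← hν, ← hA']
  obtain ⟨V, hV⟩ : ∃ V : Finset (ℕ × ℕ), V = (range n ×ˢ range n).filter (fun v : ℕ × ℕ =>
      ((v.1 + v.2 + 2 : ℕ) : ℝ) * Real.log (Real.log n) ≤ (1 - ε) * Real.log n) := ⟨_, rfl⟩
  have hsub : {ω | ChBad ε n (A' ω)} ⊆ ⋃ v ∈ V,
      {ω | BC (n + 2) (K1 (n + 2) v.2 (n + 1 - n / 4 - n / 8) (n / 8)) (v.1 + 1) ∅ (n / 4) (n / 4 + n / 8) (range (n / 8)) id
          (A' ω)} := by
    rintro ω ⟨v, hv, hv1, hv2⟩
    rw [Set.mem_iUnion₂]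
    exact ⟨v, by rw [hV, mem_filter]; exact ⟨hv, hv1⟩, hv2⟩
  refine (measureReal_mono hsub (measure_ne_top _ _)).trans ((measureReal_biUnion_finset_le _ _).trans ?_)
  have hn2 : (0 : ℝ) < (n : ℝ) ^ 2 := by positivity
  have hev : ∀ v ∈ V,
      ν.real {ω | BC (n + 2) (K1 (n + 2) v.2 (n + 1 - n / 4 - n / 8) (n / 8)) (v.1 + 1) ∅ (n / 4) (n / 4 + n / 8)
        (range (n / 8)) id (A' ω)} ≤ Real.exp (-((n : ℝ) ^ γ)) / (n : ℝ) ^ 2 := by
    intro v hv
    rw [hV, mem_filter] at hv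
    obtain ⟨k, hk⟩ : ∃ k : ℕ, k = v.1 + v.2 + 2 := ⟨_, rfl⟩
    have hv2 := hv.2
    rw [← hk] at hv2
    have h6 := two_chains hind hτ0 hτ1 hτN v.1 v.2 (n / 4) (n + 1 - n / 4 - n / 8) (n / 8) (by omega)
    rw [← hk] at h6
    refine h6.trans ?_
    have hkL : (k : ℝ) ≤ Real.log n := by
      have h7 : (k : ℝ) * 1 ≤ k * Real.log (Real.log n) := mul_le_mul_of_nonneg_left h4 (Nat.cast_nonneg _)
      have h8 : (1 - ε) * Real.log n ≤ Real.log n := by nlinarith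
      linarith
    have h7 := h2 k hkL
    have h8 := h1 k hv2
    have h9 : (n : ℝ) ^ δ / 16 ≤ ((n / 8 : ℕ) : ℝ) * (τ / 2) ^ k := by
      have e1 : (τ / 2) ^ k = 1 / (4 * Real.log n) ^ k := by
        rw [hτ, div_div, div_pow, one_pow]
        congr 2
        ring
      rw [e1]
      have e2 : 1 / (n : ℝ) ^ (1 - δ) ≤ 1 / (4 * Real.log n) ^ k := one_div_le_one_div_of_le (by positivity) h8
      have e3 : (n : ℝ) ^ δ = n * (1 / (n : ℝ) ^ (1 - δ)) := by
        rw [one_div, ← Real.rpow_neg hn0.le]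
        nth_rw 2 [← Real.rpow_one (n : ℝ)]
        rw [← Real.rpow_add hn0]
        congr 1
        ring
      rw [e3]
      calc (n : ℝ) * (1 / (n : ℝ) ^ (1 - δ)) / 16 = n / 16 * (1 / (n : ℝ) ^ (1 - δ)) := by ring
        _ ≤ _ := mul_le_mul hH e2 (by positivity) (by positivity)
    have h10 : Real.exp (-(((n / 8 : ℕ) : ℝ) * (τ / 2) ^ k / 16)) ≤ Real.exp (-((n : ℝ) ^ δ / 256)) := by
      refine Real.exp_le_exp.2 ?_
      linarith
    have h11 : (((n + 2 : ℕ) : ℝ) + 1) = (n : ℝ) + 3 := by push_cast; ring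
    rw [h11]
    have h12 : ((n : ℝ) + 3) ^ (2 * k) * (k * Real.exp (-(((n / 8 : ℕ) : ℝ) * (τ / 2) ^ k / 16))) ≤
        ((n : ℝ) + 3) ^ (2 * k) * (k * Real.exp (-((n : ℝ) ^ δ / 256))) :=
      mul_le_mul_of_nonneg_left (mul_le_mul_of_nonneg_left h10 (Nat.cast_nonneg _)) (by positivity)
    refine h12.trans ?_
    rw [le_div_iff₀ hn2, mul_comm]
    exact h7
  refine (sum_le_card_nsmul _ _ _ hev).trans ?_
  rw [nsmul_eq_mul]
  have h6 : ((V.card : ℕ) : ℝ) ≤ (n : ℝ) ^ 2 := by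
    have := card_filter_le (range n ×ˢ range n) (fun v : ℕ × ℕ =>
      ((v.1 + v.2 + 2 : ℕ) : ℝ) * Real.log (Real.log n) ≤ (1 - ε) * Real.log n)
    rw [card_product, card_range] at this
    rw [hV, sq]
    exact_mod_cast this
  have h7 : 0 ≤ Real.exp (-((n : ℝ) ^ γ)) / (n : ℝ) ^ 2 := by positivity
  refine (mul_le_mul_of_nonneg_right h6 h7).trans (le_of_eq ?_)
  field_simp

end Pool.Agent.Q106.IV
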