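import Pool.Agent.Q106.IV.ItU

/-!
# All types of small complexity, in random sets of small information
-/

set_option autoImplicit false

namespace Pool.Agent.Q106.IV

open Finset Filter MeasureTheory ProbabilityTheory Pool.Agent.Q197.CI Pool.Agent.Q197.IT
open Pool.Agent.Q120.ET (IsRandomSet)
open Pool.Agent.Q120.ME (relEnt ind)
open scoped Topology

/-- The deterministic part: the count law and no bad chain give representations. -/
theorem rep_of {S : Set ℕ} {ε : ℝ} (hε : 0 < ε) (hε1 : ε ≤ 1)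
    (hct : ∀ᶠ n : ℕ in atTop, (n : ℝ) / (2 * Real.log n) ≤ ct S n ∧ (ct S n : ℝ) ≤ 2 * n / Real.log n)
    (hch : ∀ᶠ n : ℕ in atTop, ¬ ChBad ε n S) : ∀ᶠ n : ℕ in atTop, ∀ a b : ℕ,
      ((a + b + 2 : ℕ) : ℝ) * Real.log (Real.log n) ≤ (1 - ε) * Real.log n → IsRep S a b n := by
  obtain ⟨x0, hx0⟩ : ∃ x0 : ℕ, ∀ x : ℕ, x0 ≤ x → (x : ℝ) / (2 * Real.log x) ≤ ct S x := by
    obtain ⟨x0, h3⟩ := eventually_atTop.1 hct
    exact ⟨x0, fun x hx => (h3 x hx).1⟩
  have hct2 : ∀ᶠ x : ℕ in atTop, (ct S x : ℝ) ≤ x / 16 := by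
    filter_upwards [hct, log_nat_top.eventually_ge_atTop 32] with x h2 h3
    have hx0 : (0 : ℝ) ≤ x := Nat.cast_nonneg x
    refine h2.2.trans ?_
    rw [div_le_div_iff₀ (by linarith) (by norm_num)]
    nlinarith
  obtain ⟨x1, hx1⟩ := eventually_atTop.1 hct2
  have hbig : Tendsto (fun n : ℕ => (n : ℝ) ^ (ε / 2)) atTop atTop :=
    (tendsto_rpow_atTop (by positivity)).comp tendsto_natCast_atTop_atTop
  filter_upwards [hch, growth (C := 2) (by norm_num) hε, eventually_ge_atTop (2 * x1 + 64), eventually_ge_atTop 64,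
    loglog_nat_top.eventually_ge_atTop 1, log_nat_top.eventually_ge_atTop 1,
    hbig.eventually_ge_atTop (8 * ((x0 : ℝ) + 3))] with n h2 h3 h4 h5 h6 h7 h8 a b hab
  have hn0 : (0 : ℝ) < n := by exact_mod_cast (by omega : 0 < n)
  by_contra hcon
  apply h2
  obtain ⟨k, hk⟩ : ∃ k : ℕ, k = a + b + 2 := ⟨_, rfl⟩
  have hab' := hab
  rw [← hk] at hab'
  have hkL : (k : ℝ) ≤ Real.log n := by
    have h9 : (k : ℝ) * 1 ≤ k * Real.log (Real.log n) := mul_le_mul_of_nonneg_left h6 (Nat.cast_nonneg _)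
    have h10 : (1 - ε) * Real.log n ≤ Real.log n := by nlinarith
    linarith
  have hkn : k < n := by
    have h9 := Real.log_le_sub_one_of_pos hn0
    have : (k : ℝ) < n := by linarith
    exact_mod_cast this
  have hchain := chain_of_not_rep (S := S) (N := n + 2) (n := n) (a := a) (b := b) (c := n / 4)
    (e := n + 1 - n / 4 - n / 8) (H := n / 8) (by omega) (by omega) (by omega) (by omega) ?_ ?_ hcon
  · refine ⟨(a, b), ?_, hab, hchain⟩
    rw [mem_product, mem_range, mem_range]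
    exact ⟨by simp only; omega, by simp only; omega⟩
  · -- the position of the second block
    have h9 : n + 1 - n / 4 - n / 8 + n / 8 = n + 1 - n / 4 := by omega
    rw [h9]
    have h10 := hx1 (n + 1 - n / 4) (by omega)
    unfold fs
    have h11 : 16 * ct S (n + 1 - n / 4) ≤ n + 1 - n / 4 := by
      have : (16 : ℝ) * ct S (n + 1 - n / 4) ≤ ((n + 1 - n / 4 : ℕ) : ℝ) := by linarith
      exact_mod_cast this
    omega
  · intro j hj
    have hjk : j ≤ k := by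
      rw [hk]
      omega
    have h9 := h3 k hab'
    have hc8 : (n : ℝ) / 8 ≤ ((n / 4 : ℕ) : ℝ) := by
      have h10 : n ≤ 8 * (n / 4) := by omega
      have h11 : (n : ℝ) ≤ 8 * ((n / 4 : ℕ) : ℝ) := by exact_mod_cast h10
      linarith
    have h10 : ((x0 : ℝ) + 3) ≤ ((n / 4 : ℕ) : ℝ) / (2 * Real.log n) ^ j := by
      have e0 : (2 * Real.log n) ^ j ≤ (2 * Real.log (n : ℝ)) ^ k := pow_le_pow_right₀ (by linarith) hjk
      have e1 : ((n / 4 : ℕ) : ℝ) / (n : ℝ) ^ (1 - ε / 2) ≤ ((n / 4 : ℕ) : ℝ) / (2 * Real.log n) ^ j :=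
        div_le_div_of_nonneg_left (Nat.cast_nonneg _) (by positivity) (e0.trans h9)
      refine le_trans ?_ e1
      have e2 : (n : ℝ) / 8 / (n : ℝ) ^ (1 - ε / 2) ≤ ((n / 4 : ℕ) : ℝ) / (n : ℝ) ^ (1 - ε / 2) :=
        div_le_div_of_nonneg_right hc8 (by positivity)
      refine le_trans ?_ e2
      have e3 : (n : ℝ) ^ (ε / 2) = n / (n : ℝ) ^ (1 - ε / 2) := by
        rw [eq_div_iff (by positivity), ← Real.rpow_add hn0]
        have e5 : ε / 2 + (1 - ε / 2) = 1 := by ring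
        rw [e5, Real.rpow_one]
      have e4 : (n : ℝ) / 8 / (n : ℝ) ^ (1 - ε / 2) = (n : ℝ) ^ (ε / 2) / 8 := by
        rw [e3]
        ring
      rw [e4]
      linarith
    have hx03 : (3 : ℝ) ≤ (x0 : ℝ) + 3 := by
      have : (0 : ℝ) ≤ x0 := Nat.cast_nonneg _
      linarith
    have h11 := it_lower (S := S) hx03 (fun x hx => hx0 x (by
        have h12 : (x0 : ℝ) ≤ x := by linarith
        exact_mod_cast h12)) (c := n / 4) (L := Real.log n) h7 (by
          rcases Nat.eq_zero_or_pos (n / 4) with h12 | h12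
          · rw [h12, Nat.cast_zero, Real.log_zero]
            linarith
          · refine Real.log_le_log (by exact_mod_cast h12) ?_
            exact_mod_cast Nat.div_le_self n 4) j h10
    have h12 : (3 : ℝ) ≤ (((fs S)^[j] (n / 4) : ℕ) : ℝ) := by linarith
    exact_mod_cast h12

/-- The representations beyond the exponent `θ`. -/
def UpT (θ : ℝ) (S : Set ℕ) : Prop := ∀ ε : ℝ, θ < ε → ∀ᶠ n : ℕ in atTop, ∀ a b : ℕ,
    ((a + b + 2 : ℕ) : ℝ) * Real.log (Real.log n) ≤ (1 - ε) * Real.log n → IsRep S a b n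

/-- **All types of small complexity.** -/
theorem info_types {θ : ℝ} (hθ0 : 0 ≤ θ) (hθ1 : θ < 1) :
    ∀ (Ω : Type) [MeasurableSpace Ω] (μ : Measure Ω) [IsProbabilityMeasure μ] (A : Ω → Set ℕ), IsRandomSet A →
      (∀ᶠ x : ℕ in atTop, relEnt cram μ A (ind (Un cram) x) ≤ (x : ℝ) ^ θ) → ∀ᵐ ω ∂μ, UpT θ (A ω) := by
  intro Ω _ μ _ A hA hent
  have h1 : ∀ᵐ ω ∂μ, ∀ i : ℕ, ∀ᶠ n : ℕ in atTop, ∀ a b : ℕ,
      ((a + b + 2 : ℕ) : ℝ) * Real.log (Real.log n) ≤ (1 - min 1 (θ + 1 / ((i : ℝ) + 1))) * Real.log n → IsRep (A ω) a b n := by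
    rw [ae_all_iff]
    intro i
    obtain ⟨ε, hε⟩ : ∃ ε : ℝ, ε = min 1 (θ + 1 / ((i : ℝ) + 1)) := ⟨_, rfl⟩
    have hi : (0 : ℝ) < 1 / ((i : ℝ) + 1) := by positivity
    have hε1 : ε ≤ 1 := by rw [hε]; exact min_le_left _ _
    have hεθ : θ < ε := by rw [hε]; exact lt_min hθ1 (by linarith)
    have h2 := transfer (p := cram) (E := ChBad ε) (γ := (θ + ε) / 2) hθ0 (by linarith)
      (by filter_upwards [eventually_ge_atTop 2] with n hn; exact chBad_loc hn)
      (chBad_prob (by linarith) (by linarith) hε1) Ω μ A hA hent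
    filter_upwards [h2, info_count hθ0 hθ1 Ω μ A hA hent] with ω h3 h4
    rw [← hε]
    exact rep_of (by linarith) hε1 h4 h3
  filter_upwards [h1] with ω h2 ε hε
  obtain ⟨i, hi⟩ := exists_nat_one_div_lt (show 0 < ε - θ by linarith)
  filter_upwards [h2 i, log_nat_top.eventually_ge_atTop 0] with n h4 h5 a b hab
  refine h4 a b (hab.trans ?_)
  refine mul_le_mul_of_nonneg_right ?_ h5
  have := min_le_right 1 (θ + 1 / ((i : ℝ) + 1))
  linarith

theorem ex_finite_t {θ : ℝ} (hθ1 : θ < 1) {S : Set ℕ} (hU : UpT θ S) (a b : ℕ) : (Ex2 S a b).Finite := by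
  obtain ⟨δ, hδ⟩ : ∃ δ : ℝ, δ = (1 - θ) / 2 := ⟨_, rfl⟩
  have hδ0 : 0 < δ := by linarith
  have h1 : ∀ᶠ n : ℕ in atTop, IsRep S a b n := by
    filter_upwards [hU (1 - δ) (by linarith), loglog_div.eventually_lt_const
      (show (0 : ℝ) < δ / (((a + b + 2 : ℕ) : ℝ)) by positivity), log_nat_top.eventually_ge_atTop 1] with n h1 h2 h3
    refine h1 a b ?_
    have hL : 0 < Real.log (n : ℝ) := by linarith
    rw [div_lt_iff₀ hL] at h2
    have h4 : (0 : ℝ) < ((a + b + 2 : ℕ) : ℝ) := by positivity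
    calc ((a + b + 2 : ℕ) : ℝ) * Real.log (Real.log n) ≤ ((a + b + 2 : ℕ) : ℝ) * (δ / ((a + b + 2 : ℕ) : ℝ) * Real.log n) :=
          mul_le_mul_of_nonneg_left h2.le h4.le
      _ = (1 - (1 - δ)) * Real.log n := by
          field_simp
          ring
  obtain ⟨n0, hn0⟩ := eventually_atTop.1 h1
  refine (Set.finite_Iio n0).subset (fun n hn => ?_)
  rw [Set.mem_Iio]
  by_contra hcon
  exact hn (hn0 (2 * n) (by omega))

theorem up_side_t {θ : ℝ} (hθ0 : 0 ≤ θ) (hθ1 : θ < 1) {S : Set ℕ} (hU : UpT θ S) {c : ℝ} (hc : 1 / (1 - θ) < c) :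
    ∀ᶠ s : ℕ in atTop, ∀ a b : ℕ, a + b = s → ∀ n ∈ Ex2 S a b, Real.log n ≤ c * sc1 s := by
  have h1θ : 0 < 1 - θ := by linarith
  have hc1 : 1 < c * (1 - θ) := by rwa [div_lt_iff₀ h1θ] at hc
  have hc0 : 0 < c := lt_of_lt_of_le (by positivity) hc.le
  have hc2 : 1 ≤ c := by
    by_contra hcon
    push Not at hcon
    nlinarith
  obtain ⟨η, hη⟩ : ∃ η : ℝ, η = (c * (1 - θ) - 1) / 2 := ⟨_, rfl⟩
  have hη0 : 0 < η := by linarith
  obtain ⟨δ, hδ⟩ : ∃ δ : ℝ, δ = min 1 (η / (4 + 2 * c)) := ⟨_, rfl⟩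
  have hδ0 : 0 < δ := by rw [hδ]; positivity
  have hδ1 : δ ≤ 1 := by rw [hδ]; exact min_le_left _ _
  have hδη : δ * (4 + 2 * c) ≤ η := by
    have : δ ≤ η / (4 + 2 * c) := by rw [hδ]; exact min_le_right _ _
    rwa [le_div_iff₀ (by linarith)] at this
  obtain ⟨ε, hε⟩ : ∃ ε : ℝ, ε = θ + η / c := ⟨_, rfl⟩
  have hεθ : θ < ε := by
    have : 0 < η / c := by positivity
    linarith
  have hεc : (1 - ε) * c = 1 + η := by
    have e1 : (1 - ε) * c = c * (1 - θ) - η := by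
      rw [hε]
      field_simp
      ring
    rw [e1, hη]
    ring
  obtain ⟨n0, hn0⟩ := eventually_atTop.1 (hU ε hεθ)
  filter_upwards [sc1_top.eventually_ge_atTop (Real.log n0), loglog_div.eventually_lt_const hδ0,
    log_nat_top.eventually_ge_atTop (2 / δ), eventually_ge_atTop 2,
    tendsto_natCast_atTop_atTop.eventually_ge_atTop (2 / δ)] with s h1 h2 h3 h4 h5 a b hab n hn
  by_contra hcon
  push Not at hcon
  have h22 : 2 ≤ 2 / δ := by rw [le_div_iff₀ hδ0]; linarith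
  obtain ⟨l, hl⟩ : ∃ l : ℝ, l = Real.log s := ⟨_, rfl⟩
  obtain ⟨T, hT⟩ : ∃ T : ℝ, T = sc1 s := ⟨_, rfl⟩
  have hTl : T = s * l := by rw [hT, hl]; rfl
  rw [← hT] at h1 hcon
  rw [← hl] at h2 h3
  have hs2 : (2 : ℝ) ≤ s := by exact_mod_cast h4
  have hl0 : 0 < l := by linarith
  have hT0 : 0 < T := by rw [hTl]; positivity
  rw [div_lt_iff₀ hl0] at h2
  have hn1 : 1 ≤ n := by
    by_contra hc'
    have : n = 0 := by omega
    rw [this, Nat.cast_zero, Real.log_zero] at hcon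
    have : 0 < c * T := by positivity
    linarith
  have hnr : (1 : ℝ) ≤ n := by exact_mod_cast hn1
  obtain ⟨L, hL⟩ : ∃ L : ℝ, L = Real.log ((2 * n : ℕ) : ℝ) := ⟨_, rfl⟩
  have hnL : Real.log n ≤ L := by
    rw [hL]
    refine Real.log_le_log (by linarith) ?_
    push_cast
    linarith
  have hLT : c * T ≤ L := by linarith
  have hL0 : 0 < L := lt_of_lt_of_le (by positivity) hLT
  have hn02 : n0 ≤ 2 * n := by
    by_contra hc'
    push Not at hc'
    have h6 : Real.log n < Real.log n0 := by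
      refine Real.log_lt_log (by linarith) ?_
      have : n < n0 := by omega
      exact_mod_cast this
    have h7 : T ≤ c * T := by nlinarith
    linarith
  refine hn (hn0 (2 * n) hn02 a b ?_)
  rw [← hL]
  have hcast : ((a + b + 2 : ℕ) : ℝ) = (s : ℝ) + 2 := by rw [← hab]; push_cast; ring
  rw [hcast]
  obtain ⟨t, ht⟩ : ∃ t : ℝ, t = L / T := ⟨_, rfl⟩
  have hLt : L = t * T := by rw [ht]; field_simp
  have ht1 : c ≤ t := by
    rw [ht, le_div_iff₀ hT0]
    exact hLT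
  have ht0 : 0 < t := by linarith
  have e1 : Real.log L = Real.log t + (l + Real.log l) := by
    rw [hLt, Real.log_mul ht0.ne' hT0.ne', hTl, Real.log_mul (by positivity) hl0.ne', ← hl]
  have e2 : Real.log t ≤ t := by
    have := Real.log_le_sub_one_of_pos ht0
    linarith
  rw [div_le_iff₀ hδ0] at h5 h3
  have hl1 : 1 ≤ l := by nlinarith
  have e3 : (s : ℝ) + 2 ≤ (1 + δ) * s := by linarith
  have e4 : (s : ℝ) + 2 ≤ 2 * δ * T := by
    rw [hTl]
    nlinarith
  have e5 : ((s : ℝ) + 2) * Real.log t ≤ 2 * δ * T * t :=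
    mul_le_mul e4 e2 (Real.log_nonneg (by linarith)) (by positivity)
  have e6 : ((s : ℝ) + 2) * (l + Real.log l) ≤ (1 + δ) * s * ((1 + δ) * l) := by
    refine mul_le_mul e3 (by linarith) ?_ (by positivity)
    have : 0 ≤ Real.log l := Real.log_nonneg (by linarith)
    linarith
  have e7 : (1 + δ) * (s : ℝ) * ((1 + δ) * l) = (1 + δ) ^ 2 * T := by
    rw [hTl]
    ring
  rw [e1, mul_add, hLt]
  have e8 : (1 + δ) ^ 2 ≤ c * (1 - ε - 2 * δ) := by
    have f1 : (1 + δ) ^ 2 ≤ 1 + 3 * δ := by nlinarith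
    have f2 : c * (1 - ε - 2 * δ) = 1 + η - 2 * δ * c := by
      rw [← hεc]
      ring
    rw [f2]
    nlinarith
  have e8' : 0 ≤ 1 - ε - 2 * δ := by
    by_contra hneg
    push Not at hneg
    have : c * (1 - ε - 2 * δ) < 0 := mul_neg_of_pos_of_neg hc0 hneg
    nlinarith [sq_nonneg (1 + δ)]
  have e9 : c * (1 - ε - 2 * δ) ≤ t * (1 - ε - 2 * δ) := mul_le_mul_of_nonneg_right ht1 e8'
  have e10 : (1 + δ) ^ 2 * T ≤ t * (1 - ε - 2 * δ) * T := mul_le_mul_of_nonneg_right (e8.trans e9) hT0.le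
  calc ((s : ℝ) + 2) * Real.log t + (s + 2) * (l + Real.log l) ≤ 2 * δ * T * t + t * (1 - ε - 2 * δ) * T := by linarith
    _ = (1 - ε) * (t * T) := by ring

end Pool.Agent.Q106.IV
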