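import Pool.Agent.Q106.IV.Up
import Pool.Agent.Q106.WG.Del

/-!
# Deleting a set of integers: the cost in information
-/

set_option autoImplicit false

namespace Pool.Agent.Q106.IV

open Finset MeasureTheory ProbabilityTheory Filter
open Pool.Agent.Q120.ET (IsRandomSet)
open Pool.Agent.Q120.ME (bern relEnt ind kl)
open Pool.Agent.Q106.WG (mem_ind)
open scoped Topology

/-- The cost of the integer `N`. -/
noncomputable def cost (p : ℕ → ℝ) (N : ℕ) : ℝ := -Real.log (1 - p N)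

theorem cost_nonneg {p : ℕ → ℝ} {N : ℕ} (h : N ∈ Un p) : 0 ≤ cost p N := by
  unfold cost
  have := Real.log_nonpos (show 0 ≤ 1 - p N by linarith [h.2]) (by linarith [h.1])
  linarith

open Classical in
/-- The model without the elements of `W`. -/
theorem delete_set {p : ℕ → ℝ} (hp : ∀ n, 0 ≤ p n ∧ p n ≤ 1) (W : Set ℕ) :
    ∃ (Ω : Type) (_ : MeasurableSpace Ω) (μ : Measure Ω) (_ : IsProbabilityMeasure μ) (A : Ω → Set ℕ), IsRandomSet A ∧
      (∀ x, relEnt p μ A (ind (Un p) x) ≤ ∑ N ∈ (ind (Un p) x).filter (fun N => N ∈ W), cost p N) ∧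
      ∀ᵐ ω ∂μ, ∀ N ∈ A ω, N ∉ W := by
  obtain ⟨r, hr⟩ : ∃ r : Unit → ℕ → ℝ, r = fun _ N => if N ∈ W then 0 else p N := ⟨_, rfl⟩
  have hrm : ∀ n, Measurable (fun x => r x n) := fun n => measurable_of_finite _
  have hr01 : ∀ x n, 0 ≤ r x n ∧ r x n ≤ 1 := by
    intro x n
    simp only [hr]
    split_ifs
    · exact ⟨le_rfl, zero_le_one⟩
    · exact hp n
  obtain ⟨Ω, _, μ, _, A, π, hM⟩ := Pool.Agent.Q285.ME.t_CON Unit (Measure.dirac ()) r hrm hr01
  refine ⟨Ω, inferInstance, μ, inferInstance, A, hM.rand, fun x => ?_, ?_⟩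
  · obtain ⟨-, h1⟩ := Pool.Agent.Q224.ME.t_ENM Unit (Measure.dirac ()) r hrm hr01 Ω μ A π hM p (ind (Un p) x)
      (fun n hn => (mem_ind.1 hn).2)
    refine h1.trans (le_of_eq ?_)
    rw [integral_dirac, sum_filter]
    refine sum_congr rfl (fun N hN => ?_)
    have hN2 := (mem_ind.1 hN).2
    simp only [hr]
    split_ifs with h
    · exact Pool.Agent.Q96.ME.kl_zero _
    · exact Pool.Agent.Q96.ME.kl_self hN2.1 hN2.2
  · rw [ae_all_iff]
    intro N
    by_cases hN : N ∈ W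
    · have h1 := Pool.Agent.Q96.ME.law_one hM N Set.univ MeasurableSet.univ
      have h2 : ∫ x in Set.univ, r x N ∂(Measure.dirac ()) = 0 := by
        rw [setIntegral_univ, integral_dirac]
        simp only [hr]
        rw [if_pos hN]
      rw [h2, measureReal_eq_zero_iff] at h1
      rw [ae_iff]
      refine measure_mono_null (fun ω hω => ?_) h1
      simp only [Set.mem_ofPred_eq, Classical.not_imp, not_not] at hω
      exact ⟨hω.1, trivial⟩
    · exact Eventually.of_forall (fun _ _ => hN)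

/-- The numbers `2 ^ a + 2 ^ b + 1`. -/
def W2 : Set ℕ := {N | ∃ a b : ℕ, b ≤ a ∧ N = 2 ^ a + 2 ^ b + 1}

open Classical in
/-- Sums over the numbers `2 ^ a + 2 ^ b + 1`. -/
theorem sum_W2 {h : ℕ → ℝ} (h0 : ∀ N, 0 ≤ h N) {x X : ℕ} (hx : x ≤ 2 ^ X) {S : Finset ℕ} (hS : ∀ N ∈ S, N < x ∧ N ∈ W2) :
    ∑ N ∈ S, h N ≤ ∑ a ∈ range X, ∑ b ∈ range (a + 1), h (2 ^ a + 2 ^ b + 1) := by
  have hch : ∀ N : ℕ, ∃ e : ℕ × ℕ, N ∈ S → e.2 ≤ e.1 ∧ N = 2 ^ e.1 + 2 ^ e.2 + 1 := by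
    intro N
    by_cases hN : N ∈ S
    · obtain ⟨_, a, b, h1, h2⟩ := hS N hN
      exact ⟨(a, b), fun _ => ⟨h1, h2⟩⟩
    · exact ⟨(0, 0), fun h => absurd h hN⟩
  choose φ hφ using hch
  have hinj : Set.InjOn φ (S : Set ℕ) := by
    intro N hN M hM e
    rw [(hφ N hN).2, (hφ M hM).2, e]
  have h1 : ∑ N ∈ S, h N = ∑ e ∈ S.image φ, h (2 ^ e.1 + 2 ^ e.2 + 1) := by
    rw [sum_image hinj]
    refine sum_congr rfl (fun N hN => ?_)
    rw [← (hφ N hN).2]
  rw [h1, sum_sigma']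
  have h2 : ∑ e ∈ S.image φ, h (2 ^ e.1 + 2 ^ e.2 + 1) =
      ∑ e ∈ (S.image φ).map ⟨fun e : ℕ × ℕ => (⟨e.1, e.2⟩ : (_ : ℕ) × ℕ), fun e f hef => by
        simp only [Sigma.mk.injEq, heq_eq_eq] at hef
        exact Prod.ext hef.1 hef.2⟩, h (2 ^ e.1 + 2 ^ e.2 + 1) := by
    rw [sum_map]
    rfl
  rw [h2]
  refine sum_le_sum_of_subset_of_nonneg ?_ (fun e _ _ => h0 _)
  intro e he
  rw [Finset.mem_map] at he
  obtain ⟨f, hf, rfl⟩ := he
  rw [mem_image] at hf
  obtain ⟨N, hN, rfl⟩ := hf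
  rw [mem_sigma, mem_range]
  simp only [Function.Embedding.coeFn_mk, mem_range]
  obtain ⟨g1, g2⟩ := hφ N hN
  refine ⟨?_, by omega⟩
  have h3 : 2 ^ (φ N).1 < 2 ^ X := by
    have h4 : 2 ^ (φ N).1 ≤ 2 ^ (φ N).1 + 2 ^ (φ N).2 := Nat.le_add_right _ _
    have := (hS N hN).1
    omega
  exact (Nat.pow_lt_pow_iff_right (by norm_num)).1 h3

open Classical in
/-- The cost of all the numbers `2 ^ a + 2 ^ b + 1`. -/
theorem cost_W2 {p : ℕ → ℝ} (hp : ∀ η : ℝ, 0 < η → ∀ᶠ N : ℕ in atTop, p N ≤ Real.log N ^ (-1 + η)) {θ : ℝ} (hθ : 1 < θ) :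
    ∀ᶠ x : ℕ in atTop, ∑ N ∈ (ind (Un p) x).filter (fun N => N ∈ W2), cost p N ≤ Real.log x ^ θ := by
  obtain ⟨η, hη⟩ : ∃ η, η = min ((θ - 1) / 2) (1 / 2) := ⟨_, rfl⟩
  have hη0 : 0 < η := by rw [hη]; exact lt_min (by linarith) (by norm_num)
  have hη1 : η ≤ (θ - 1) / 2 := by rw [hη]; exact min_le_left _ _
  have hη2 : η ≤ 1 / 2 := by rw [hη]; exact min_le_right _ _
  have hlog : Tendsto (fun N : ℕ => Real.log N) atTop atTop := Real.tendsto_log_atTop.comp tendsto_natCast_atTop_atTop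
  have t0 : Tendsto (fun N : ℕ => Real.log N ^ (-1 + η)) atTop (𝓝 0) := by
    have h1 : Tendsto (fun y : ℝ => y ^ (-(1 - η))) atTop (𝓝 0) := tendsto_rpow_neg_atTop (by linarith)
    have h2 := h1.comp hlog
    refine h2.congr (fun N => ?_)
    simp only [Function.comp]
    congr 1
    ring
  obtain ⟨a₀, ha₀⟩ := eventually_atTop.1 ((hp η hη0).and (t0.eventually_le_const (show (0 : ℝ) < 1 / 2 by norm_num)))
  obtain ⟨h, hh⟩ : ∃ h : ℕ → ℝ, h = fun N => if N ∈ Un p then cost p N else 0 := ⟨_, rfl⟩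
  have h0 : ∀ N, 0 ≤ h N := by
    intro N
    rw [hh]
    simp only
    split_ifs with hN
    · exact cost_nonneg hN
    · exact le_rfl
  have hl2 : 0 < Real.log 2 := Real.log_pos (by norm_num)
  have hl2' : 1 / 2 ≤ Real.log 2 := by have := Real.log_two_gt_d9; linarith
  -- one term
  have hterm : ∀ a b : ℕ, a₀ + 1 ≤ a → h (2 ^ a + 2 ^ b + 1) ≤ 4 * (a : ℝ) ^ (-1 + η) := by
    intro a b ha
    have hapos : (0 : ℝ) < a := by exact_mod_cast (by omega : 0 < a)
    obtain ⟨N, hN⟩ : ∃ N, N = 2 ^ a + 2 ^ b + 1 := ⟨_, rfl⟩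
    rw [← hN]
    have hNa : 2 ^ a ≤ N := by rw [hN]; exact (Nat.le_add_right _ _).trans (Nat.le_add_right _ _)
    have hN0 : a₀ ≤ N := by
      have : a < 2 ^ a := Nat.lt_two_pow_self
      omega
    obtain ⟨g1, g2⟩ := ha₀ N hN0
    rw [hh]
    simp only
    split_ifs with hU
    · unfold cost
      have e1 := Pool.Agent.Q96.ME.neg_log_le hU.1 (g1.trans g2)
      refine e1.trans ?_
      have e2 : (a : ℝ) * Real.log 2 ≤ Real.log N := by
        rw [← Real.log_pow]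
        refine Real.log_le_log (by positivity) ?_
        exact_mod_cast hNa
      have e3 : Real.log N ^ (-1 + η) ≤ ((a : ℝ) * Real.log 2) ^ (-1 + η) :=
        Real.rpow_le_rpow_of_nonpos (by positivity) e2 (by linarith)
      rw [Real.mul_rpow hapos.le hl2.le] at e3
      have e4 : (Real.log 2) ^ (-1 + η) ≤ 2 := by
        calc (Real.log 2) ^ (-1 + η) ≤ (1 / 2 : ℝ) ^ (-1 + η) := Real.rpow_le_rpow_of_nonpos (by norm_num) hl2' (by linarith)
          _ ≤ (1 / 2 : ℝ) ^ (-1 : ℝ) := Real.rpow_le_rpow_of_exponent_ge (by norm_num) (by norm_num) (by linarith)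
          _ = 2 := by rw [Real.rpow_neg_one]; norm_num
      have e5 : (a : ℝ) ^ (-1 + η) * (Real.log 2) ^ (-1 + η) ≤ (a : ℝ) ^ (-1 + η) * 2 := mul_le_mul_of_nonneg_left e4 (by positivity)
      linarith
    · positivity
  -- one row
  have hrow : ∀ a : ℕ, a₀ + 1 ≤ a → ∑ b ∈ range (a + 1), h (2 ^ a + 2 ^ b + 1) ≤ 8 * (a : ℝ) ^ η := by
    intro a ha
    have hapos : (0 : ℝ) < a := by exact_mod_cast (by omega : 0 < a)
    have ha1 : (1 : ℝ) ≤ a := by exact_mod_cast (by omega : 1 ≤ a)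
    refine (sum_le_sum (fun b _ => hterm a b ha)).trans ?_
    rw [sum_const, card_range, nsmul_eq_mul]
    push_cast
    have e1 : (a : ℝ) * (a : ℝ) ^ (-1 + η) = (a : ℝ) ^ η := by
      rw [← Real.rpow_one_add' hapos.le (by linarith)]
      congr 1
      ring
    have e2 : 0 < (a : ℝ) ^ (-1 + η) := by positivity
    nlinarith
  obtain ⟨K, hK⟩ : ∃ K : ℝ, K = ∑ a ∈ range (a₀ + 1), ∑ b ∈ range (a + 1), h (2 ^ a + 2 ^ b + 1) := ⟨_, rfl⟩
  have hK0 : 0 ≤ K := by rw [hK]; exact sum_nonneg (fun a _ => sum_nonneg (fun b _ => h0 _))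
  have htot : ∀ X : ℕ, ∑ a ∈ range X, ∑ b ∈ range (a + 1), h (2 ^ a + 2 ^ b + 1) ≤ K + 8 * ((X : ℝ) ^ (1 + η)) := by
    intro X
    have hX1 : (X : ℝ) ^ (1 + η) = X * (X : ℝ) ^ η := by
      rw [Real.rpow_one_add' (Nat.cast_nonneg X) (by linarith)]
    calc ∑ a ∈ range X, ∑ b ∈ range (a + 1), h (2 ^ a + 2 ^ b + 1) ≤
        ∑ a ∈ range X, ((if a < a₀ + 1 then ∑ b ∈ range (a + 1), h (2 ^ a + 2 ^ b + 1) else 0) + 8 * (X : ℝ) ^ η) := by
          refine sum_le_sum (fun a ha => ?_)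
          rw [mem_range] at ha
          by_cases h1 : a < a₀ + 1
          · rw [if_pos h1]
            have : 0 ≤ 8 * (X : ℝ) ^ η := by positivity
            linarith
          · rw [if_neg h1, zero_add]
            refine (hrow a (by omega)).trans ?_
            refine mul_le_mul_of_nonneg_left ?_ (by norm_num)
            exact Real.rpow_le_rpow (Nat.cast_nonneg a) (by exact_mod_cast ha.le) hη0.le
      _ ≤ K + 8 * ((X : ℝ) ^ (1 + η)) := by
          rw [sum_add_distrib, sum_const, card_range, nsmul_eq_mul, hX1]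
          refine add_le_add ?_ (le_of_eq (by ring))
          rw [← sum_filter, hK]
          refine sum_le_sum_of_subset_of_nonneg (fun a ha => ?_) (fun a _ _ => sum_nonneg (fun b _ => h0 _))
          rw [mem_filter] at ha
          exact mem_range.2 ha.2
  have hθη : 0 < θ - (1 + η) := by linarith
  have t1 : Tendsto (fun x : ℕ => Real.log x ^ (θ - (1 + η))) atTop atTop := (tendsto_rpow_atTop hθη).comp hlog
  filter_upwards [t1.eventually_ge_atTop (K + 8 * (3 : ℝ) ^ (1 + η)), hlog.eventually_ge_atTop 1, eventually_ge_atTop 2] with x h1 h2 h3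
  have hx2 : x ≤ 2 ^ (Nat.log 2 x + 1) := (Nat.lt_pow_succ_log_self (by norm_num) x).le
  have h4 : ∑ N ∈ (ind (Un p) x).filter (fun N => N ∈ W2), cost p N = ∑ N ∈ (ind (Un p) x).filter (fun N => N ∈ W2), h N := by
    refine sum_congr rfl (fun N hN => ?_)
    rw [mem_filter, mem_ind] at hN
    rw [hh]
    simp only
    rw [if_pos hN.1.2]
  rw [h4]
  refine (sum_W2 h0 hx2 (fun N hN => ?_)).trans ((htot _).trans ?_)
  · rw [mem_filter, mem_ind] at hN
    exact ⟨hN.1.1, hN.2⟩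
  · have h5 : ((Nat.log 2 x + 1 : ℕ) : ℝ) ≤ 3 * Real.log x := by
      have e1 : (Nat.log 2 x : ℝ) * Real.log 2 ≤ Real.log x := by
        rw [← Real.log_pow]
        refine Real.log_le_log (by positivity) ?_
        exact_mod_cast Nat.pow_log_le_self 2 (by omega)
      push_cast
      have e2 : (Nat.log 2 x : ℝ) * (1 / 2) ≤ Nat.log 2 x * Real.log 2 := mul_le_mul_of_nonneg_left hl2' (Nat.cast_nonneg _)
      linarith
    have h6 : ((Nat.log 2 x + 1 : ℕ) : ℝ) ^ (1 + η) ≤ (3 : ℝ) ^ (1 + η) * Real.log x ^ (1 + η) := by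
      rw [← Real.mul_rpow (by norm_num) (by linarith)]
      exact Real.rpow_le_rpow (Nat.cast_nonneg _) h5 (by linarith)
    have h7 : (1 : ℝ) ≤ Real.log x ^ (1 + η) := Real.one_le_rpow h2 (by linarith)
    have h8 : Real.log x ^ θ = Real.log x ^ (1 + η) * Real.log x ^ (θ - (1 + η)) := by
      rw [← Real.rpow_add (by linarith)]
      congr 1
      ring
    rw [h8]
    have h9 : (0 : ℝ) < (3 : ℝ) ^ (1 + η) := by positivity
    nlinarith

end Pool.Agent.Q106.IV
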