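import Pool.Agent.Q106.IV.ItV
import Pool.Agent.Q106.IV.Low

/-!
# The empty set
-/

set_option autoImplicit false

namespace Pool.Agent.Q106.IV

open Finset MeasureTheory ProbabilityTheory Filter
open Pool.Agent.Q120.ET (IsRandomSet)
open Pool.Agent.Q120.ME (bern relEnt ind kl)
open Pool.Agent.Q106.WG (mem_ind)
open scoped Topology

open Classical in
/-- The cost of deleting everything. -/
theorem cost_univ {p : ℕ → ℝ} (hp : ∀ᶠ n : ℕ in atTop, p n ≤ 1 / 2) :
    ∀ᶠ x : ℕ in atTop, ∑ N ∈ (ind (Un p) x).filter (fun N => N ∈ (Set.univ : Set ℕ)), cost p N ≤ (x : ℝ) := by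
  obtain ⟨a₀, ha₀⟩ := eventually_atTop.1 hp
  obtain ⟨h, hh⟩ : ∃ h : ℕ → ℝ, h = fun N => if N ∈ Un p then cost p N else 0 := ⟨_, rfl⟩
  have h0 : ∀ N, 0 ≤ h N := by
    intro N
    rw [hh]
    simp only
    split_ifs with hN
    · exact cost_nonneg hN
    · exact le_rfl
  obtain ⟨K, hK⟩ : ∃ K : ℝ, K = ∑ N ∈ range a₀, h N := ⟨_, rfl⟩
  have hl : Real.log 2 < 3 / 4 := by have := Real.log_two_lt_d9; linarith
  have hl0 : 0 < Real.log 2 := Real.log_pos (by norm_num)
  have hterm : ∀ N : ℕ, a₀ ≤ N → h N ≤ Real.log 2 := by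
    intro N hN
    rw [hh]
    simp only
    split_ifs with hU
    · unfold cost
      have h1 := ha₀ N hN
      have h2 : Real.log (1 / 2) ≤ Real.log (1 - p N) := Real.log_le_log (by norm_num) (by linarith)
      rw [one_div, Real.log_inv] at h2
      linarith
    · exact hl0.le
  have t1 : Tendsto (fun x : ℕ => (x : ℝ)) atTop atTop := tendsto_natCast_atTop_atTop
  filter_upwards [t1.eventually_ge_atTop (4 * K)] with x hx
  have hx0 : (0 : ℝ) ≤ x := Nat.cast_nonneg x
  have h4 : ∑ N ∈ (ind (Un p) x).filter (fun N => N ∈ (Set.univ : Set ℕ)), cost p N ≤ ∑ N ∈ range x, h N := by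
    calc ∑ N ∈ (ind (Un p) x).filter (fun N => N ∈ (Set.univ : Set ℕ)), cost p N =
        ∑ N ∈ (ind (Un p) x).filter (fun N => N ∈ (Set.univ : Set ℕ)), h N := by
          refine sum_congr rfl (fun N hN => ?_)
          rw [mem_filter, mem_ind] at hN
          rw [hh]
          simp only
          rw [if_pos hN.1.2]
      _ ≤ _ := by
          refine sum_le_sum_of_subset_of_nonneg (fun N hN => ?_) (fun N _ _ => h0 N)
          rw [mem_filter, mem_ind] at hN
          exact mem_range.2 hN.1.1
  refine h4.trans ?_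
  calc ∑ N ∈ range x, h N ≤ ∑ N ∈ range x, ((if N < a₀ then h N else 0) + Real.log 2) := by
        refine sum_le_sum (fun N _ => ?_)
        by_cases h1 : N < a₀
        · rw [if_pos h1]
          linarith
        · rw [if_neg h1, zero_add]
          exact hterm N (by omega)
    _ ≤ K + x * Real.log 2 := by
        rw [sum_add_distrib, sum_const, card_range, nsmul_eq_mul]
        refine add_le_add ?_ le_rfl
        rw [← sum_filter, hK]
        refine sum_le_sum_of_subset_of_nonneg (fun a ha => ?_) (fun a _ _ => h0 a)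
        rw [mem_filter] at ha
        exact mem_range.2 ha.2
    _ ≤ x := by nlinarith

theorem cram_le : ∀ᶠ n : ℕ in atTop, cram n ≤ 1 / 2 := by
  filter_upwards [Pool.Agent.Q197.IT.log_nat_top.eventually_ge_atTop 2, eventually_ge_atTop 3] with n h1 h2
  unfold cram
  rw [if_pos h2]
  exact one_div_le_one_div_of_le (by norm_num) h1

theorem cram_mem (n : ℕ) : 0 ≤ cram n ∧ cram n ≤ 1 := by
  unfold cram
  split_ifs with h
  · have := log_gt_one h
    refine ⟨by positivity, ?_⟩
    rw [div_le_one (by linarith)]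
    exact this.le
  · exact ⟨le_rfl, zero_le_one⟩

end Pool.Agent.Q106.IV
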