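import Pool.Agent.Q106.IV.Two
import Pool.Agent.Q106.IV.Inst
import Pool.Agent.Q197.SP.Rf6c

/-!
# The numbers `2^x + 2^y + 2^z + 1` in random sets of small information
-/

set_option autoImplicit false

namespace Pool.Agent.Q106.IV

open Finset MeasureTheory ProbabilityTheory Filter
open Pool.Agent.Q120.ET (IsRandomSet)
open Pool.Agent.Q120.ME (bern relEnt ind kl)
open Pool.Agent.Q197.SP.Rf6c (Value)
open scoped Topology

/-- Probabilities `(log N) ^ (-1 + o(1))` on the `N` whose prime factors exceed `z + C log log N`, and at most so large on the others. -/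
structure DensL (z C : ℝ) (p : ℕ → ℝ) : Prop where
  range : ∀ N, 0 ≤ p N ∧ p N ≤ 1
  upper : ∀ η : ℝ, 0 < η → ∀ᶠ N : ℕ in atTop, p N ≤ Real.log N ^ (-1 + η)
  lower : ∀ η : ℝ, 0 < η → ∀ᶠ N : ℕ in atTop, (∀ q : ℕ, q.Prime → q ∣ N → z + C * Real.log (Real.log N) < q) →
    Real.log N ^ (-1 - η) ≤ p N

/-- The numbers `n` which are suitable for the level `z`. All odd `n` are suitable for the level `11`. -/
def Suit (n : ℕ) (z : ℝ) : Prop :=
  Odd n ∧ (z < 13 ∨ 3 ∣ n ∨ n % 32 = 13) ∧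
    ∀ l : ℕ, l.Prime → 5 ≤ l → (l : ℤ) ∣ (3 * n - 2) * (9 * n - 2) → z < (l : ℝ) ^ 2

theorem Value.lt {n N : ℕ} (h : Value n N) : N < 2 ^ (2 * Nat.sqrt n + 4) := by
  obtain ⟨x, y, z, w, h1, h2⟩ := h
  have hx : x ≤ Nat.sqrt n := by rw [Nat.le_sqrt]; nlinarith
  have hy : y ≤ Nat.sqrt n := by rw [Nat.le_sqrt]; nlinarith
  have hz : z ≤ Nat.sqrt n := by rw [Nat.le_sqrt]; nlinarith
  have e1 : 2 ^ x ≤ 2 ^ (2 * Nat.sqrt n) := Nat.pow_le_pow_right (by norm_num) (by omega)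
  have e2 : 2 ^ y ≤ 2 ^ (2 * Nat.sqrt n) := Nat.pow_le_pow_right (by norm_num) (by omega)
  have e5 : 2 ^ z ≤ 2 ^ (2 * Nat.sqrt n) := Nat.pow_le_pow_right (by norm_num) (by omega)
  have e3 : 2 ^ (2 * Nat.sqrt n + 4) = 16 * 2 ^ (2 * Nat.sqrt n) := by ring
  have e4 : 0 < 2 ^ (2 * Nat.sqrt n) := by positivity
  omega

/-- The hypothesis of the general theorem from value sets whose elements have the property `P`. -/
theorem hyp_gen {V : ℕ → ℕ → Prop} {G : ℕ → Prop} {p : ℕ → ℝ} {P : ℕ → Prop}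
    (upper : ∀ η : ℝ, 0 < η → ∀ᶠ N : ℕ in atTop, p N ≤ Real.log N ^ (-1 + η))
    (lower : ∀ η : ℝ, 0 < η → ∀ᶠ N : ℕ in atTop, P N → Real.log N ^ (-1 - η) ≤ p N)
    (hV : ∀ n N, V n N → N < 2 ^ (2 * Nat.sqrt n + 4))
    (hT : ∀ ε : ℝ, 0 < ε → ∀ᶠ n : ℕ in atTop, G n → ∃ T : Finset ℕ, (n : ℝ) ^ (1 - ε) ≤ (T.card : ℝ) ∧
      ∀ N ∈ T, V n N ∧ (1 < Real.log N → Real.log N ≤ 3 * (n : ℝ) ^ (1 / 2 : ℝ) → P N)) :
    ∀ ε : ℝ, 0 < ε → ∀ᶠ n : ℕ in atTop, G n →
    ∃ T : Finset ℕ, (n : ℝ) ^ (1 - ε) ≤ (T.card : ℝ) ∧ ∀ N ∈ T, V n N ∧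
      N < 2 ^ (2 * Nat.sqrt n + 4) ∧ (n : ℝ) ^ (-(1 / 2) - ε) ≤ p N ∧ p N < 1 := by
  classical
  intro ε hε
  have hval := hT (min ε 1 / 2) (by positivity)
  have hlog : Tendsto (fun N : ℕ => Real.log N) atTop atTop := Real.tendsto_log_atTop.comp tendsto_natCast_atTop_atTop
  obtain ⟨N₀, hN₀⟩ := eventually_atTop.1 (((upper (1 / 2) (by norm_num)).and (lower ε hε)).and (hlog.eventually_gt_atTop 1))
  have t1 : Tendsto (fun n : ℕ => (n : ℝ) ^ (min ε 1 / 2)) atTop atTop :=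
    (tendsto_rpow_atTop (by positivity)).comp tendsto_natCast_atTop_atTop
  have t2 : Tendsto (fun n : ℕ => (n : ℝ) ^ (ε / 2)) atTop atTop :=
    (tendsto_rpow_atTop (by positivity)).comp tendsto_natCast_atTop_atTop
  filter_upwards [hval, t1.eventually_ge_atTop (N₀ + 1), t2.eventually_ge_atTop ((3 : ℝ) ^ (1 + ε)),
    eventually_ge_atTop 16] with n hval h2 h3 h7 hG
  have hn0 : (0 : ℝ) < n := by exact_mod_cast (by omega : 0 < n)
  have hn1 : (1 : ℝ) ≤ n := by exact_mod_cast (by omega : 1 ≤ n)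
  obtain ⟨T, hT1, hT2⟩ := hval hG
  refine ⟨T.filter (fun N => N₀ ≤ N), ?_, ?_⟩
  · have e1 : T.card ≤ (T.filter (fun N => N₀ ≤ N)).card + N₀ := by
      have e2 := Finset.card_filter_add_card_filter_not (s := T) (fun N => N₀ ≤ N)
      have e3 : (T.filter (fun N => ¬ N₀ ≤ N)).card ≤ N₀ := by
        refine (card_le_card (t := range N₀) (fun N hN => ?_)).trans (by rw [card_range])
        rw [mem_filter] at hN
        rw [mem_range]
        omega
      omega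
    have e2 : (T.card : ℝ) ≤ (T.filter (fun N => N₀ ≤ N)).card + N₀ := by exact_mod_cast e1
    have e3 : (n : ℝ) ^ (1 - ε) + N₀ ≤ (n : ℝ) ^ (1 - min ε 1 / 2) := by
      obtain ⟨δ, hδ⟩ : ∃ δ, δ = min ε 1 / 2 := ⟨_, rfl⟩
      have hδ0 : 0 < δ := by rw [hδ]; positivity
      have hδ1 : δ ≤ 1 / 2 := by rw [hδ]; have := min_le_right ε 1; linarith
      have hδ2 : 2 * δ ≤ ε := by rw [hδ]; have := min_le_left ε 1; linarith
      rw [← hδ] at h2 ⊢
      have g1 : (n : ℝ) ^ (1 - δ) = (n : ℝ) ^ (1 - 2 * δ) * (n : ℝ) ^ δ := by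
        rw [← Real.rpow_add hn0]
        congr 1
        ring
      have g2 : (n : ℝ) ^ (1 - ε) ≤ (n : ℝ) ^ (1 - 2 * δ) := Real.rpow_le_rpow_of_exponent_le hn1 (by linarith)
      have g3 : 1 ≤ (n : ℝ) ^ (1 - 2 * δ) := Real.one_le_rpow hn1 (by linarith)
      rw [g1]
      have g4 : (0 : ℝ) ≤ N₀ := Nat.cast_nonneg _
      nlinarith
    linarith
  · intro N hN
    rw [mem_filter] at hN
    obtain ⟨hv, hq⟩ := hT2 N hN.1
    obtain ⟨⟨g1, g2⟩, g3⟩ := hN₀ N hN.2
    have hlt := hV n N hv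
    have hN1 : 1 ≤ N := by
      rcases Nat.eq_zero_or_pos N with h | h
      · rw [h] at g3
        norm_num at g3
      · exact h
    have hsz := log_size h7 hN1 hlt
    refine ⟨hv, hlt, ?_, ?_⟩
    · exact (low_p hε h7 (by linarith) hsz h3).trans (g2 (hq g3 hsz))
    · refine lt_of_le_of_lt g1 ?_
      exact Real.rpow_lt_one_of_one_lt_of_neg g3 (by norm_num)

/-- The orders of `2` modulo primes. -/
theorem order_dvd {q : ℕ} (hq : q.Prime) (h2 : q ≠ 2) : orderOf (2 : ZMod q) ∣ q - 1 := by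
  haveI : Fact q.Prime := ⟨hq⟩
  refine ZMod.orderOf_dvd_card_sub_one ?_
  intro h
  have h1 : ((2 : ℕ) : ZMod q) = 0 := by exact_mod_cast h
  rw [ZMod.natCast_eq_zero_iff] at h1
  exact h2 ((Nat.prime_dvd_prime_iff_eq hq Nat.prime_two).1 h1)

theorem hyp_three {z C : ℝ} (hC : 0 ≤ C) {p : ℕ → ℝ} (hp : DensL z C p) : ∀ ε : ℝ, 0 < ε → ∀ᶠ n : ℕ in atTop,
    Suit n (z + C * Real.log n) →
    ∃ T : Finset ℕ, (n : ℝ) ^ (1 - ε) ≤ (T.card : ℝ) ∧ ∀ N ∈ T, Value n N ∧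
      N < 2 ^ (2 * Nat.sqrt n + 4) ∧ (n : ℝ) ^ (-(1 / 2) - ε) ≤ p N ∧ p N < 1 := by
  refine hyp_gen hp.upper hp.lower (fun n N h => Value.lt h) (fun ε hε => ?_)
  obtain ⟨c, hc, n₀, hval⟩ := (Pool.Agent.Q197.SP.Rf6c.all_parts ε hε).1
  have hlog : Tendsto (fun N : ℕ => Real.log N) atTop atTop := Real.tendsto_log_atTop.comp tendsto_natCast_atTop_atTop
  have tll : Tendsto (fun n : ℕ => Real.log (Real.log n)) atTop atTop := Real.tendsto_log_atTop.comp hlog
  have t3 : ∀ᶠ n : ℕ in atTop, (|z| + C) / c * Real.log (Real.log (Real.log n)) ≤ Real.log (Real.log n) := by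
    have g1 := (Real.isLittleO_log_id_atTop).def (c := ((|z| + C) / c + 1)⁻¹) (by positivity)
    filter_upwards [tll.eventually g1, tll.eventually_ge_atTop 1] with n h1 h2
    simp only [id] at h1
    rw [Real.norm_of_nonneg (Real.log_nonneg h2), Real.norm_of_nonneg (by linarith), inv_mul_eq_div, le_div_iff₀ (by positivity)] at h1
    have h3 := Real.log_nonneg h2
    nlinarith
  have t4 : ∀ᶠ n : ℕ in atTop, Real.log (3 * (n : ℝ) ^ (1 / 2 : ℝ)) ≤ Real.log n := by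
    filter_upwards [eventually_ge_atTop 9] with n hn
    have hn0 : (0 : ℝ) < n := by exact_mod_cast (by omega : 0 < n)
    refine Real.log_le_log (by positivity) ?_
    have h1 : (3 : ℝ) ≤ (n : ℝ) ^ (1 / 2 : ℝ) := by
      rw [← Real.sqrt_eq_rpow, Real.le_sqrt (by norm_num) hn0.le]
      norm_num
      exact hn
    calc 3 * (n : ℝ) ^ (1 / 2 : ℝ) ≤ (n : ℝ) ^ (1 / 2 : ℝ) * (n : ℝ) ^ (1 / 2 : ℝ) := mul_le_mul_of_nonneg_right h1 (by positivity)
      _ = n := by rw [← Real.rpow_add hn0]; norm_num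
  have tlll : ∀ᶠ n : ℕ in atTop, (0 : ℝ) < Real.log (Real.log (Real.log n)) := by
    filter_upwards [tll.eventually_gt_atTop 1] with n hn
    exact Real.log_pos hn
  filter_upwards [eventually_ge_atTop n₀, t3, t4, tlll, hlog.eventually_gt_atTop 1] with n h1 h4 h5 h6 h8 hS
  obtain ⟨hodd, hS1, hS2⟩ := hS
  obtain ⟨T, hT1, hT2⟩ := hval n h1 hodd
  refine ⟨T, hT1, fun N hN => ⟨(hT2 N hN).1, fun g3 hsz => ?_⟩⟩
  intro q hqp hqd
  by_contra hcon
  push Not at hcon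
  have e1 : Real.log (Real.log N) ≤ Real.log n := (Real.log_le_log (by linarith) hsz).trans h5
  have e0 : q ≤ z + C * Real.log n := hcon.trans (by have := mul_le_mul_of_nonneg_left e1 hC; linarith)
  have e2 : (q : ℝ) ≤ c * (Real.log n * Real.log (Real.log n) / Real.log (Real.log (Real.log n))) := by
    refine e0.trans ?_
    have e3 : (|z| + C) / c ≤ Real.log (Real.log n) / Real.log (Real.log (Real.log n)) := by
      rw [le_div_iff₀ h6]
      exact h4
    calc z + C * Real.log n ≤ (|z| + C) * Real.log n := by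
          have := le_abs_self z
          have := abs_nonneg z
          nlinarith
      _ = c * (Real.log n * ((|z| + C) / c)) := by field_simp
      _ ≤ c * (Real.log n * (Real.log (Real.log n) / Real.log (Real.log (Real.log n)))) :=
          mul_le_mul_of_nonneg_left (mul_le_mul_of_nonneg_left e3 (by linarith)) hc.le
      _ = _ := by ring
  obtain ⟨k1, k2⟩ := (hT2 N hN).2 q hqp hqd e2
  have hq2 := hqp.two_le
  rcases k2 with ⟨l, hl1, hl2, hl3, hl4⟩ | ⟨k3, k4, k5, k6⟩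
  · have k7 := hS2 l hl1 hl2 hl4
    have k8 : l ^ 2 ≤ q - 1 := Nat.le_of_dvd (by omega) (hl3.trans (order_dvd hqp k1))
    have k9 : ((l ^ 2 : ℕ) : ℝ) ≤ q := by exact_mod_cast (by omega : l ^ 2 ≤ q)
    push_cast at k9
    linarith
  · have k7 : z + C * Real.log n < 13 := by
      rcases hS1 with h | h | h
      · exact h
      · exact absurd h k3
      · exact absurd h k4
    have k8 : q < 13 := by
      have : (q : ℝ) < 13 := by linarith
      exact_mod_cast this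
    have k9 : 3 ∣ q - 1 := k6.trans (order_dvd hqp k1)
    interval_cases q <;> first | omega | (revert hqp; norm_num)

end Pool.Agent.Q106.IV
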