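import Pool.Agent.Q106.IV.Low
import Pool.Agent.Q106.IV.Three
import Pool.Agent.Helper353.SF.P_form_card
import Pool.Agent.H353R2.Z2

/-!
# Few values for the squares of the odd double factorials
-/

set_option autoImplicit false

namespace Pool.Agent.Q106.IV

open Finset MeasureTheory ProbabilityTheory Filter
open Pool.Agent.Q120.ET (IsRandomSet)
open Pool.Agent.Q120.ME (bern relEnt ind kl)
open Pool.Agent.Q106.WG (mem_ind)
open Pool.Agent.Q197.SP.Rf6c (Value)
open scoped Topology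

/-- The product of the odd numbers up to `2 i + 1`. -/
def RR (i : ℕ) : ℕ := ∏ j ∈ range i, (2 * j + 3)

theorem RR_odd (i : ℕ) : Odd (RR i) := by
  induction i with
  | zero => simp [RR]
  | succ i ih =>
    unfold RR at ih ⊢
    rw [prod_range_succ]
    exact ih.mul ⟨i + 1, by ring⟩

theorem RR_pos (i : ℕ) : 0 < RR i := (RR_odd i).pos

theorem two_pow_le_RR (i : ℕ) : 2 ^ i ≤ RR i := by
  unfold RR
  rw [← card_range i, ← prod_const, card_range]
  exact prod_le_prod' (fun j _ => by omega)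

theorem RR_le (i : ℕ) : RR i ≤ (2 * i + 1) ^ i := by
  unfold RR
  calc ∏ j ∈ range i, (2 * j + 3) ≤ ∏ _j ∈ range i, (2 * i + 1) := prod_le_prod' (fun j hj => by rw [mem_range] at hj; omega)
    _ = _ := by rw [prod_const, card_range]

theorem dvd_RR {i l : ℕ} (hl : Odd l) (h3 : 3 ≤ l) (h : l ≤ 2 * i + 1) : l ∣ RR i := by
  obtain ⟨k, rfl⟩ := hl
  have h1 : k - 1 ∈ range i := by rw [mem_range]; omega
  have h2 := dvd_prod_of_mem (fun j => 2 * j + 3) h1
  unfold RR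
  have h4 : 2 * (k - 1) + 3 = 2 * k + 1 := by omega
  simp only [h4] at h2
  exact h2

/-- The large exponents. -/
theorem max_large {R a b c w : ℕ} (hR : Odd R) (h : R ^ 2 = a ^ 2 + b ^ 2 + c ^ 2 + 4 * w ^ 2) (hb : b ≤ a) (hc : c ≤ a) :
    R ≤ 3 * a ^ 2 := by
  obtain ⟨k, rfl⟩ := hR
  have h1 : w ≤ k := by
    by_contra hcon
    push Not at hcon
    nlinarith
  have h2 : b ^ 2 ≤ a ^ 2 := Nat.pow_le_pow_left hb 2
  have h3 : c ^ 2 ≤ a ^ 2 := Nat.pow_le_pow_left hc 2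
  have h4 : w ^ 2 ≤ k ^ 2 := Nat.pow_le_pow_left h1 2
  nlinarith

open Classical in
/-- The possible `c`. -/
noncomputable def ZZ (R a b : ℕ) : Finset ℕ := (range (a + 1)).filter (fun c => ∃ w : ℕ, R ^ 2 = a ^ 2 + b ^ 2 + c ^ 2 + 4 * w ^ 2)

theorem card_ZZ_le (R a b : ℕ) (hm : a ^ 2 + b ^ 2 < R ^ 2) :
    (ZZ R a b).card ≤ 2 + 5 * ((R ^ 2 - a ^ 2 - b ^ 2).divisors.card) ^ 2 := by
  classical
  obtain ⟨m, hm'⟩ : ∃ m, m = R ^ 2 - a ^ 2 - b ^ 2 := ⟨_, rfl⟩
  have hm0 : 0 < m := by omega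
  rw [← hm']
  have hf := SF.form_card 1 1 m squarefree_one squarefree_one hm0
  rw [one_mul] at hf
  have hsub : ZZ R a b ⊆ ({0, Nat.sqrt m} : Finset ℕ) ∪ ((((Finset.range (m + 1)) ×ˢ (Finset.range (m + 1))).filter
      (fun p : ℕ × ℕ => 0 < p.1 ∧ 0 < p.2 ∧ 1 ^ 3 * p.1 ^ 2 + 1 ^ 3 * p.2 ^ 2 = m))).image Prod.fst := by
    intro c hc
    unfold ZZ at hc
    rw [mem_filter] at hc
    obtain ⟨_, w, hw⟩ := hc
    have h1 : m = c ^ 2 + (2 * w) ^ 2 := by rw [hm']; have : (2 * w) ^ 2 = 4 * w ^ 2 := by ring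
                                            omega
    rw [mem_union]
    rcases Nat.eq_zero_or_pos c with hc0 | hc0
    · left; simp [hc0]
    · rcases Nat.eq_zero_or_pos w with hw0 | hw0
      · left
        have h2 : m = c ^ 2 := by rw [h1, hw0]; ring
        have h3 : Nat.sqrt m = c := by rw [h2]; exact Nat.sqrt_eq' c
        simp [h3]
      · right
        rw [mem_image]
        refine ⟨(c, 2 * w), ?_, rfl⟩
        rw [mem_filter, mem_product, mem_range, mem_range]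
        refine ⟨⟨?_, ?_⟩, hc0, ?_, ?_⟩
        · simp only; nlinarith
        · simp only; nlinarith
        · simp only; omega
        · simp only; rw [h1]; ring
  refine (card_le_card hsub).trans ((card_union_le _ _).trans (add_le_add ?_ (card_image_le.trans hf)))
  exact card_le_two

theorem card_ZZ {η : ℝ} (hη : 0 < η) : ∃ K : ℝ, 0 < K ∧ ∀ i a b : ℕ, b ≤ a → ((ZZ (RR i) a b).card : ℝ) ≤ K * ((a : ℝ) + 1) ^ η := by
  classical
  obtain ⟨C, hC, hd⟩ := H353.divisor_bound_real (η / 8) (by positivity)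
  refine ⟨2 + 5 * C ^ 2 * (9 : ℝ) ^ (η / 4), by positivity, fun i a b hb => ?_⟩
  have ha1 : (1 : ℝ) ≤ (a : ℝ) + 1 := by have : (0 : ℝ) ≤ a := Nat.cast_nonneg a
                                         linarith
  have hpow : (1 : ℝ) ≤ ((a : ℝ) + 1) ^ η := Real.one_le_rpow ha1 hη.le
  have hK : 0 < 5 * C ^ 2 * (9 : ℝ) ^ (η / 4) := by positivity
  rcases Finset.eq_empty_or_nonempty (ZZ (RR i) a b) with hE | ⟨c, hc⟩
  · rw [hE, card_empty, Nat.cast_zero]
    positivity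
  have hc' := hc
  unfold ZZ at hc'
  rw [mem_filter, mem_range] at hc'
  obtain ⟨hc1, w, hw⟩ := hc'
  have hRa := max_large (RR_odd i) hw hb (by omega)
  rcases Nat.eq_zero_or_pos (c ^ 2 + 4 * w ^ 2) with h0 | h0
  · -- then `c = 0` is the only possibility
    have h1 : (ZZ (RR i) a b).card ≤ 1 := by
      refine card_le_one.2 (fun u hu v hv => ?_)
      unfold ZZ at hu hv
      rw [mem_filter] at hu hv
      obtain ⟨_, w1, hu1⟩ := hu
      obtain ⟨_, w2, hv1⟩ := hv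
      have e1 : u ^ 2 = 0 := by omega
      have e2 : v ^ 2 = 0 := by omega
      rw [pow_eq_zero_iff (by norm_num)] at e1 e2
      rw [e1, e2]
    have h2 : ((ZZ (RR i) a b).card : ℝ) ≤ 1 := by exact_mod_cast h1
    nlinarith
  · have hlt : a ^ 2 + b ^ 2 < RR i ^ 2 := by omega
    have h1 := card_ZZ_le (RR i) a b hlt
    obtain ⟨m, hm⟩ : ∃ m, m = RR i ^ 2 - a ^ 2 - b ^ 2 := ⟨_, rfl⟩
    rw [← hm] at h1
    have hm0 : m ≠ 0 := by omega
    have h2 := hd m hm0
    have h3 : (m : ℝ) ≤ 9 * ((a : ℝ) + 1) ^ 4 := by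
      have e1 : m ≤ RR i ^ 2 := by omega
      have e2 : RR i ^ 2 ≤ (3 * a ^ 2) ^ 2 := Nat.pow_le_pow_left hRa 2
      have e3 : (m : ℝ) ≤ (3 * (a : ℝ) ^ 2) ^ 2 := by exact_mod_cast e1.trans e2
      refine e3.trans ?_
      have e4 : (a : ℝ) ^ 4 ≤ ((a : ℝ) + 1) ^ 4 := pow_le_pow_left₀ (Nat.cast_nonneg a) (by linarith) 4
      nlinarith
    have h4 : (m : ℝ) ^ (η / 8) ≤ (9 : ℝ) ^ (η / 8) * ((a : ℝ) + 1) ^ (η / 2) := by
      calc (m : ℝ) ^ (η / 8) ≤ (9 * ((a : ℝ) + 1) ^ 4) ^ (η / 8) := Real.rpow_le_rpow (Nat.cast_nonneg m) h3 (by positivity)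
        _ = (9 : ℝ) ^ (η / 8) * (((a : ℝ) + 1) ^ 4) ^ (η / 8) := Real.mul_rpow (by norm_num) (by positivity)
        _ = (9 : ℝ) ^ (η / 8) * ((a : ℝ) + 1) ^ (η / 2) := by
            congr 1
            rw [← Real.rpow_natCast, ← Real.rpow_mul (by linarith)]
            congr 1
            push_cast
            ring
    have h5 : (m.divisors.card : ℝ) ^ 2 ≤ C ^ 2 * (9 : ℝ) ^ (η / 4) * ((a : ℝ) + 1) ^ η := by
      have e1 : (m.divisors.card : ℝ) ≤ C * ((9 : ℝ) ^ (η / 8) * ((a : ℝ) + 1) ^ (η / 2)) :=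
        h2.trans (mul_le_mul_of_nonneg_left h4 hC.le)
      have e2 := pow_le_pow_left₀ (Nat.cast_nonneg _) e1 2
      refine e2.trans (le_of_eq ?_)
      rw [mul_pow, mul_pow]
      have e3 : ((9 : ℝ) ^ (η / 8)) ^ 2 = (9 : ℝ) ^ (η / 4) := by
        rw [← Real.rpow_natCast, ← Real.rpow_mul (by norm_num)]
        congr 1
        push_cast
        ring
      have e4 : (((a : ℝ) + 1) ^ (η / 2)) ^ 2 = ((a : ℝ) + 1) ^ η := by
        rw [← Real.rpow_natCast, ← Real.rpow_mul (by linarith)]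
        congr 1
        push_cast
        ring
      rw [e3, e4]
      ring
    have h6 : ((ZZ (RR i) a b).card : ℝ) ≤ 2 + 5 * (m.divisors.card : ℝ) ^ 2 := by exact_mod_cast h1
    nlinarith

/-- The values for the squares of the numbers `RR i`. -/
def W3 : Set ℕ := {N | ∃ i : ℕ, Value (RR i ^ 2) N}

/-- The largest exponent. -/
theorem W3_form {N : ℕ} (h : N ∈ W3) : ∃ i a b c : ℕ, b ≤ a ∧ c ∈ ZZ (RR i) a b ∧ N = 2 ^ a + 2 ^ b + 2 ^ c + 1 := by
  obtain ⟨i, x, y, z, w, h1, h2⟩ := h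
  have key : ∀ a b c : ℕ, b ≤ a → c ≤ a → RR i ^ 2 = a ^ 2 + b ^ 2 + c ^ 2 + 4 * w ^ 2 → N = 2 ^ a + 2 ^ b + 2 ^ c + 1 →
      ∃ i a b c : ℕ, b ≤ a ∧ c ∈ ZZ (RR i) a b ∧ N = 2 ^ a + 2 ^ b + 2 ^ c + 1 := by
    intro a b c hb hc g1 g2
    refine ⟨i, a, b, c, hb, ?_, g2⟩
    simp only [ZZ, mem_filter, mem_range]
    exact ⟨by omega, w, g1⟩
  rcases le_total y x with hxy | hxy
  · rcases le_total z x with hxz | hxz
    · exact key x y z hxy hxz h1 h2
    · exact key z y x (hxy.trans hxz) hxz (by rw [h1]; ring) (by rw [h2]; ring)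
  · rcases le_total z y with hyz | hyz
    · exact key y x z hxy hyz (by rw [h1]; ring) (by rw [h2]; ring)
    · exact key z y x hyz (hxy.trans hyz) (by rw [h1]; ring) (by rw [h2]; ring)

theorem sum_biUnion_le' {ι : Type*} (s : Finset ι) (t : ι → Finset ℕ) {h : ℕ → ℝ} (h0 : ∀ N, 0 ≤ h N) :
    ∑ N ∈ s.biUnion t, h N ≤ ∑ i ∈ s, ∑ N ∈ t i, h N := by
  classical
  induction s using Finset.induction_on with
  | empty => simp
  | insert a s ha ih =>
    rw [biUnion_insert, sum_insert ha]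
    have h1 := sum_union_inter (s₁ := t a) (s₂ := s.biUnion t) (f := h)
    have h2 : 0 ≤ ∑ x ∈ t a ∩ s.biUnion t, h x := sum_nonneg (fun x _ => h0 x)
    linarith

theorem sum_image_le' (s : Finset ℕ) (f : ℕ → ℕ) {h : ℕ → ℝ} (h0 : ∀ N, 0 ≤ h N) :
    ∑ N ∈ s.image f, h N ≤ ∑ c ∈ s, h (f c) := by
  have h1 := sum_biUnion_le' s (fun c => {f c}) h0
  rw [Finset.biUnion_singleton] at h1
  simpa using h1

open Classical in
/-- Sums over the values. -/
theorem sum_W3 {h : ℕ → ℝ} (h0 : ∀ N, 0 ≤ h N) {x X : ℕ} (hx : x ≤ 2 ^ X) {S : Finset ℕ} (hS : ∀ N ∈ S, N < x ∧ N ∈ W3) :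
    ∑ N ∈ S, h N ≤ ∑ i ∈ range (Nat.log 2 (3 * X ^ 2) + 1), ∑ a ∈ range X, ∑ b ∈ range (a + 1), ∑ c ∈ ZZ (RR i) a b,
      h (2 ^ a + 2 ^ b + 2 ^ c + 1) := by
  have h1 : S ⊆ (range (Nat.log 2 (3 * X ^ 2) + 1)).biUnion (fun i => (range X).biUnion (fun a => (range (a + 1)).biUnion
      (fun b => (ZZ (RR i) a b).image (fun c => 2 ^ a + 2 ^ b + 2 ^ c + 1)))) := by
    intro N hN
    obtain ⟨hN1, hN2⟩ := hS N hN
    obtain ⟨i, a, b, c, g1, g2, g3⟩ := W3_form hN2
    have g4 : a < X := by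
      have h3 : 2 ^ a < 2 ^ X := by
        have h4 : 2 ^ a ≤ N := by
          rw [g3, add_assoc, add_assoc]
          exact Nat.le_add_right _ _
        omega
      exact (Nat.pow_lt_pow_iff_right (by norm_num)).1 h3
    have g5 : i < Nat.log 2 (3 * X ^ 2) + 1 := by
      have g2' := g2
      unfold ZZ at g2'
      rw [mem_filter, mem_range] at g2'
      obtain ⟨k1, w, k2⟩ := g2'
      have k3 := max_large (RR_odd i) k2 g1 (by omega)
      have k4 : 2 ^ i ≤ 3 * X ^ 2 := by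
        refine (two_pow_le_RR i).trans (k3.trans ?_)
        exact Nat.mul_le_mul_left 3 (Nat.pow_le_pow_left g4.le 2)
      exact Nat.lt_succ_of_le (Nat.le_log_of_pow_le (by norm_num) k4)
    simp only [mem_biUnion, mem_image, mem_range]
    exact ⟨i, g5, a, g4, b, by omega, c, g2, g3.symm⟩
  refine (sum_le_sum_of_subset_of_nonneg h1 (fun N _ _ => h0 N)).trans ?_
  refine (sum_biUnion_le' _ _ h0).trans (sum_le_sum (fun i _ => ?_))
  refine (sum_biUnion_le' _ _ h0).trans (sum_le_sum (fun a _ => ?_))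
  refine (sum_biUnion_le' _ _ h0).trans (sum_le_sum (fun b _ => ?_))
  exact sum_image_le' _ _ h0

open Classical in
/-- The cost of all the values for the squares of the numbers `RR i`. -/
theorem cost_W3 {p : ℕ → ℝ} (hp : ∀ η : ℝ, 0 < η → ∀ᶠ N : ℕ in atTop, p N ≤ Real.log N ^ (-1 + η)) {θ : ℝ} (hθ : 1 < θ) :
    ∀ᶠ x : ℕ in atTop, ∑ N ∈ (ind (Un p) x).filter (fun N => N ∈ W3), cost p N ≤ Real.log x ^ θ := by
  obtain ⟨η, hη⟩ : ∃ η, η = min ((θ - 1) / 4) (1 / 4) := ⟨_, rfl⟩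
  have hη0 : 0 < η := by rw [hη]; exact lt_min (by linarith) (by norm_num)
  have hη1 : η ≤ (θ - 1) / 4 := by rw [hη]; exact min_le_left _ _
  have hη2 : η ≤ 1 / 4 := by rw [hη]; exact min_le_right _ _
  obtain ⟨K1, hK1, hZ⟩ := card_ZZ hη0
  have hlog : Tendsto (fun N : ℕ => Real.log N) atTop atTop := Real.tendsto_log_atTop.comp tendsto_natCast_atTop_atTop
  have t0 : Tendsto (fun N : ℕ => Real.log N ^ (-1 + η)) atTop (𝓝 0) := by
    have h1 : Tendsto (fun y : ℝ => y ^ (-(1 - η))) atTop (𝓝 0) := tendsto_rpow_neg_atTop (by linarith)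
    have h2 := h1.comp hlog
    refine h2.congr (fun N => ?_)
    simp only [Function.comp]
    congr 1
    ring
  obtain ⟨a₀, ha₀⟩ := eventually_atTop.1 ((hp η hη0).and (t0.eventually_le_const (show (0 : ℝ) < 1 / 2 by norm_num)))
  obtain ⟨h, hh⟩ : ∃ h : ℕ → ℝ, h = fun N => if N ∈ Un p then cost p N else 0 := ⟨_, rfl⟩
  have h0 : ∀ N, 0 ≤ h N := by
    intro N
    rw [hh]
    simp only
    split_ifs with hN
    · exact cost_nonneg hN
    · exact le_rfl
  have hl2 : 0 < Real.log 2 := Real.log_pos (by norm_num)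
  have hl2' : 1 / 2 ≤ Real.log 2 := by have := Real.log_two_gt_d9; linarith
  -- one term
  have hterm : ∀ a b c : ℕ, a₀ + 1 ≤ a → h (2 ^ a + 2 ^ b + 2 ^ c + 1) ≤ 4 * (a : ℝ) ^ (-1 + η) := by
    intro a b c ha
    have hapos : (0 : ℝ) < a := by exact_mod_cast (by omega : 0 < a)
    obtain ⟨N, hN⟩ : ∃ N, N = 2 ^ a + 2 ^ b + 2 ^ c + 1 := ⟨_, rfl⟩
    rw [← hN]
    have hNa : 2 ^ a ≤ N := by
      rw [hN, add_assoc, add_assoc]
      exact Nat.le_add_right _ _
    have hN0 : a₀ ≤ N := by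
      have : a < 2 ^ a := Nat.lt_two_pow_self
      omega
    obtain ⟨g1, g2⟩ := ha₀ N hN0
    rw [hh]
    simp only
    split_ifs with hU
    · unfold cost
      have e1 := Pool.Agent.Q96.ME.neg_log_le hU.1 (g1.trans g2)
      refine e1.trans ?_
      have e2 : (a : ℝ) * Real.log 2 ≤ Real.log N := by
        rw [← Real.log_pow]
        refine Real.log_le_log (by positivity) ?_
        exact_mod_cast hNa
      have e3 : Real.log N ^ (-1 + η) ≤ ((a : ℝ) * Real.log 2) ^ (-1 + η) :=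
        Real.rpow_le_rpow_of_nonpos (by positivity) e2 (by linarith)
      rw [Real.mul_rpow hapos.le hl2.le] at e3
      have e4 : (Real.log 2) ^ (-1 + η) ≤ 2 := by
        calc (Real.log 2) ^ (-1 + η) ≤ (1 / 2 : ℝ) ^ (-1 + η) := Real.rpow_le_rpow_of_nonpos (by norm_num) hl2' (by linarith)
          _ ≤ (1 / 2 : ℝ) ^ (-1 : ℝ) := Real.rpow_le_rpow_of_exponent_ge (by norm_num) (by norm_num) (by linarith)
          _ = 2 := by rw [Real.rpow_neg_one]; norm_num
      have e5 : (a : ℝ) ^ (-1 + η) * (Real.log 2) ^ (-1 + η) ≤ (a : ℝ) ^ (-1 + η) * 2 := mul_le_mul_of_nonneg_left e4 (by positivity)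
      linarith
    · positivity
  -- one row
  have hrow : ∀ i a : ℕ, a₀ + 1 ≤ a → ∑ b ∈ range (a + 1), ∑ c ∈ ZZ (RR i) a b, h (2 ^ a + 2 ^ b + 2 ^ c + 1) ≤
      16 * K1 * (a : ℝ) ^ (2 * η) := by
    intro i a ha
    have hapos : (0 : ℝ) < a := by exact_mod_cast (by omega : 0 < a)
    have ha1 : (1 : ℝ) ≤ a := by exact_mod_cast (by omega : 1 ≤ a)
    have e0 : ((a : ℝ) + 1) ^ η ≤ 2 * (a : ℝ) ^ η := by
      calc ((a : ℝ) + 1) ^ η ≤ (2 * (a : ℝ)) ^ η := Real.rpow_le_rpow (by positivity) (by linarith) hη0.le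
        _ = (2 : ℝ) ^ η * (a : ℝ) ^ η := Real.mul_rpow (by norm_num) hapos.le
        _ ≤ 2 * (a : ℝ) ^ η := by
            refine mul_le_mul_of_nonneg_right ?_ (by positivity)
            calc (2 : ℝ) ^ η ≤ (2 : ℝ) ^ (1 : ℝ) := Real.rpow_le_rpow_of_exponent_le (by norm_num) (by linarith)
              _ = 2 := Real.rpow_one 2
    have e1 : ∀ b ∈ range (a + 1), ∑ c ∈ ZZ (RR i) a b, h (2 ^ a + 2 ^ b + 2 ^ c + 1) ≤ 8 * K1 * ((a : ℝ) ^ η * (a : ℝ) ^ (-1 + η)) := by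
      intro b hb
      rw [mem_range] at hb
      refine (sum_le_sum (fun c _ => hterm a b c ha)).trans ?_
      rw [sum_const, nsmul_eq_mul]
      have g1 := hZ i a b (by omega)
      have g2 : 0 < (a : ℝ) ^ (-1 + η) := by positivity
      calc ((ZZ (RR i) a b).card : ℝ) * (4 * (a : ℝ) ^ (-1 + η)) ≤ (K1 * (2 * (a : ℝ) ^ η)) * (4 * (a : ℝ) ^ (-1 + η)) :=
            mul_le_mul_of_nonneg_right (g1.trans (mul_le_mul_of_nonneg_left e0 hK1.le)) (by positivity)
        _ = _ := by ring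
    refine (sum_le_sum e1).trans ?_
    rw [sum_const, card_range, nsmul_eq_mul]
    push_cast
    have e2 : (a : ℝ) ^ (2 * η) = a * ((a : ℝ) ^ η * (a : ℝ) ^ (-1 + η)) := by
      rw [← Real.rpow_add hapos, ← Real.rpow_one_add' hapos.le (by intro h; linarith)]
      congr 1
      ring
    rw [e2]
    have e3 : 0 < (a : ℝ) ^ η * (a : ℝ) ^ (-1 + η) := by positivity
    nlinarith [mul_pos hK1 e3]
  obtain ⟨K, hK⟩ : ∃ K : ℝ, K = ∑ a ∈ range (a₀ + 1), ∑ b ∈ range (a + 1), ∑ c ∈ range (a + 1), h (2 ^ a + 2 ^ b + 2 ^ c + 1) := ⟨_, rfl⟩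
  have hK0 : 0 ≤ K := by rw [hK]; exact sum_nonneg (fun a _ => sum_nonneg (fun b _ => sum_nonneg (fun c _ => h0 _)))
  have htot : ∀ i X : ℕ, ∑ a ∈ range X, ∑ b ∈ range (a + 1), ∑ c ∈ ZZ (RR i) a b, h (2 ^ a + 2 ^ b + 2 ^ c + 1) ≤
      K + 16 * K1 * ((X : ℝ) ^ (1 + 2 * η)) := by
    intro i X
    have hX1 : (X : ℝ) ^ (1 + 2 * η) = X * (X : ℝ) ^ (2 * η) := by
      rw [Real.rpow_one_add' (Nat.cast_nonneg X) (by linarith)]
    calc ∑ a ∈ range X, ∑ b ∈ range (a + 1), ∑ c ∈ ZZ (RR i) a b, h (2 ^ a + 2 ^ b + 2 ^ c + 1) ≤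
        ∑ a ∈ range X, ((if a < a₀ + 1 then ∑ b ∈ range (a + 1), ∑ c ∈ range (a + 1), h (2 ^ a + 2 ^ b + 2 ^ c + 1) else 0) +
          16 * K1 * (X : ℝ) ^ (2 * η)) := by
          refine sum_le_sum (fun a ha => ?_)
          rw [mem_range] at ha
          by_cases h1 : a < a₀ + 1
          · rw [if_pos h1]
            have h2 : 0 ≤ 16 * K1 * (X : ℝ) ^ (2 * η) := by positivity
            have h3 : ∑ b ∈ range (a + 1), ∑ c ∈ ZZ (RR i) a b, h (2 ^ a + 2 ^ b + 2 ^ c + 1) ≤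
                ∑ b ∈ range (a + 1), ∑ c ∈ range (a + 1), h (2 ^ a + 2 ^ b + 2 ^ c + 1) :=
              sum_le_sum (fun b _ => sum_le_sum_of_subset_of_nonneg (filter_subset _ _) (fun c _ _ => h0 _))
            linarith
          · rw [if_neg h1, zero_add]
            refine (hrow i a (by omega)).trans ?_
            refine mul_le_mul_of_nonneg_left ?_ (by positivity)
            exact Real.rpow_le_rpow (Nat.cast_nonneg a) (by exact_mod_cast ha.le) (by positivity)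
      _ ≤ K + 16 * K1 * ((X : ℝ) ^ (1 + 2 * η)) := by
          rw [sum_add_distrib, sum_const, card_range, nsmul_eq_mul, hX1]
          refine add_le_add ?_ (le_of_eq (by ring))
          rw [← sum_filter, hK]
          refine sum_le_sum_of_subset_of_nonneg (fun a ha => ?_) (fun a _ _ => sum_nonneg (fun b _ => sum_nonneg (fun c _ => h0 _)))
          rw [mem_filter] at ha
          exact mem_range.2 ha.2
  have hθη : 0 < θ - (1 + 3 * η) := by linarith
  have t1 : Tendsto (fun x : ℕ => Real.log x ^ (θ - (1 + 3 * η))) atTop atTop := (tendsto_rpow_atTop hθη).comp hlog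
  -- the number of the `i`
  have t2 : ∀ᶠ y : ℝ in atTop, Real.log (27 * y ^ 2) * 2 + 1 ≤ y ^ η := by
    have g1 := (isLittleO_log_rpow_atTop (r := η) hη0).def (c := 1 / 8) (by norm_num)
    have g2 : Tendsto (fun y : ℝ => y ^ η) atTop atTop := tendsto_rpow_atTop hη0
    filter_upwards [g1, g2.eventually_ge_atTop (4 * Real.log 27 + 2), eventually_ge_atTop 1] with y k1 k2 k3
    rw [Real.norm_of_nonneg (Real.log_nonneg k3), Real.norm_of_nonneg (by positivity)] at k1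
    rw [Real.log_mul (by norm_num) (by positivity), Real.log_pow]
    push_cast
    linarith
  filter_upwards [t1.eventually_ge_atTop (K + 16 * K1 * (3 : ℝ) ^ (1 + 2 * η)), hlog.eventually t2, hlog.eventually_ge_atTop 1,
    eventually_ge_atTop 2] with x h1 hcnt h2 h3
  have hx2 : x ≤ 2 ^ (Nat.log 2 x + 1) := (Nat.lt_pow_succ_log_self (by norm_num) x).le
  have h4 : ∑ N ∈ (ind (Un p) x).filter (fun N => N ∈ W3), cost p N = ∑ N ∈ (ind (Un p) x).filter (fun N => N ∈ W3), h N := by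
    refine sum_congr rfl (fun N hN => ?_)
    rw [mem_filter, mem_ind] at hN
    rw [hh]
    simp only
    rw [if_pos hN.1.2]
  rw [h4]
  obtain ⟨X, hX⟩ : ∃ X, X = Nat.log 2 x + 1 := ⟨_, rfl⟩
  rw [← hX] at hx2
  have h5 : (X : ℝ) ≤ 3 * Real.log x := by
    have e1 : (Nat.log 2 x : ℝ) * Real.log 2 ≤ Real.log x := by
      rw [← Real.log_pow]
      refine Real.log_le_log (by positivity) ?_
      exact_mod_cast Nat.pow_log_le_self 2 (by omega)
    rw [hX]
    push_cast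
    have e2 : (Nat.log 2 x : ℝ) * (1 / 2) ≤ Nat.log 2 x * Real.log 2 := mul_le_mul_of_nonneg_left hl2' (Nat.cast_nonneg _)
    linarith
  have hX1 : 1 ≤ X := by omega
  have h6 : ((Nat.log 2 (3 * X ^ 2) + 1 : ℕ) : ℝ) ≤ Real.log x ^ η := by
    have e1 : (Nat.log 2 (3 * X ^ 2) : ℝ) * Real.log 2 ≤ Real.log (27 * Real.log x ^ 2) := by
      rw [← Real.log_pow]
      refine Real.log_le_log (by positivity) ?_
      have e2 : 2 ^ Nat.log 2 (3 * X ^ 2) ≤ 3 * X ^ 2 := Nat.pow_log_le_self 2 (by positivity)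
      have e3 : ((2 : ℝ) ^ Nat.log 2 (3 * X ^ 2)) ≤ 3 * (X : ℝ) ^ 2 := by exact_mod_cast e2
      refine e3.trans ?_
      have e4 := pow_le_pow_left₀ (Nat.cast_nonneg X) h5 2
      nlinarith
    have e2 : (Nat.log 2 (3 * X ^ 2) : ℝ) * (1 / 2) ≤ Nat.log 2 (3 * X ^ 2) * Real.log 2 :=
      mul_le_mul_of_nonneg_left hl2' (Nat.cast_nonneg _)
    push_cast
    linarith
  refine (sum_W3 h0 hx2 (fun N hN => ?_)).trans ((sum_le_sum (fun i _ => htot i X)).trans ?_)
  · rw [mem_filter, mem_ind] at hN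
    exact ⟨hN.1.1, hN.2⟩
  · rw [sum_const, card_range, nsmul_eq_mul]
    have h7 : (X : ℝ) ^ (1 + 2 * η) ≤ (3 : ℝ) ^ (1 + 2 * η) * Real.log x ^ (1 + 2 * η) := by
      rw [← Real.mul_rpow (by norm_num) (by linarith)]
      exact Real.rpow_le_rpow (Nat.cast_nonneg _) h5 (by positivity)
    have h8 : (1 : ℝ) ≤ Real.log x ^ (1 + 2 * η) := Real.one_le_rpow h2 (by positivity)
    have h9 : Real.log x ^ θ = Real.log x ^ η * (Real.log x ^ (1 + 2 * η) * Real.log x ^ (θ - (1 + 3 * η))) := by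
      rw [← Real.rpow_add (by linarith), ← Real.rpow_add (by linarith)]
      congr 1
      ring
    rw [h9]
    refine mul_le_mul h6 ?_ (by positivity) (by positivity)
    have h10 : (0 : ℝ) < (3 : ℝ) ^ (1 + 2 * η) := by positivity
    calc K + 16 * K1 * (X : ℝ) ^ (1 + 2 * η) ≤ K * Real.log x ^ (1 + 2 * η) +
          16 * K1 * ((3 : ℝ) ^ (1 + 2 * η) * Real.log x ^ (1 + 2 * η)) := by
          refine add_le_add (le_mul_of_one_le_right hK0 h8) (mul_le_mul_of_nonneg_left h7 (by positivity))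
      _ = Real.log x ^ (1 + 2 * η) * (K + 16 * K1 * (3 : ℝ) ^ (1 + 2 * η)) := by ring
      _ ≤ _ := mul_le_mul_of_nonneg_left h1 (by positivity)

/-- The squares of the numbers `RR i` are suitable for all levels. -/
theorem suit_RR {z C : ℝ} (hC : 0 ≤ C) : ∀ᶠ i : ℕ in atTop, Suit (RR i ^ 2) (z + C * Real.log ((RR i ^ 2 : ℕ) : ℝ)) := by
  have hl : Tendsto (fun i : ℕ => (i : ℝ)) atTop atTop := tendsto_natCast_atTop_atTop
  have g1 := (Real.isLittleO_log_id_atTop).def (c := (4 * (C + 1))⁻¹) (by positivity)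
  have g2 : ∀ᶠ y : ℝ in atTop, z + 2 * C * (y * Real.log (2 * y + 1)) < (2 * y + 1) ^ 2 := by
    have g3 : Tendsto (fun y : ℝ => 2 * y + 1) atTop atTop := tendsto_atTop_add_const_right _ _ (tendsto_id.const_mul_atTop (by norm_num))
    filter_upwards [g3.eventually g1, eventually_ge_atTop (|z| + 1)] with y k1 k2
    have hz := abs_nonneg z
    have k3 : 0 < y := by linarith
    simp only [id] at k1
    rw [Real.norm_of_nonneg (Real.log_nonneg (by linarith)), Real.norm_of_nonneg (by linarith)] at k1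
    have k4 : 2 * C * (y * Real.log (2 * y + 1)) ≤ 2 * C * (y * ((4 * (C + 1))⁻¹ * (2 * y + 1))) := by gcongr
    have k5 : 2 * C * (y * ((4 * (C + 1))⁻¹ * (2 * y + 1))) ≤ y * (2 * y + 1) := by
      have e1 : 2 * C * (4 * (C + 1))⁻¹ ≤ 1 := by
        rw [mul_inv_le_iff₀ (by positivity)]
        linarith
      calc 2 * C * (y * ((4 * (C + 1))⁻¹ * (2 * y + 1))) = (2 * C * (4 * (C + 1))⁻¹) * (y * (2 * y + 1)) := by ring
        _ ≤ 1 * (y * (2 * y + 1)) := mul_le_mul_of_nonneg_right e1 (by positivity)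
        _ = _ := one_mul _
    have k6 := le_abs_self z
    nlinarith
  filter_upwards [hl.eventually g2, eventually_ge_atTop 1] with i hi hi1
  refine ⟨(RR_odd i).pow, Or.inr (Or.inl ?_), fun l hl h5 hd => ?_⟩
  · exact Dvd.dvd.pow (dvd_RR (by decide) le_rfl (by omega)) (by norm_num)
  · have hodd : Odd l := hl.odd_of_ne_two (by omega)
    have k1 : 2 * i + 1 < l := by
      by_contra hcon
      push Not at hcon
      have k2 : (l : ℤ) ∣ ((RR i ^ 2 : ℕ) : ℤ) := by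
        have := dvd_RR hodd (by omega) hcon
        exact_mod_cast Dvd.dvd.pow this (by norm_num)
      have k3 : (l : ℤ) ∣ 4 := by
        have e1 : (3 * ((RR i ^ 2 : ℕ) : ℤ) - 2) * (9 * ((RR i ^ 2 : ℕ) : ℤ) - 2) =
            ((RR i ^ 2 : ℕ) : ℤ) * (27 * ((RR i ^ 2 : ℕ) : ℤ) - 24) + 4 := by ring
        rw [e1] at hd
        exact (dvd_add_right (Dvd.dvd.mul_right k2 _)).1 hd
      have k4 : l ∣ 4 := by exact_mod_cast k3
      have := Nat.le_of_dvd (by norm_num) k4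
      omega
    have k2 : Real.log ((RR i ^ 2 : ℕ) : ℝ) ≤ 2 * (i * Real.log (2 * i + 1)) := by
      have e1 : ((RR i : ℕ) : ℝ) ≤ (2 * (i : ℝ) + 1) ^ i := by exact_mod_cast RR_le i
      have e2 : (0 : ℝ) < RR i := by exact_mod_cast RR_pos i
      have e3 := Real.log_le_log e2 e1
      rw [Real.log_pow] at e3
      push_cast
      rw [Real.log_pow]
      push_cast
      linarith
    have k3 : ((2 * (i : ℝ) + 1)) ^ 2 < (l : ℝ) ^ 2 := by
      have e1 : (2 * (i : ℝ) + 1) < l := by exact_mod_cast k1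
      have e2 : (0 : ℝ) ≤ i := Nat.cast_nonneg i
      nlinarith
    have k4 := mul_le_mul_of_nonneg_left k2 hC
    linarith

end Pool.Agent.Q106.IV
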