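import Pool.Agent.Q106.IV.Up
import Pool.Agent.Q197.IT.Cond

/-!
# Transfer of small probabilities from the model to random sets of small information
-/

set_option autoImplicit false

namespace Pool.Agent.Q106.IV

open Finset MeasureTheory ProbabilityTheory Filter Pool.Agent.Q120.GM
open Pool.Agent.Q120.ET (IsRandomSet lawOn tr mem_tr real_event)
open Pool.Agent.Q120.ME (bern relEnt ind)
open Pool.Agent.Q106.WG (law_bern mem_ind bc_sum)
open Pool.Agent.Q197.IT (Loc)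
open scoped Topology

/-- The probabilities on `Un p`, and `0` elsewhere. -/
noncomputable def cut (p : ℕ → ℝ) (n : ℕ) : ℝ := by
  classical exact if n ∈ Un p then p n else 0

theorem cut_of_mem {p : ℕ → ℝ} {n : ℕ} (h : n ∈ Un p) : cut p n = p n := by
  classical
  unfold cut
  rw [if_pos h]

theorem cut_nonneg {p : ℕ → ℝ} (n : ℕ) : 0 ≤ cut p n := by
  classical
  unfold cut
  split_ifs with h
  · exact h.1.le
  · exact le_rfl

theorem cut_le_one {p : ℕ → ℝ} (n : ℕ) : cut p n ≤ 1 := by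
  classical
  unfold cut
  split_ifs with h
  · exact h.2.le
  · exact zero_le_one

/-- **Transfer.** -/
theorem transfer {p : ℕ → ℝ} {E : ℕ → Set ℕ → Prop} {γ θ : ℝ} (hθ0 : 0 ≤ θ) (hθγ : θ < γ)
    (hloc : ∀ᶠ n : ℕ in atTop, Loc (ind (Un p) (2 * n)) (E n))
    (href : ∀ᶠ n : ℕ in atTop, (prodMeasure (cut p)).real {ω | E n (trueSet (ι := ℕ) ω)} ≤ Real.exp (-((n : ℝ) ^ γ))) :
    ∀ (Ω : Type) [MeasurableSpace Ω] (μ : Measure Ω) [IsProbabilityMeasure μ] (A : Ω → Set ℕ), IsRandomSet A →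
      (∀ᶠ x : ℕ in atTop, relEnt p μ A (ind (Un p) x) ≤ (x : ℝ) ^ θ) →
      ∀ᵐ ω ∂μ, ∀ᶠ n : ℕ in atTop, ¬ E n (A ω) := by
  classical
  intro Ω _ μ _ A hA hent
  obtain ⟨γ', hγ'⟩ : ∃ γ', γ' = (θ + γ) / 2 := ⟨_, rfl⟩
  have hγ1 : θ < γ' := by linarith
  have hγ2 : γ' < γ := by linarith
  have hγ0 : 0 < γ' := by linarith
  obtain ⟨N₀, hN₀⟩ := eventually_atTop.1 (hloc.and href)
  obtain ⟨F, hF⟩ : ∃ F : ℕ → Finset ℕ, F = fun j => ind (Un p) (2 ^ (j + 2)) := ⟨_, rfl⟩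
  obtain ⟨Bd, hBd⟩ : ∃ Bd : ℕ → Finset ℕ → Prop, Bd = fun (j : ℕ) (S : Finset ℕ) =>
      ∃ n ∈ Ico (2 ^ j) (2 ^ (j + 1)), E n (S : Set ℕ) := ⟨_, rfl⟩
  have hM := isModel (cut p) cut_nonneg cut_le_one
  obtain ⟨A', hAd⟩ : ∃ A, A = trueSet (ι := ℕ) := ⟨_, rfl⟩
  obtain ⟨ν, hν⟩ : ∃ ν, ν = prodMeasure (cut p) := ⟨_, rfl⟩
  haveI : IsProbabilityMeasure ν := by rw [hν]; infer_instance
  rw [← hAd, ← hν] at hM
  have hlow : ∀ j n : ℕ, N₀ ≤ j → n ∈ Ico (2 ^ j) (2 ^ (j + 1)) → N₀ ≤ n := by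
    intro j n hj hn
    rw [mem_Ico] at hn
    have : j < 2 ^ j := Nat.lt_two_pow_self
    omega
  have hres : ∀ (j : ℕ) (B : Set ℕ) (n : ℕ), N₀ ≤ j → n ∈ Ico (2 ^ j) (2 ^ (j + 1)) →
      (E n ((tr (fun _ : Unit => B) (F j) () : Finset ℕ) : Set ℕ) ↔ E n B) := by
    intro j B n hj hn
    have h1 := (hN₀ n (hlow j n hj hn)).1 ((tr (fun _ : Unit => B) (F j) () : Finset ℕ) : Set ℕ) B (fun a ha => by
      rw [mem_coe, mem_tr]
      rw [mem_ind] at ha
      rw [mem_Ico] at hn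
      have e1 : 2 ^ (j + 1) = 2 * 2 ^ j := by ring
      have e2 : 2 ^ (j + 2) = 4 * 2 ^ j := by ring
      have e3 : a ∈ F j := by
        rw [hF, mem_ind]
        exact ⟨by omega, ha.2⟩
      exact ⟨fun h => h.2, fun h => ⟨e3, h⟩⟩)
    rw [h1]
  have hres' : ∀ {Ω' : Type} [MeasurableSpace Ω'] (B : Ω' → Set ℕ) (ω : Ω') (j : ℕ), N₀ ≤ j →
      (Bd j (tr B (F j) ω) ↔ ∃ n ∈ Ico (2 ^ j) (2 ^ (j + 1)), E n (B ω)) := by
    intro Ω' _ B ω j hj
    rw [hBd]
    refine exists_congr (fun n => and_congr_right (fun hn => ?_))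
    have h1 : tr B (F j) ω = tr (fun _ : Unit => B ω) (F j) () := by
      ext a
      rw [mem_tr, mem_tr]
    rw [h1]
    exact hres j (B ω) n hj hn
  have hexp : ∀ᶠ j : ℕ in atTop, (2 : ℝ) ^ (j + 1) * Real.exp (-(((2 : ℝ) ^ j) ^ γ)) ≤ Real.exp (-(((2 : ℝ) ^ j) ^ γ')) := by
    have hu : Tendsto (fun j : ℕ => (2 : ℝ) ^ j) atTop atTop := tendsto_pow_atTop_atTop_of_one_lt (by norm_num)
    have g1 := (isLittleO_log_rpow_atTop (r := γ') hγ0).def (c := 1) one_pos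
    have g2 : Tendsto (fun x : ℝ => x ^ (γ - γ')) atTop atTop := tendsto_rpow_atTop (by linarith)
    filter_upwards [hu.eventually g1, hu.eventually (g2.eventually_ge_atTop 4), hu.eventually_ge_atTop 2] with j h1 h2 h3
    obtain ⟨x, hx⟩ : ∃ x : ℝ, x = (2 : ℝ) ^ j := ⟨_, rfl⟩
    rw [← hx] at h1 h2 h3 ⊢
    have hx0 : 0 < x := by linarith
    rw [Real.norm_of_nonneg (Real.log_nonneg (by linarith)), Real.norm_of_nonneg (by positivity), one_mul] at h1
    have e1 : (2 : ℝ) ^ (j + 1) = Real.exp (Real.log (2 * x)) := by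
      rw [Real.exp_log (by linarith), hx]
      ring
    rw [e1, ← Real.exp_add]
    refine Real.exp_le_exp.2 ?_
    have e2 : x ^ γ = x ^ γ' * x ^ (γ - γ') := by
      rw [← Real.rpow_add hx0]
      congr 1
      ring
    have e3 : Real.log (2 * x) ≤ 2 * Real.log x := by
      rw [Real.log_mul (by norm_num) hx0.ne']
      have := Real.log_le_log (by norm_num) h3
      linarith
    have e4 : 0 < x ^ γ' := by positivity
    rw [e2]
    nlinarith
  have hrefj : ∀ᶠ j : ℕ in atTop, ∑ S ∈ (F j).powerset with Bd j S, bern p (F j) S ≤ Real.exp (-(((2 : ℝ) ^ j) ^ γ')) := by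
    filter_upwards [hexp, eventually_ge_atTop N₀] with j h1 h2
    have hFU : ∀ n ∈ F j, cut p n = p n := by
      intro n hn
      rw [hF, mem_ind] at hn
      exact cut_of_mem hn.2
    have hsum : ∑ S ∈ (F j).powerset with Bd j S, bern p (F j) S = ν.real {ω | Bd j (tr A' (F j) ω)} := by
      rw [real_event (fun n => hM.meas n) (F j) (Bd j)]
      refine sum_congr rfl (fun S hS => ?_)
      rw [mem_filter, mem_powerset] at hS
      exact (law_bern hM hFU hS.1).symm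
    rw [hsum]
    have hincl : {ω | Bd j (tr A' (F j) ω)} ⊆ ⋃ n ∈ Ico (2 ^ j) (2 ^ (j + 1)), {ω | E n (A' ω)} := by
      intro ω h
      obtain ⟨n, hn, h3⟩ := (hres' A' ω j h2).1 h
      rw [Set.mem_iUnion₂]
      exact ⟨n, hn, h3⟩
    refine (measureReal_mono hincl (measure_ne_top _ _)).trans ((measureReal_biUnion_finset_le _ _).trans ?_)
    have hterm : ∀ n ∈ Ico (2 ^ j) (2 ^ (j + 1)), ν.real {ω | E n (A' ω)} ≤ Real.exp (-(((2 : ℝ) ^ j) ^ γ)) := by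
      intro n hn
      have h3 := (hN₀ n (hlow j n h2 hn)).2
      rw [← hAd, ← hν] at h3
      refine h3.trans (Real.exp_le_exp.2 (neg_le_neg ?_))
      rw [mem_Ico] at hn
      refine Real.rpow_le_rpow (by positivity) ?_ (by linarith)
      exact_mod_cast hn.1
    refine (sum_le_sum hterm).trans (le_trans ?_ h1)
    rw [sum_const, Nat.card_Ico, nsmul_eq_mul]
    refine mul_le_mul_of_nonneg_right ?_ (Real.exp_pos _).le
    have : 2 ^ (j + 1) - 2 ^ j ≤ 2 ^ (j + 1) := Nat.sub_le _ _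
    exact_mod_cast this
  obtain ⟨K, hK⟩ : ∃ K : ℝ, K = 4 ^ θ + 1 := ⟨_, rfl⟩
  have hgeo : Summable (fun j : ℕ => K * ((2 : ℝ) ^ (θ - γ')) ^ j) := by
    refine (summable_geometric_of_lt_one (by positivity) ?_).mul_left _
    refine Real.rpow_lt_one_of_one_lt_of_neg (by norm_num) (by linarith)
  have hx2 : Tendsto (fun j : ℕ => 2 ^ (j + 2)) atTop atTop := by
    have h1 : Tendsto (fun j : ℕ => 2 ^ j) atTop atTop := tendsto_pow_atTop_atTop_of_one_lt (by norm_num : 1 < 2)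
    exact h1.comp (tendsto_add_atTop_nat 2)
  have hbc := bc_sum (μ := μ) (E := fun j => {ω | Bd j (tr A (F j) ω)}) hgeo (by
    filter_upwards [hrefj, hx2.eventually hent] with j h1 h2
    have hFj : F j = ind (Un p) (2 ^ (j + 2)) := by rw [hF]
    have h3 := (Pool.Agent.Q184.ME.t_EVT Pool.Agent.Q26.ME.t_DV p (F j)
      (fun n hn => by rw [hFj] at hn; exact (mem_ind.1 hn).2) Ω μ A hA).2 (Bd j) (((2 : ℝ) ^ j) ^ γ') h1
    rw [← hFj] at h2
    have hlog : Real.log 2 ≤ 1 := by have := Real.log_two_lt_d9; linarith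
    have e2 : (((2 ^ (j + 2) : ℕ)) : ℝ) ^ θ = (4 : ℝ) ^ θ * ((2 : ℝ) ^ j) ^ θ := by
      rw [← Real.mul_rpow (by norm_num) (by positivity)]
      congr 1
      push_cast
      ring
    have e3 : (1 : ℝ) ≤ ((2 : ℝ) ^ j) ^ θ := Real.one_le_rpow (one_le_pow₀ (by norm_num)) hθ0
    have hX : (0 : ℝ) < ((2 : ℝ) ^ j) ^ γ' := by positivity
    have h4 : μ.real {ω | Bd j (tr A (F j) ω)} * ((2 : ℝ) ^ j) ^ γ' ≤ K * ((2 : ℝ) ^ j) ^ θ := by
      rw [hK]
      rw [e2] at h2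
      nlinarith
    have h5 : μ.real {ω | Bd j (tr A (F j) ω)} ≤ K * (((2 : ℝ) ^ j) ^ θ / ((2 : ℝ) ^ j) ^ γ') := by
      rw [← mul_div_assoc, le_div_iff₀ hX]
      exact h4
    refine h5.trans (le_of_eq ?_)
    rw [← Real.rpow_sub (by positivity), ← Real.rpow_natCast, ← Real.rpow_mul (by norm_num),
      ← Real.rpow_natCast, ← Real.rpow_mul (by norm_num)]
    congr 2
    ring)
  filter_upwards [hbc] with ω hω
  obtain ⟨J, hJ⟩ := eventually_atTop.1 hω
  filter_upwards [eventually_ge_atTop (2 ^ (max J N₀))] with n hn hcon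
  obtain ⟨j, hj⟩ : ∃ j, j = Nat.log 2 n := ⟨_, rfl⟩
  have h0 : 0 < n := lt_of_lt_of_le (by positivity) hn
  have hj1 : max J N₀ ≤ j := by
    rw [hj]
    exact Nat.le_log_of_pow_le (by norm_num) hn
  have hj2 : 2 ^ j ≤ n := by rw [hj]; exact Nat.pow_log_le_self 2 (by omega)
  have hj3 : n < 2 ^ (j + 1) := by rw [hj]; exact Nat.lt_pow_succ_log_self (by norm_num) n
  refine hJ j ((le_max_left _ _).trans hj1) ?_
  show Bd j (tr A (F j) ω)
  exact (hres' A ω j ((le_max_right _ _).trans hj1)).2 ⟨n, mem_Ico.2 ⟨hj2, hj3⟩, hcon⟩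

end Pool.Agent.Q106.IV
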