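import Pool.Agent.Q106.IV.Up
import Pool.Agent.Q106.WG.Del
import Pool.Agent.Q197.SP.R1e1

/-!
# The numbers `2^(x+y) + 2^(z+w) + 1` in random sets of small information
-/

set_option autoImplicit false

namespace Pool.Agent.Q106.IV

open Finset MeasureTheory ProbabilityTheory Filter
open Pool.Agent.Q120.ET (IsRandomSet)
open Pool.Agent.Q120.ME (bern relEnt ind kl)
open Pool.Agent.Q106.WG (mem_ind)
open scoped Topology

/-- Probabilities `(log N) ^ (-1 + o(1))` on the `N` whose prime factors exceed `C log log N`, and at most so large on the others. -/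
structure Dens (C : ℝ) (p : ℕ → ℝ) : Prop where
  range : ∀ N, 0 ≤ p N ∧ p N ≤ 1
  upper : ∀ η : ℝ, 0 < η → ∀ᶠ N : ℕ in atTop, p N ≤ Real.log N ^ (-1 + η)
  lower : ∀ η : ℝ, 0 < η → ∀ᶠ N : ℕ in atTop, (∀ q : ℕ, q.Prime → q ∣ N → C * Real.log (Real.log N) < q) →
    Real.log N ^ (-1 - η) ≤ p N

/-- A value for `n`. -/
def Val2 (n N : ℕ) : Prop := ∃ x y z w : ℕ, n = x ^ 2 + y ^ 2 + z ^ 2 + w ^ 2 ∧ N = 2 ^ (x + y) + 2 ^ (z + w) + 1

theorem Val2.lt {n N : ℕ} (h : Val2 n N) : N < 2 ^ (2 * Nat.sqrt n + 4) := by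
  obtain ⟨x, y, z, w, h1, h2⟩ := h
  have hx : x ≤ Nat.sqrt n := by rw [Nat.le_sqrt]; nlinarith
  have hy : y ≤ Nat.sqrt n := by rw [Nat.le_sqrt]; nlinarith
  have hz : z ≤ Nat.sqrt n := by rw [Nat.le_sqrt]; nlinarith
  have hw : w ≤ Nat.sqrt n := by rw [Nat.le_sqrt]; nlinarith
  have e1 : 2 ^ (x + y) ≤ 2 ^ (2 * Nat.sqrt n) := Nat.pow_le_pow_right (by norm_num) (by omega)
  have e2 : 2 ^ (z + w) ≤ 2 ^ (2 * Nat.sqrt n) := Nat.pow_le_pow_right (by norm_num) (by omega)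
  have e3 : 2 ^ (2 * Nat.sqrt n + 4) = 16 * 2 ^ (2 * Nat.sqrt n) := by ring
  have e4 : 0 < 2 ^ (2 * Nat.sqrt n) := by positivity
  omega

/-- The size of the logarithm. -/
theorem log_size {n N : ℕ} (hn : 16 ≤ n) (hN : 1 ≤ N) (h : N < 2 ^ (2 * Nat.sqrt n + 4)) : Real.log N ≤ 3 * (n : ℝ) ^ (1 / 2 : ℝ) := by
  have hn0 : (0 : ℝ) ≤ n := by positivity
  have hN0 : (0 : ℝ) < N := by exact_mod_cast hN
  have h1 : Real.log N ≤ Real.log ((2 : ℝ) ^ (2 * Nat.sqrt n + 4)) := Real.log_le_log hN0 (by exact_mod_cast h.le)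
  rw [Real.log_pow] at h1
  have h2 : (Nat.sqrt n : ℝ) ≤ √(n : ℝ) := Real.nat_sqrt_le_real_sqrt
  have h3 : (4 : ℝ) ≤ √(n : ℝ) := by
    rw [Real.le_sqrt (by norm_num) hn0]
    norm_num
    exact hn
  rw [← Real.sqrt_eq_rpow]
  have h4 : Real.log 2 ≤ 1 := by have := Real.log_two_lt_d9; linarith
  have h5 : 0 < Real.log 2 := Real.log_pos (by norm_num)
  push_cast at h1
  have h6 : ((2 : ℝ) * Nat.sqrt n + 4) * Real.log 2 ≤ (2 * √(n : ℝ) + √(n : ℝ)) * 1 := by
    refine mul_le_mul (by linarith) h4 h5.le (by positivity)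
  linarith

/-- From roughness to probabilities. -/
theorem low_p {n N : ℕ} {ε : ℝ} (hε : 0 < ε) (hn : 16 ≤ n) (hl : 0 < Real.log N) (hN : Real.log N ≤ 3 * (n : ℝ) ^ (1 / 2 : ℝ))
    (h3 : (3 : ℝ) ^ (1 + ε) ≤ (n : ℝ) ^ (ε / 2)) : (n : ℝ) ^ (-(1 / 2) - ε) ≤ Real.log N ^ (-1 - ε) := by
  have hn0 : (0 : ℝ) < n := by exact_mod_cast (by omega : 0 < n)
  have h1 : (3 * (n : ℝ) ^ (1 / 2 : ℝ)) ^ (-1 - ε) ≤ Real.log N ^ (-1 - ε) :=
    Real.rpow_le_rpow_of_nonpos hl hN (by linarith)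
  refine le_trans ?_ h1
  rw [Real.mul_rpow (by norm_num) (by positivity), ← Real.rpow_mul hn0.le]
  have h4 : (3 : ℝ) ^ (-1 - ε) = ((3 : ℝ) ^ (1 + ε))⁻¹ := by
    rw [← Real.rpow_neg (by norm_num)]
    congr 1
    ring
  rw [h4]
  have h5 : (n : ℝ) ^ (-(1 / 2) - ε) = (n : ℝ) ^ (1 / 2 * (-1 - ε)) * ((n : ℝ) ^ (ε / 2))⁻¹ := by
    rw [← Real.rpow_neg hn0.le, ← Real.rpow_add hn0]
    congr 1
    ring
  rw [h5, mul_comm]
  refine mul_le_mul_of_nonneg_right ?_ (by positivity)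
  exact inv_anti₀ (by positivity) h3

/-- The hypothesis of the general theorem. -/
theorem hyp_two {C : ℝ} {p : ℕ → ℝ} (hp : Dens C p) : ∀ ε : ℝ, 0 < ε → ∀ᶠ n : ℕ in atTop, Odd n →
    ∃ T : Finset ℕ, (n : ℝ) ^ (1 - ε) ≤ (T.card : ℝ) ∧ ∀ N ∈ T, Val2 n N ∧
      N < 2 ^ (2 * Nat.sqrt n + 4) ∧ (n : ℝ) ^ (-(1 / 2) - ε) ≤ p N ∧ p N < 1 := by
  classical
  intro ε hε
  obtain ⟨c, hc, n₀, hval⟩ := (Pool.Agent.Q197.SP.R1e1.all_parts (min ε 1 / 2) (by positivity)).1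
  have hlog : Tendsto (fun N : ℕ => Real.log N) atTop atTop := Real.tendsto_log_atTop.comp tendsto_natCast_atTop_atTop
  obtain ⟨N₀, hN₀⟩ := eventually_atTop.1 (((hp.upper (1 / 2) (by norm_num)).and (hp.lower ε hε)).and (hlog.eventually_gt_atTop 1))
  have t1 : Tendsto (fun n : ℕ => (n : ℝ) ^ (min ε 1 / 2)) atTop atTop :=
    (tendsto_rpow_atTop (by positivity)).comp tendsto_natCast_atTop_atTop
  have t2 : Tendsto (fun n : ℕ => (n : ℝ) ^ (ε / 2)) atTop atTop :=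
    (tendsto_rpow_atTop (by positivity)).comp tendsto_natCast_atTop_atTop
  have tll : Tendsto (fun n : ℕ => Real.log (Real.log n)) atTop atTop := Real.tendsto_log_atTop.comp hlog
  -- log log n / log log log n tends to infinity
  have t3 : ∀ᶠ n : ℕ in atTop, |C| / c * Real.log (Real.log (Real.log n)) ≤ Real.log (Real.log n) := by
    have g1 := (Real.isLittleO_log_id_atTop).def (c := (|C| / c + 1)⁻¹) (by positivity)
    filter_upwards [tll.eventually g1, tll.eventually_ge_atTop 1] with n h1 h2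
    simp only [id] at h1
    rw [Real.norm_of_nonneg (Real.log_nonneg h2), Real.norm_of_nonneg (by linarith), inv_mul_eq_div, le_div_iff₀ (by positivity)] at h1
    have h3 := Real.log_nonneg h2
    nlinarith
  have t4 : ∀ᶠ n : ℕ in atTop, Real.log (3 * (n : ℝ) ^ (1 / 2 : ℝ)) ≤ Real.log n := by
    filter_upwards [eventually_ge_atTop 9] with n hn
    have hn0 : (0 : ℝ) < n := by exact_mod_cast (by omega : 0 < n)
    refine Real.log_le_log (by positivity) ?_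
    have h1 : (3 : ℝ) ≤ (n : ℝ) ^ (1 / 2 : ℝ) := by
      rw [← Real.sqrt_eq_rpow, Real.le_sqrt (by norm_num) hn0.le]
      norm_num
      exact hn
    calc 3 * (n : ℝ) ^ (1 / 2 : ℝ) ≤ (n : ℝ) ^ (1 / 2 : ℝ) * (n : ℝ) ^ (1 / 2 : ℝ) := mul_le_mul_of_nonneg_right h1 (by positivity)
      _ = n := by rw [← Real.rpow_add hn0]; norm_num
  have tlll : ∀ᶠ n : ℕ in atTop, (0 : ℝ) < Real.log (Real.log (Real.log n)) := by
    filter_upwards [tll.eventually_gt_atTop 1] with n hn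
    exact Real.log_pos hn
  filter_upwards [eventually_ge_atTop n₀, t1.eventually_ge_atTop (N₀ + 1), t2.eventually_ge_atTop ((3 : ℝ) ^ (1 + ε)), t3, t4, tlll,
    eventually_ge_atTop 16, hlog.eventually_gt_atTop 1] with n h1 h2 h3 h4 h5 h6 h7 h8 hodd
  have hn0 : (0 : ℝ) < n := by exact_mod_cast (by omega : 0 < n)
  have hn1 : (1 : ℝ) ≤ n := by exact_mod_cast (by omega : 1 ≤ n)
  obtain ⟨T, hT1, hT2⟩ := hval n h1 hodd
  refine ⟨T.filter (fun N => N₀ ≤ N), ?_, ?_⟩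
  · have e1 : T.card ≤ (T.filter (fun N => N₀ ≤ N)).card + N₀ := by
      have e2 := Finset.card_filter_add_card_filter_not (s := T) (fun N => N₀ ≤ N)
      have e3 : (T.filter (fun N => ¬ N₀ ≤ N)).card ≤ N₀ := by
        refine (card_le_card (t := range N₀) (fun N hN => ?_)).trans (by rw [card_range])
        rw [mem_filter] at hN
        rw [mem_range]
        omega
      omega
    have e2 : (T.card : ℝ) ≤ (T.filter (fun N => N₀ ≤ N)).card + N₀ := by exact_mod_cast e1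
    have e3 : (n : ℝ) ^ (1 - ε) + N₀ ≤ (n : ℝ) ^ (1 - min ε 1 / 2) := by
      obtain ⟨δ, hδ⟩ : ∃ δ, δ = min ε 1 / 2 := ⟨_, rfl⟩
      have hδ0 : 0 < δ := by rw [hδ]; positivity
      have hδ1 : δ ≤ 1 / 2 := by rw [hδ]; have := min_le_right ε 1; linarith
      have hδ2 : 2 * δ ≤ ε := by rw [hδ]; have := min_le_left ε 1; linarith
      rw [← hδ] at h2 ⊢
      have g1 : (n : ℝ) ^ (1 - δ) = (n : ℝ) ^ (1 - 2 * δ) * (n : ℝ) ^ δ := by
        rw [← Real.rpow_add hn0]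
        congr 1
        ring
      have g2 : (n : ℝ) ^ (1 - ε) ≤ (n : ℝ) ^ (1 - 2 * δ) := Real.rpow_le_rpow_of_exponent_le hn1 (by linarith)
      have g3 : 1 ≤ (n : ℝ) ^ (1 - 2 * δ) := Real.one_le_rpow hn1 (by linarith)
      rw [g1]
      have g4 : (0 : ℝ) ≤ N₀ := Nat.cast_nonneg _
      nlinarith
    linarith
  · intro N hN
    rw [mem_filter] at hN
    obtain ⟨hv, hq⟩ := hT2 N hN.1
    obtain ⟨⟨g1, g2⟩, g3⟩ := hN₀ N hN.2
    have hlt := Val2.lt hv
    have hN1 : 1 ≤ N := by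
      rcases Nat.eq_zero_or_pos N with h | h
      · rw [h] at g3
        norm_num at g3
      · exact h
    have hsz := log_size h7 hN1 hlt
    refine ⟨hv, hlt, ?_, ?_⟩
    · refine (low_p hε h7 (by linarith) hsz h3).trans (g2 (fun q hqp hqd => ?_))
      refine lt_of_le_of_lt ?_ (hq q hqp hqd)
      have e1 : Real.log (Real.log N) ≤ Real.log n := (Real.log_le_log (by linarith) hsz).trans h5
      have e0 : 0 < Real.log (Real.log N) := Real.log_pos g3
      have e2 : C * Real.log (Real.log N) ≤ |C| * Real.log n :=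
        (mul_le_mul_of_nonneg_right (le_abs_self C) e0.le).trans (mul_le_mul_of_nonneg_left e1 (abs_nonneg C))
      refine e2.trans ?_
      have e3 : |C| / c ≤ Real.log (Real.log n) / Real.log (Real.log (Real.log n)) := by
        rw [le_div_iff₀ h6]
        exact h4
      calc |C| * Real.log n = c * (Real.log n * (|C| / c)) := by field_simp
        _ ≤ c * (Real.log n * (Real.log (Real.log n) / Real.log (Real.log (Real.log n)))) :=
            mul_le_mul_of_nonneg_left (mul_le_mul_of_nonneg_left e3 (by linarith)) hc.le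
        _ = _ := by ring
    · refine lt_of_le_of_lt g1 ?_
      exact Real.rpow_lt_one_of_one_lt_of_neg g3 (by norm_num)

end Pool.Agent.Q106.IV
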