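import Pool.Agent.Q106.WG.Info

/-!
# Values in random sets of small information: the general upper bound

`V n N`: `N` is a value for `n`; `G n`: the `n` considered; `p`: the probabilities of the model.
-/

set_option autoImplicit false

namespace Pool.Agent.Q106.IV

open Finset MeasureTheory ProbabilityTheory Filter Pool.Agent.Q120.GM
open Pool.Agent.Q120.ET (IsRandomSet lawOn tr mem_tr real_event)
open Pool.Agent.Q120.ME (bern relEnt ind)
open Pool.Agent.Q106.WG (law_bern mem_ind bc_sum lower_tail)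
open Pool.Agent.Q106.UR (nm pT cf ind_zero_or)
open scoped Topology

/-- The integers whose probability is positive and less than `1`. -/
def Un (p : ℕ → ℝ) : Set ℕ := {n | 0 < p n ∧ p n < 1}

/-- Independent events with a large expected number. -/
theorem few_of_many {Ω : Type*} [MeasurableSpace Ω] {μ : Measure Ω} [IsProbabilityMeasure μ] {A : Ω → Set ℕ} {p : ℕ → ℝ}
    (hA : IsModel μ p A) (T : Finset ℕ) {m : ℝ} (hm : m ≤ ∑ N ∈ T, p N) :
    μ.real {ω | (({N | N ∈ T ∧ N ∈ A ω} : Set ℕ).ncard : ℝ) < m / 2} ≤ Real.exp (-(m / 8)) := by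
  classical
  have h1 : ∑ e ∈ cf T (fun N => ({N} : Finset ℕ)), pT p (({e.1} : Finset ℕ) ∪ {e.2}) ≤ 0 * ∑ N ∈ T, pT p ({N} : Finset ℕ) := by
    rw [zero_mul]
    refine le_of_eq (sum_eq_zero (fun e he => ?_))
    exfalso
    unfold cf at he
    rw [mem_filter] at he
    apply he.2.2
    rw [disjoint_singleton]
    exact he.2.1
  have h2 : ∑ N ∈ T, p N = ∑ N ∈ T, pT p ({N} : Finset ℕ) := by
    refine sum_congr rfl (fun N _ => ?_)
    unfold pT
    rw [prod_singleton]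
  have h3 := lower_tail hA T (fun N => ({N} : Finset ℕ)) (m := ∑ N ∈ T, p N) (R := 0) h2 le_rfl (by rw [h2]; exact h1)
    (v := (∑ N ∈ T, p N) / 2) le_rfl
  refine le_trans (measureReal_mono (fun ω hω => ?_) (measure_ne_top _ _)) (h3.trans (Real.exp_le_exp.2 ?_))
  · simp only [Set.mem_ofPred_eq] at hω ⊢
    have h4 : nm A T (fun N => ({N} : Finset ℕ)) ω = (({N | N ∈ T ∧ N ∈ A ω} : Set ℕ).ncard : ℝ) := by
      have h5 : ({N | N ∈ T ∧ N ∈ A ω} : Set ℕ) = ((T.filter (fun N => N ∈ A ω) : Finset ℕ) : Set ℕ) := by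
        ext N
        rw [mem_coe, mem_filter]
        rfl
      rw [h5, Set.ncard_coe_finset, card_filter]
      unfold nm
      push_cast
      refine sum_congr rfl (fun N _ => ?_)
      rcases ind_zero_or (A := A) ({N} : Finset ℕ) ω with h | h
      · rw [h.1, if_neg]
        intro h6
        exact h.2 (fun i hi => by rw [mem_singleton.1 hi]; exact h6)
      · rw [h.1, if_pos]
        exact h.2 N (mem_singleton_self N)
    rw [h4]
    linarith
  · norm_num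
    linarith

/-- An estimate. -/
theorem ev_exp {κ : ℝ} (hκ : 0 < κ) (hκ2 : 3 * κ < 1 / 2) : ∀ᶠ j : ℕ in atTop,
    (4 : ℝ) ^ (j + 1) * Real.exp (-(((4 : ℝ) ^ j) ^ (1 / 2 - 2 * κ) / 8)) ≤ Real.exp (-(((4 : ℝ) ^ j) ^ (1 / 2 - 3 * κ))) := by
  have hu : 0 < 1 / 2 - 3 * κ := by linarith
  have g1 := (isLittleO_log_rpow_atTop (r := 1 / 2 - 3 * κ) hu).def (c := 1) (by norm_num)
  have g0 : Tendsto (fun X : ℝ => X ^ κ) atTop atTop := tendsto_rpow_atTop hκ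
  have g3 : Tendsto (fun X : ℝ => X ^ (1 / 2 - 3 * κ)) atTop atTop := tendsto_rpow_atTop hu
  have g4 := (tendsto_pow_atTop_atTop_of_one_lt (r := (4 : ℝ)) (by norm_num))
  filter_upwards [g4.eventually g1, g4.eventually (g0.eventually_ge_atTop 32), g4.eventually (g3.eventually_ge_atTop 2)] with j h1 h2 h3
  have hx1 : (1 : ℝ) ≤ 4 ^ j := one_le_pow₀ (by norm_num)
  have hx0 : (0 : ℝ) < 4 ^ j := by positivity
  rw [Real.norm_of_nonneg (Real.log_nonneg hx1), Real.norm_of_nonneg (by positivity), one_mul] at h1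
  rw [pow_succ]
  obtain ⟨X, hX⟩ : ∃ X : ℝ, X = 4 ^ j := ⟨_, rfl⟩
  rw [← hX] at h1 h2 h3 hx0 ⊢
  have h4 : X ^ (1 / 2 - 2 * κ) = X ^ κ * X ^ (1 / 2 - 3 * κ) := by
    rw [← Real.rpow_add hx0]
    congr 1
    ring
  obtain ⟨Y, hY⟩ : ∃ Y, Y = X ^ (1 / 2 - 3 * κ) := ⟨_, rfl⟩
  obtain ⟨Z, hZ⟩ : ∃ Z, Z = X ^ κ := ⟨_, rfl⟩
  rw [← hY] at h1 h3 h4 ⊢
  rw [← hZ] at h2 h4
  have h5 : Real.log 4 ≤ 2 := by
    have : Real.log 4 = 2 * Real.log 2 := by
      rw [show (4 : ℝ) = 2 ^ 2 by norm_num, Real.log_pow]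
      push_cast
      ring
    have := Real.log_two_lt_d9
    linarith
  calc X * 4 * Real.exp (-(X ^ (1 / 2 - 2 * κ) / 8)) = Real.exp (Real.log (X * 4)) * Real.exp (-(X ^ (1 / 2 - 2 * κ) / 8)) := by
        rw [Real.exp_log (by positivity)]
    _ = Real.exp (Real.log (X * 4) + -(X ^ (1 / 2 - 2 * κ) / 8)) := (Real.exp_add _ _).symm
    _ ≤ _ := by
        refine Real.exp_le_exp.2 ?_
        rw [Real.log_mul hx0.ne' (by norm_num), h4]
        nlinarith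

/-- The bad event. -/
def Bad (T : ℕ → Finset ℕ) (G : ℕ → Prop) (κ : ℝ) (j : ℕ) (S : Finset ℕ) : Prop :=
  ∃ n ∈ Ico (4 ^ j) (4 ^ (j + 1)), G n ∧ (({N | N ∈ T n ∧ N ∈ (S : Set ℕ)} : Set ℕ).ncard : ℝ) < (n : ℝ) ^ (1 / 2 - 2 * κ) / 2

/-- **Values in random sets of small information.** -/
theorem info_values {V : ℕ → ℕ → Prop} {G : ℕ → Prop} {p : ℕ → ℝ} (hp01 : ∀ n, 0 ≤ p n ∧ p n ≤ 1)
    (hT : ∀ ε : ℝ, 0 < ε → ∀ᶠ n : ℕ in atTop, G n → ∃ T : Finset ℕ, (n : ℝ) ^ (1 - ε) ≤ (T.card : ℝ) ∧ ∀ N ∈ T, V n N ∧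
      N < 2 ^ (2 * Nat.sqrt n + 4) ∧ (n : ℝ) ^ (-(1 / 2) - ε) ≤ p N ∧ p N < 1)
    {θ : ℝ} (hθ0 : 0 ≤ θ) (hθ1 : θ < 1) {ε : ℝ} (hε : 0 < ε) :
    ∀ (Ω : Type) [MeasurableSpace Ω] (μ : Measure Ω) [IsProbabilityMeasure μ] (A : Ω → Set ℕ), IsRandomSet A →
      (∀ᶠ x : ℕ in atTop, relEnt p μ A (ind (Un p) x) ≤ Real.log x ^ θ) →
      ∀ᵐ ω ∂μ, ∀ᶠ n : ℕ in atTop, G n → ∃ T : Finset ℕ, (n : ℝ) ^ (1 / 2 - ε) ≤ (T.card : ℝ) ∧ ∀ N ∈ T, N ∈ A ω ∧ V n N := by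
  classical
  intro Ω _ μ _ A hA hent
  obtain ⟨κ, hκd⟩ : ∃ κ : ℝ, κ = min (ε / 8) ((1 - θ) / 16) := ⟨_, rfl⟩
  have hκ : 0 < κ := by rw [hκd]; exact lt_min (by positivity) (by linarith)
  have hκ1 : κ ≤ ε / 8 := by rw [hκd]; exact min_le_left _ _
  have hκ2 : κ ≤ (1 - θ) / 16 := by rw [hκd]; exact min_le_right _ _
  have hκ3 : 3 * κ < 1 / 2 := by linarith
  obtain ⟨N₀, hN₀⟩ := eventually_atTop.1 ((hT κ hκ).and (eventually_ge_atTop 1))
  have hch : ∀ n : ℕ, ∃ T : Finset ℕ, N₀ ≤ n → G n → (n : ℝ) ^ (1 - κ) ≤ (T.card : ℝ) ∧ ∀ N ∈ T, V n N ∧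
      N < 2 ^ (2 * Nat.sqrt n + 4) ∧ (n : ℝ) ^ (-(1 / 2) - κ) ≤ p N ∧ p N < 1 := by
    intro n
    by_cases h : N₀ ≤ n ∧ G n
    · obtain ⟨T, h2⟩ := (hN₀ n h.1).1 h.2
      exact ⟨T, fun _ _ => h2⟩
    · exact ⟨∅, fun h1 h2 => absurd ⟨h1, h2⟩ h⟩
  choose T hTT using hch
  -- the bad event
  obtain ⟨Bd, hBd⟩ : ∃ Bd : ℕ → Finset ℕ → Prop, Bd = Bad T G κ := ⟨_, rfl⟩
  obtain ⟨F, hF⟩ : ∃ F : ℕ → Finset ℕ, F = fun j => ind (Un p) (2 ^ (2 ^ (j + 3))) := ⟨_, rfl⟩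
  -- a model
  obtain ⟨p', hp'⟩ : ∃ p' : ℕ → ℝ, p' = fun n => if n ∈ Un p then p n else 0 := ⟨_, rfl⟩
  have hp0 : ∀ n, 0 ≤ p' n := by
    intro n
    rw [hp']
    simp only
    split_ifs with h
    · exact (hp01 n).1
    · exact le_rfl
  have hp1 : ∀ n, p' n ≤ 1 := by
    intro n
    rw [hp']
    simp only
    split_ifs with h
    · exact (hp01 n).2
    · exact zero_le_one
  have hM := isModel p' hp0 hp1
  obtain ⟨A', hAd⟩ : ∃ A, A = trueSet (ι := ℕ) := ⟨_, rfl⟩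
  obtain ⟨ν, hν⟩ : ∃ ν, ν = prodMeasure p' := ⟨_, rfl⟩
  haveI : IsProbabilityMeasure ν := by rw [hν]; infer_instance
  rw [← hAd, ← hν] at hM
  have hin : ∀ j n, N₀ ≤ n → G n → n < 4 ^ (j + 1) → ∀ N ∈ T n, N ∈ F j := by
    intro j n h1 h2 h3 N hN
    obtain ⟨_, g2, g3, g4⟩ := (hTT n h1 h2).2 N hN
    have hn1 : 1 ≤ n := (hN₀ n h1).2
    have hn0 : (0 : ℝ) < n := by exact_mod_cast hn1
    rw [hF, mem_ind]
    refine ⟨g2.trans_le (Nat.pow_le_pow_right (by norm_num) ?_), lt_of_lt_of_le (by positivity) g3, g4⟩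
    have h5 : Nat.sqrt n < 2 ^ (j + 1) := by
      rw [Nat.sqrt_lt]
      calc n < 4 ^ (j + 1) := h3
        _ = 2 ^ (j + 1) * 2 ^ (j + 1) := by rw [← mul_pow]; norm_num
    have h6 : 2 ^ (j + 3) = 4 * 2 ^ (j + 1) := by ring
    have h7 : 2 ≤ 2 ^ (j + 1) := by
      calc 2 = 2 ^ 1 := by norm_num
        _ ≤ 2 ^ (j + 1) := Nat.pow_le_pow_right (by norm_num) (by omega)
    omega
  have href : ∀ᶠ j : ℕ in atTop, ∑ S ∈ (F j).powerset with Bd j S, bern p (F j) S ≤ Real.exp (-(((4 : ℝ) ^ j) ^ (1 / 2 - 3 * κ))) := by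
    filter_upwards [ev_exp hκ hκ3, eventually_ge_atTop N₀] with j h1 h2
    have hFU : ∀ n ∈ F j, p' n = p n := by
      intro n hn
      rw [hF, mem_ind] at hn
      rw [hp']
      simp only
      rw [if_pos hn.2]
    have hsum : ∑ S ∈ (F j).powerset with Bd j S, bern p (F j) S = ν.real {ω | Bd j (tr A' (F j) ω)} := by
      rw [real_event (fun n => hM.meas n) (F j) (Bd j)]
      refine sum_congr rfl (fun S hS => ?_)
      rw [mem_filter, mem_powerset] at hS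
      exact (law_bern hM hFU hS.1).symm
    rw [hsum]
    obtain ⟨B, hB⟩ : ∃ B : ℕ → Set (ℕ → Bool), B = fun n => {ω | G n ∧
        (({N | N ∈ T n ∧ N ∈ A' ω} : Set ℕ).ncard : ℝ) < (n : ℝ) ^ (1 / 2 - 2 * κ) / 2} := ⟨_, rfl⟩
    have hincl : {ω | Bd j (tr A' (F j) ω)} ⊆ ⋃ n ∈ Ico (4 ^ j) (4 ^ (j + 1)), B n := by
      intro ω h
      simp only [Set.mem_ofPred_eq] at h
      rw [hBd] at h
      obtain ⟨n, hn, g1, g2⟩ := h
      rw [Set.mem_iUnion₂]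
      refine ⟨n, hn, ?_⟩
      rw [hB]
      refine ⟨g1, lt_of_eq_of_lt ?_ g2⟩
      congr 2
      ext N
      simp only [Set.mem_ofPred_eq, mem_coe, mem_tr]
      rw [mem_Ico] at hn
      have hnN : N₀ ≤ n := h2.trans ((Nat.lt_pow_self (by norm_num)).le.trans hn.1)
      constructor
      · rintro ⟨a1, a2⟩
        exact ⟨a1, hin j n hnN g1 hn.2 N a1, a2⟩
      · rintro ⟨a1, _, a2⟩
        exact ⟨a1, a2⟩
    refine (measureReal_mono hincl (measure_ne_top _ _)).trans ((measureReal_biUnion_finset_le _ _).trans ?_)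
    have hterm : ∀ n ∈ Ico (4 ^ j) (4 ^ (j + 1)), ν.real (B n) ≤ Real.exp (-(((4 : ℝ) ^ j) ^ (1 / 2 - 2 * κ) / 8)) := by
      intro n hn
      rw [mem_Ico] at hn
      have hnN : N₀ ≤ n := h2.trans ((Nat.lt_pow_self (by norm_num)).le.trans hn.1)
      have hn1 : 1 ≤ n := (hN₀ n hnN).2
      have hn0 : (0 : ℝ) < n := by exact_mod_cast hn1
      by_cases hs : G n
      · obtain ⟨g1, g2⟩ := hTT n hnN hs
        have hm : (n : ℝ) ^ (1 / 2 - 2 * κ) ≤ ∑ N ∈ T n, p' N := by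
          calc (n : ℝ) ^ (1 / 2 - 2 * κ) = (n : ℝ) ^ (1 - κ) * (n : ℝ) ^ (-(1 / 2) - κ) := by
                rw [← Real.rpow_add hn0]
                congr 1
                ring
            _ ≤ (T n).card * (n : ℝ) ^ (-(1 / 2) - κ) := mul_le_mul_of_nonneg_right g1 (by positivity)
            _ = ∑ _N ∈ T n, (n : ℝ) ^ (-(1 / 2) - κ) := by rw [sum_const, nsmul_eq_mul]
            _ ≤ ∑ N ∈ T n, p' N := by
                refine sum_le_sum (fun N hN => ?_)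
                rw [hFU N (hin j n hnN hs hn.2 N hN)]
                exact (g2 N hN).2.2.1
        have g3 := few_of_many hM (T n) hm
        refine le_trans (measureReal_mono ?_ (measure_ne_top _ _)) (g3.trans (Real.exp_le_exp.2 (neg_le_neg ?_)))
        · intro ω hω
          rw [hB] at hω
          exact hω.2
        · refine div_le_div_of_nonneg_right ?_ (by norm_num)
          refine Real.rpow_le_rpow (by positivity) ?_ (by linarith)
          exact_mod_cast hn.1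
      · have g1 : B n = ∅ := by
          rw [hB]
          ext ω
          simp only [Set.mem_ofPred_eq, Set.mem_empty_iff_false, iff_false]
          exact fun h => hs h.1
        rw [g1, measureReal_empty]
        exact (Real.exp_pos _).le
    refine (sum_le_sum hterm).trans (le_trans ?_ h1)
    rw [sum_const, Nat.card_Ico, nsmul_eq_mul]
    refine mul_le_mul_of_nonneg_right ?_ (Real.exp_pos _).le
    have : 4 ^ (j + 1) - 4 ^ j ≤ 4 ^ (j + 1) := Nat.sub_le _ _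
    exact_mod_cast this
  -- the sum
  have hgeo : Summable (fun j : ℕ => 9 * ((2 : ℝ) ^ (θ - 1 + 6 * κ)) ^ j) := by
    refine (summable_geometric_of_lt_one (by positivity) ?_).mul_left 9
    refine Real.rpow_lt_one_of_one_lt_of_neg (by norm_num) (by linarith)
  have hx2 : Tendsto (fun j : ℕ => 2 ^ (2 ^ (j + 3))) atTop atTop := by
    have h1 : Tendsto (fun j : ℕ => 2 ^ j) atTop atTop := tendsto_pow_atTop_atTop_of_one_lt (by norm_num : 1 < 2)
    exact h1.comp (h1.comp (tendsto_add_atTop_nat 3))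
  have hbc := bc_sum (μ := μ) (E := fun j => {ω | Bd j (tr A (F j) ω)}) hgeo (by
    filter_upwards [href, hx2.eventually hent] with j h1 h2
    have hFj : F j = ind (Un p) (2 ^ (2 ^ (j + 3))) := by rw [hF]
    have h3 := (Pool.Agent.Q184.ME.t_EVT Pool.Agent.Q26.ME.t_DV p (F j)
      (fun n hn => by rw [hFj] at hn; exact (mem_ind.1 hn).2) Ω μ A hA).2 (Bd j) (((4 : ℝ) ^ j) ^ (1 / 2 - 3 * κ)) h1
    rw [← hFj] at h2
    have hlog : Real.log 2 ≤ 1 := by have := Real.log_two_lt_d9; linarith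
    have e1 : Real.log ((2 ^ (2 ^ (j + 3)) : ℕ) : ℝ) ≤ 8 * 2 ^ j := by
      push_cast
      rw [Real.log_pow]
      have e2 : (((2 ^ (j + 3) : ℕ) : ℝ)) = 8 * 2 ^ j := by push_cast; ring
      rw [e2]
      have : (0 : ℝ) < 8 * 2 ^ j := by positivity
      nlinarith
    have e2 : Real.log ((2 ^ (2 ^ (j + 3)) : ℕ) : ℝ) ^ θ ≤ 8 * ((2 : ℝ) ^ j) ^ θ := by
      calc Real.log ((2 ^ (2 ^ (j + 3)) : ℕ) : ℝ) ^ θ ≤ (8 * 2 ^ j) ^ θ :=
            Real.rpow_le_rpow (Real.log_natCast_nonneg _) e1 hθ0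
        _ = (8 : ℝ) ^ θ * ((2 : ℝ) ^ j) ^ θ := Real.mul_rpow (by norm_num) (by positivity)
        _ ≤ 8 * ((2 : ℝ) ^ j) ^ θ := by
            refine mul_le_mul_of_nonneg_right ?_ (by positivity)
            calc (8 : ℝ) ^ θ ≤ (8 : ℝ) ^ (1 : ℝ) := Real.rpow_le_rpow_of_exponent_le (by norm_num) hθ1.le
              _ = 8 := Real.rpow_one _
    have e3 : (1 : ℝ) ≤ ((2 : ℝ) ^ j) ^ θ := Real.one_le_rpow (one_le_pow₀ (by norm_num)) hθ0
    have hX : (0 : ℝ) < ((4 : ℝ) ^ j) ^ (1 / 2 - 3 * κ) := by positivity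
    have h4 : μ.real {ω | Bd j (tr A (F j) ω)} * ((4 : ℝ) ^ j) ^ (1 / 2 - 3 * κ) ≤ 9 * ((2 : ℝ) ^ j) ^ θ := by linarith
    rw [← le_div_iff₀ hX] at h4
    refine h4.trans (le_of_eq ?_)
    have e4 : ((4 : ℝ) ^ j) ^ (1 / 2 - 3 * κ) = ((2 : ℝ) ^ j) ^ (1 - 6 * κ) := by
      rw [show (4 : ℝ) ^ j = ((2 : ℝ) ^ j) ^ (2 : ℝ) by
        rw [← Real.rpow_natCast, ← Real.rpow_natCast, ← Real.rpow_mul (by norm_num),
          show (4 : ℝ) = (2 : ℝ) ^ (2 : ℝ) by norm_num, ← Real.rpow_mul (by norm_num)]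
        congr 1
        ring, ← Real.rpow_mul (by positivity)]
      congr 1
      ring
    rw [e4, mul_div_assoc, ← Real.rpow_sub (by positivity), ← Real.rpow_natCast, ← Real.rpow_mul (by norm_num),
      ← Real.rpow_natCast, ← Real.rpow_mul (by norm_num)]
    congr 2
    ring)
  filter_upwards [hbc] with ω hω
  obtain ⟨J, hJ⟩ := eventually_atTop.1 hω
  have t1 : Tendsto (fun n : ℕ => (n : ℝ) ^ (ε - 2 * κ)) atTop atTop :=
    (tendsto_rpow_atTop (by linarith)).comp tendsto_natCast_atTop_atTop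
  filter_upwards [eventually_ge_atTop (4 ^ J), eventually_ge_atTop N₀, t1.eventually_ge_atTop 2] with n h1 h2 h3 hG
  have hn1 : 1 ≤ n := (hN₀ n h2).2
  have hn0 : (0 : ℝ) < n := by exact_mod_cast hn1
  refine ⟨(T n).filter (fun N => N ∈ A ω), ?_, fun N hN => ?_⟩
  · by_contra hcon
    push Not at hcon
    obtain ⟨j, hj⟩ : ∃ j, j = Nat.log 4 n := ⟨_, rfl⟩
    have hj1 : J ≤ j := by
      rw [hj]
      exact Nat.le_log_of_pow_le (by norm_num) h1
    have hj2 : 4 ^ j ≤ n := by rw [hj]; exact Nat.pow_log_le_self 4 (by omega)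
    have hj3 : n < 4 ^ (j + 1) := by rw [hj]; exact Nat.lt_pow_succ_log_self (by norm_num) n
    refine hJ j hj1 ?_
    show Bd j (tr A (F j) ω)
    rw [hBd]
    refine ⟨n, mem_Ico.2 ⟨hj2, hj3⟩, hG, ?_⟩
    have h4 : ({N | N ∈ T n ∧ N ∈ ((tr A (F j) ω : Finset ℕ) : Set ℕ)} : Set ℕ) =
        (((T n).filter (fun N => N ∈ A ω) : Finset ℕ) : Set ℕ) := by
      ext N
      simp only [Set.mem_ofPred_eq, mem_coe, mem_tr, mem_filter]
      constructor
      · rintro ⟨a1, _, a2⟩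
        exact ⟨a1, a2⟩
      · rintro ⟨a1, a2⟩
        exact ⟨a1, hin j n h2 hG hj3 N a1, a2⟩
    rw [h4, Set.ncard_coe_finset]
    refine lt_of_lt_of_le hcon ?_
    have h5 : (n : ℝ) ^ (1 / 2 - 2 * κ) = (n : ℝ) ^ (1 / 2 - ε) * (n : ℝ) ^ (ε - 2 * κ) := by
      rw [← Real.rpow_add hn0]
      congr 1
      ring
    rw [h5]
    have h6 : 0 < (n : ℝ) ^ (1 / 2 - ε) := by positivity
    nlinarith
  · rw [mem_filter] at hN
    exact ⟨hN.2, ((hTT n h2 hG).2 N hN.1).1⟩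

end Pool.Agent.Q106.IV
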