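import Pool.Agent.Q106.IV.Up
import Pool.Agent.Q197.SP.R504

/-!
# Windows of random sets of small information
-/

set_option autoImplicit false

namespace Pool.Agent.Q106.IV

open Finset MeasureTheory ProbabilityTheory Filter Pool.Agent.Q120.GM
open Pool.Agent.Q120.ET (IsRandomSet lawOn tr mem_tr real_event)
open Pool.Agent.Q120.ME (bern relEnt ind)
open Pool.Agent.Q106.WG (law_bern mem_ind bc_sum lower_tail)
open Pool.Agent.Q106.UR (nm pT cf ind_zero_or)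
open scoped Topology

/-- Disjoint tests in independent sets. -/
theorem few_of_tests {Ω : Type*} [MeasurableSpace Ω] {μ : Measure Ω} [IsProbabilityMeasure μ] {A : Ω → Set ℕ} {p : ℕ → ℝ}
    (hA : IsModel μ p A) (J : Finset ℕ) (T : ℕ → Finset ℕ) (hd : ∀ m ∈ J, ∀ m' ∈ J, m ≠ m' → Disjoint (T m) (T m'))
    {m : ℝ} (hm : m ≤ ∑ j ∈ J, pT p (T j)) :
    μ.real {ω | (({j | j ∈ J ∧ ∀ a ∈ T j, a ∈ A ω} : Set ℕ).ncard : ℝ) < m / 2} ≤ Real.exp (-(m / 8)) := by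
  classical
  have h1 : ∑ e ∈ cf J T, pT p (T e.1 ∪ T e.2) ≤ 0 * ∑ j ∈ J, pT p (T j) := by
    rw [zero_mul]
    refine le_of_eq (sum_eq_zero (fun e he => ?_))
    exfalso
    unfold cf at he
    rw [mem_filter, mem_product] at he
    exact he.2.2 (hd _ he.1.1 _ he.1.2 he.2.1)
  have h3 := lower_tail hA J T (m := ∑ j ∈ J, pT p (T j)) (R := 0) rfl le_rfl h1 (v := (∑ j ∈ J, pT p (T j)) / 2) le_rfl
  refine le_trans (measureReal_mono (fun ω hω => ?_) (measure_ne_top _ _)) (h3.trans (Real.exp_le_exp.2 ?_))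
  · simp only [Set.mem_ofPred_eq] at hω ⊢
    have h4 : nm A J T ω = (({j | j ∈ J ∧ ∀ a ∈ T j, a ∈ A ω} : Set ℕ).ncard : ℝ) := by
      have h5 : ({j | j ∈ J ∧ ∀ a ∈ T j, a ∈ A ω} : Set ℕ) = ((J.filter (fun j => ∀ a ∈ T j, a ∈ A ω) : Finset ℕ) : Set ℕ) := by
        ext N
        rw [mem_coe, mem_filter]
        rfl
      rw [h5, Set.ncard_coe_finset, card_filter]
      unfold nm
      push_cast
      refine sum_congr rfl (fun N _ => ?_)
      rcases ind_zero_or (A := A) (T N) ω with h | h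
      · rw [h.1, if_neg]
        intro h6
        exact h.2 h6
      · rw [h.1, if_pos]
        exact h.2
    rw [h4]
    linarith
  · norm_num
    linarith

/-- **Disjoint tests in random sets of small information.** -/
theorem info_tests {p : ℕ → ℝ} (hp01 : ∀ n, 0 ≤ p n ∧ p n ≤ 1) {P : ℕ → Finset ℕ} {T : ℕ → Finset ℕ} {κ θ : ℝ}
    (hθ0 : 0 ≤ θ) (hθκ : θ < 1 - 2 * κ)
    (h : ∀ᶠ j : ℕ in atTop, ((2 : ℝ) ^ j) ^ (1 - κ) ≤ ((P j).card : ℝ) ∧
      (∀ m ∈ P j, ∀ m' ∈ P j, m ≠ m' → Disjoint (T m) (T m')) ∧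
      ∀ m ∈ P j, (∀ a ∈ T m, a < 2 ^ (j + 2) ∧ a ∈ Un p) ∧ ((2 : ℝ) ^ j) ^ (-κ) ≤ pT p (T m)) :
    ∀ (Ω : Type) [MeasurableSpace Ω] (μ : Measure Ω) [IsProbabilityMeasure μ] (A : Ω → Set ℕ), IsRandomSet A →
      (∀ᶠ x : ℕ in atTop, relEnt p μ A (ind (Un p) x) ≤ (x : ℝ) ^ θ) →
      ∀ᵐ ω ∂μ, ∀ᶠ j : ℕ in atTop,
        ((2 : ℝ) ^ j) ^ (1 - 2 * κ) / 2 ≤ (({m | m ∈ P j ∧ ∀ a ∈ T m, a ∈ A ω} : Set ℕ).ncard : ℝ) := by
  classical
  intro Ω _ μ _ A hA hent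
  obtain ⟨N₀, hN₀⟩ := eventually_atTop.1 h
  -- the bad event
  obtain ⟨Bd, hBd⟩ : ∃ Bd : ℕ → Finset ℕ → Prop, Bd = fun (j : ℕ) (S : Finset ℕ) =>
      (({m | m ∈ P j ∧ ∀ a ∈ T m, a ∈ (S : Set ℕ)} : Set ℕ).ncard : ℝ) < ((2 : ℝ) ^ j) ^ (1 - 2 * κ) / 2 := ⟨_, rfl⟩
  obtain ⟨F, hF⟩ : ∃ F : ℕ → Finset ℕ, F = fun j => ind (Un p) (2 ^ (j + 2)) := ⟨_, rfl⟩
  -- a model
  obtain ⟨p', hp'⟩ : ∃ p' : ℕ → ℝ, p' = fun n => if n ∈ Un p then p n else 0 := ⟨_, rfl⟩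
  have hp0 : ∀ n, 0 ≤ p' n := by
    intro n
    rw [hp']
    simp only
    split_ifs with h
    · exact (hp01 n).1
    · exact le_rfl
  have hp1 : ∀ n, p' n ≤ 1 := by
    intro n
    rw [hp']
    simp only
    split_ifs with h
    · exact (hp01 n).2
    · exact zero_le_one
  have hM := isModel p' hp0 hp1
  obtain ⟨A', hAd⟩ : ∃ A, A = trueSet (ι := ℕ) := ⟨_, rfl⟩
  obtain ⟨ν, hν⟩ : ∃ ν, ν = prodMeasure p' := ⟨_, rfl⟩
  haveI : IsProbabilityMeasure ν := by rw [hν]; infer_instance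
  rw [← hAd, ← hν] at hM
  have hin : ∀ j, N₀ ≤ j → ∀ m ∈ P j, ∀ a ∈ T m, a ∈ F j := by
    intro j h1 m hm a ha
    obtain ⟨g1, g2⟩ := ((hN₀ j h1).2.2 m hm).1 a ha
    rw [hF, mem_ind]
    exact ⟨g1, g2⟩
  -- restriction to `F j`
  have hres : ∀ (j : ℕ) (B : Set ℕ) (S : Finset ℕ), N₀ ≤ j → (∀ a ∈ F j, (a ∈ S ↔ a ∈ B)) →
      ({m | m ∈ P j ∧ ∀ a ∈ T m, a ∈ (S : Set ℕ)} : Set ℕ) = {m | m ∈ P j ∧ ∀ a ∈ T m, a ∈ B} := by
    intro j B S hj hS
    ext m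
    simp only [Set.mem_ofPred_eq, mem_coe]
    constructor
    · rintro ⟨a1, a2⟩
      exact ⟨a1, fun a ha => (hS a (hin j hj m a1 a ha)).1 (a2 a ha)⟩
    · rintro ⟨a1, a2⟩
      exact ⟨a1, fun a ha => (hS a (hin j hj m a1 a ha)).2 (a2 a ha)⟩
  have href : ∀ᶠ j : ℕ in atTop, ∑ S ∈ (F j).powerset with Bd j S, bern p (F j) S ≤
      Real.exp (-(((2 : ℝ) ^ j) ^ (1 - 2 * κ) / 8)) := by
    filter_upwards [eventually_ge_atTop N₀] with j h2
    have hFU : ∀ n ∈ F j, p' n = p n := by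
      intro n hn
      rw [hF, mem_ind] at hn
      rw [hp']
      simp only
      rw [if_pos hn.2]
    have hsum : ∑ S ∈ (F j).powerset with Bd j S, bern p (F j) S = ν.real {ω | Bd j (tr A' (F j) ω)} := by
      rw [real_event (fun n => hM.meas n) (F j) (Bd j)]
      refine sum_congr rfl (fun S hS => ?_)
      rw [mem_filter, mem_powerset] at hS
      exact (law_bern hM hFU hS.1).symm
    rw [hsum]
    obtain ⟨k1, k2, k3⟩ := hN₀ j h2
    have hm : ((2 : ℝ) ^ j) ^ (1 - 2 * κ) ≤ ∑ m ∈ P j, pT p' (T m) := by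
      calc ((2 : ℝ) ^ j) ^ (1 - 2 * κ) = ((2 : ℝ) ^ j) ^ (1 - κ) * ((2 : ℝ) ^ j) ^ (-κ) := by
            rw [← Real.rpow_add (by positivity)]
            congr 1
            ring
        _ ≤ (P j).card * ((2 : ℝ) ^ j) ^ (-κ) := mul_le_mul_of_nonneg_right k1 (by positivity)
        _ = ∑ _m ∈ P j, ((2 : ℝ) ^ j) ^ (-κ) := by rw [sum_const, nsmul_eq_mul]
        _ ≤ ∑ m ∈ P j, pT p' (T m) := by
            refine sum_le_sum (fun m hm => ?_)
            have e1 : pT p' (T m) = pT p (T m) := prod_congr rfl (fun a ha => hFU a (hin j h2 m hm a ha))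
            rw [e1]
            exact (k3 m hm).2
    refine le_trans (measureReal_mono (fun ω hω => ?_) (measure_ne_top _ _)) (few_of_tests hM (P j) T k2 hm)
    have hω' : Bd j (tr A' (F j) ω) := hω
    rw [hBd] at hω'
    rw [hres j (A' ω) (tr A' (F j) ω) h2 (fun a ha => by rw [mem_tr]; exact ⟨fun h => h.2, fun h => ⟨ha, h⟩⟩)] at hω'
    exact hω'
  -- the sum
  have hx2 : Tendsto (fun j : ℕ => 2 ^ (j + 2)) atTop atTop := by
    have h1 : Tendsto (fun j : ℕ => 2 ^ j) atTop atTop := tendsto_pow_atTop_atTop_of_one_lt (by norm_num : 1 < 2)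
    exact h1.comp (tendsto_add_atTop_nat 2)
  obtain ⟨K, hK⟩ : ∃ K : ℝ, K = 4 ^ θ + 1 := ⟨_, rfl⟩
  have hgeo' : Summable (fun j : ℕ => 8 * K * ((2 : ℝ) ^ (θ - (1 - 2 * κ))) ^ j) := by
    refine (summable_geometric_of_lt_one (by positivity) ?_).mul_left _
    refine Real.rpow_lt_one_of_one_lt_of_neg (by norm_num) (by linarith)
  have hbc := bc_sum (μ := μ) (E := fun j => {ω | Bd j (tr A (F j) ω)}) hgeo' (by
    filter_upwards [href, hx2.eventually hent] with j h1 h2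
    have hFj : F j = ind (Un p) (2 ^ (j + 2)) := by rw [hF]
    have h3 := (Pool.Agent.Q184.ME.t_EVT Pool.Agent.Q26.ME.t_DV p (F j)
      (fun n hn => by rw [hFj] at hn; exact (mem_ind.1 hn).2) Ω μ A hA).2 (Bd j) (((2 : ℝ) ^ j) ^ (1 - 2 * κ) / 8) h1
    rw [← hFj] at h2
    have hlog : Real.log 2 ≤ 1 := by have := Real.log_two_lt_d9; linarith
    have e2 : (((2 ^ (j + 2) : ℕ)) : ℝ) ^ θ = (4 : ℝ) ^ θ * ((2 : ℝ) ^ j) ^ θ := by
      rw [← Real.mul_rpow (by norm_num) (by positivity)]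
      congr 1
      push_cast
      ring
    have e3 : (1 : ℝ) ≤ ((2 : ℝ) ^ j) ^ θ := Real.one_le_rpow (one_le_pow₀ (by norm_num)) hθ0
    have hX : (0 : ℝ) < ((2 : ℝ) ^ j) ^ (1 - 2 * κ) := by positivity
    have h4 : μ.real {ω | Bd j (tr A (F j) ω)} * (((2 : ℝ) ^ j) ^ (1 - 2 * κ) / 8) ≤ K * ((2 : ℝ) ^ j) ^ θ := by
      rw [hK]
      rw [e2] at h2
      nlinarith
    have h5 : μ.real {ω | Bd j (tr A (F j) ω)} ≤ 8 * K * (((2 : ℝ) ^ j) ^ θ / ((2 : ℝ) ^ j) ^ (1 - 2 * κ)) := by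
      rw [← mul_div_assoc, le_div_iff₀ hX]
      linarith
    refine h5.trans (le_of_eq ?_)
    rw [← Real.rpow_sub (by positivity), ← Real.rpow_natCast, ← Real.rpow_mul (by norm_num),
      ← Real.rpow_natCast, ← Real.rpow_mul (by norm_num)]
    congr 2
    ring)
  filter_upwards [hbc] with ω hω
  filter_upwards [hω, eventually_ge_atTop N₀] with j h1 h2
  by_contra hcon
  push Not at hcon
  apply h1
  show Bd j (tr A (F j) ω)
  rw [hBd]
  simp only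
  rw [hres j (A ω) (tr A (F j) ω) h2 (fun a ha => by rw [mem_tr]; exact ⟨fun h => h.2, fun h => ⟨ha, h⟩⟩)]
  exact hcon

open Pool.Agent.Q197.FM (pattern_rough mod_ne two_mul_rpow_le exists_max rho rho_ge window_ge freq_of_count)
open Pool.Agent.Y879.PR (Adm Rh)

/-- Probabilities `n ^ (-o(1))` on the `n` without prime factors `≤ z n = n ^ o(1)`, and at most `1 / 2` on all large `n`. -/
structure Mod (z p : ℕ → ℝ) : Prop where
  range : ∀ n, 0 ≤ p n ∧ p n ≤ 1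
  level : ∀ ε : ℝ, 0 < ε → ∀ᶠ n : ℕ in atTop, z n ≤ (n : ℝ) ^ ε
  upper : ∀ᶠ n : ℕ in atTop, p n ≤ 1 / 2
  lower : ∀ ε : ℝ, 0 < ε → ∀ᶠ n : ℕ in atTop, (∀ q : ℕ, q.Prime → q ∣ n → z n < q) → (n : ℝ) ^ (-ε) ≤ p n

/-- **Patterns in random sets of small information.** -/
theorem info_pattern {z p : ℕ → ℝ} (hp : Mod z p) {k y : ℕ} {h : Fin k → ℕ} (hk : 2 ≤ k) (hy3 : 3 ≤ y)
    (hinj : Function.Injective h) (hy : ∀ i, h i < y) (h0 : ∃ i, h i = 0) (hadm : ∀ q : ℕ, q.Prime → ∃ a : ℕ, ∀ i, ¬ q ∣ a + h i)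
    {θ : ℝ} (hθ0 : 0 ≤ θ) (hθ1 : θ < 1) (ε : ℝ) (hε : 0 < ε) :
    ∀ (Ω : Type) [MeasurableSpace Ω] (μ : Measure Ω) [IsProbabilityMeasure μ] (A : Ω → Set ℕ), IsRandomSet A →
      (∀ᶠ x : ℕ in atTop, relEnt p μ A (ind (Un p) x) ≤ (x : ℝ) ^ θ) →
      ∀ᵐ ω ∂μ, ∀ᶠ X : ℕ in atTop, ∃ P : Finset ℕ, (X : ℝ) ^ (1 - ε) ≤ P.card ∧
        ∀ m ∈ P, 1 ≤ m ∧ m ≤ X ∧ ∀ i, m + h i ∈ A ω := by
  classical
  intro Ω _ μ _ A hA hent
  obtain ⟨κ, hκd⟩ : ∃ κ : ℝ, κ = min (min (ε / 4) ((1 - θ) / 4)) (1 / 4) := ⟨_, rfl⟩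
  have hκ : 0 < κ := by rw [hκd]; exact lt_min (lt_min (by positivity) (by linarith)) (by norm_num)
  have hκ1 : κ ≤ ε / 4 := by rw [hκd]; exact (min_le_left _ _).trans (min_le_left _ _)
  have hκ2 : κ ≤ (1 - θ) / 4 := by rw [hκd]; exact (min_le_left _ _).trans (min_le_right _ _)
  have hκ3 : κ ≤ 1 / 4 := by rw [hκd]; exact min_le_right _ _
  obtain ⟨i0, hi0⟩ := id h0
  obtain ⟨r, hr2, hr⟩ := pattern_rough hk hy3 hinj hy h0 hadm i0 κ hκ
  obtain ⟨N₀, hN₀⟩ := hr r le_rfl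
  have hP' : ∀ j : ℕ, ∃ P : Finset ℕ, N₀ ≤ 2 ^ j → (((2 ^ j : ℕ) : ℝ)) ^ (1 - κ) ≤ P.card ∧ (∀ m ∈ P, ∀ m' ∈ P, m % y = m' % y) ∧
        ∀ m ∈ P, 2 ^ j ≤ 2 * m ∧ m ≤ 2 ^ j ∧ (m + h i0).Prime ∧
          ∀ q : ℕ, q.Prime → (q : ℝ) ≤ (((2 ^ j : ℕ) : ℝ)) ^ (1 / (r : ℝ)) → ∀ i, ¬ q ∣ m + h i := by
    intro j
    by_cases hN : N₀ ≤ 2 ^ j
    · obtain ⟨P, hP⟩ := hN₀ (2 ^ j) hN
      exact ⟨P, fun _ => hP⟩
    · exact ⟨∅, fun h => absurd h hN⟩
  choose P hPP using hP'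
  have hkr : (0 : ℝ) < k := by exact_mod_cast (show 0 < k by omega)
  have hrr : (0 : ℝ) < r := by exact_mod_cast (show 0 < r by omega)
  obtain ⟨n1, hn1⟩ := eventually_atTop.1 (hp.level (1 / (2 * r : ℝ)) (by positivity))
  obtain ⟨n2, hn2⟩ := eventually_atTop.1 (hp.lower (κ / (2 * k)) (by positivity))
  obtain ⟨n3, hn3⟩ := eventually_atTop.1 hp.upper
  have hpow : Tendsto (fun j : ℕ => 2 ^ j) atTop atTop := tendsto_pow_atTop_atTop_of_one_lt (by norm_num : 1 < 2)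
  have hmain := info_tests hp.range (P := P) (T := fun m => univ.image (fun i => m + h i)) (κ := κ) (θ := θ) hθ0 (by linarith) (by
    filter_upwards [hpow.eventually_ge_atTop (N₀ + 2 * n1 + 2 * n2 + 2 * n3 + 2 * y + 2), eventually_ge_atTop 1] with j hj hj1
    obtain ⟨g1, g2, g3⟩ := hPP j (by omega)
    refine ⟨?_, fun m hm m' hm' hne => ?_, fun m hm => ?_⟩
    · push_cast at g1
      exact g1
    · rw [disjoint_left]
      intro a ha hb
      rw [mem_image] at ha hb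
      obtain ⟨i, _, hi⟩ := ha
      obtain ⟨i', _, hi'⟩ := hb
      exact hne (mod_ne (g2 m hm m' hm') (hy i) (hy i') (hi.trans hi'.symm))
    · obtain ⟨g4, g5, _, g6⟩ := g3 m hm
      have hN0 : (0 : ℝ) < ((2 ^ j : ℕ) : ℝ) := by positivity
      have hone : ∀ i : Fin k, (((2 ^ j : ℕ) : ℝ)) ^ (-(κ / k)) ≤ p (m + h i) := by
        intro i
        have hyi := hy i
        have ha1 : m + h i ≤ 2 * 2 ^ j := by omega
        have h1 : ((m + h i : ℕ) : ℝ) ^ (-(κ / (2 * k))) ≤ p (m + h i) := by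
          refine hn2 (m + h i) (by omega) (fun q hq hqd => ?_)
          by_contra hcon
          push Not at hcon
          have h2 := hn1 (m + h i) (by omega)
          have h3 := two_mul_rpow_le (N := 2 ^ j) (a := m + h i) (r := r) (by omega) (by omega) ha1
          exact g6 q hq (hcon.trans (h2.trans h3)) i hqd
        refine le_trans ?_ h1
        have h4 : ((m + h i : ℕ) : ℝ) ≤ (((2 ^ j : ℕ) : ℝ)) ^ (2 : ℝ) := by
          rw [Real.rpow_two]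
          have h5 : m + h i ≤ (2 ^ j) ^ 2 := by
            have h6 : 2 ≤ 2 ^ j := by
              calc 2 = 2 ^ 1 := by norm_num
                _ ≤ 2 ^ j := Nat.pow_le_pow_right (by norm_num) hj1
            nlinarith
          exact_mod_cast h5
        have h7 : (0 : ℝ) < ((m + h i : ℕ) : ℝ) := by exact_mod_cast (show 0 < m + h i by omega)
        calc (((2 ^ j : ℕ) : ℝ)) ^ (-(κ / k)) = ((((2 ^ j : ℕ) : ℝ)) ^ (2 : ℝ)) ^ (-(κ / (2 * k))) := by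
              rw [← Real.rpow_mul hN0.le]
              congr 1
              field_simp
          _ ≤ _ := Real.rpow_le_rpow_of_nonpos h7 h4 (by
              have : 0 < κ / (2 * k) := by positivity
              linarith)
      refine ⟨fun a ha => ?_, ?_⟩
      · rw [mem_image] at ha
        obtain ⟨i, _, rfl⟩ := ha
        have hyi := hy i
        have e1 : 2 ^ (j + 2) = 4 * 2 ^ j := by ring
        refine ⟨by omega, lt_of_lt_of_le (by positivity) (hone i), ?_⟩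
        have := hn3 (m + h i) (by omega)
        linarith
      · unfold pT
        rw [prod_image (fun i _ i' _ hij => hinj (by simpa using hij))]
        calc ((2 : ℝ) ^ j) ^ (-κ) = ∏ _i : Fin k, (((2 ^ j : ℕ) : ℝ)) ^ (-(κ / k)) := by
              have e5 : -(κ / (k : ℝ)) * (k : ℝ) = -κ := by
                have : (k : ℝ) ≠ 0 := by positivity
                field_simp
              have e6 : (((2 ^ j : ℕ) : ℝ)) = (2 : ℝ) ^ j := by push_cast; rfl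
              rw [prod_const, card_univ, Fintype.card_fin, e6, ← Real.rpow_mul_natCast (by positivity) (-(κ / (k : ℝ))) k, e5]
          _ ≤ _ := prod_le_prod (fun _ _ => by positivity) (fun i _ => hone i)) Ω μ A hA hent
  filter_upwards [hmain] with ω h1
  obtain ⟨J, hJ⟩ := eventually_atTop.1 h1
  have t1 : Tendsto (fun X : ℕ => (X : ℝ) ^ (ε - 2 * κ)) atTop atTop :=
    (tendsto_rpow_atTop (by linarith)).comp tendsto_natCast_atTop_atTop
  filter_upwards [eventually_ge_atTop (2 ^ J), eventually_ge_atTop (2 * N₀ + 2), t1.eventually_ge_atTop 4] with X h2 h3 h4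
  obtain ⟨j, hj⟩ : ∃ j, j = Nat.log 2 X := ⟨_, rfl⟩
  have hj1 : J ≤ j := by
    rw [hj]
    exact Nat.le_log_of_pow_le (by norm_num) h2
  have hj2 : 2 ^ j ≤ X := by rw [hj]; exact Nat.pow_log_le_self 2 (by omega)
  have hj3 : X < 2 ^ (j + 1) := by rw [hj]; exact Nat.lt_pow_succ_log_self (by norm_num) X
  have hj4 : 2 ^ (j + 1) = 2 * 2 ^ j := by ring
  have hX0 : (0 : ℝ) < X := by exact_mod_cast (show 0 < X by omega)
  obtain ⟨g1, g2, g3⟩ := hPP j (by omega)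
  refine ⟨(P j).filter (fun m => ∀ a ∈ univ.image (fun i => m + h i), a ∈ A ω), ?_, fun m hm => ?_⟩
  · have h5 := hJ j hj1
    have h6 : ({m | m ∈ P j ∧ ∀ a ∈ univ.image (fun i => m + h i), a ∈ A ω} : Set ℕ) =
        (((P j).filter (fun m => ∀ a ∈ univ.image (fun i => m + h i), a ∈ A ω) : Finset ℕ) : Set ℕ) := by
      ext m
      simp only [mem_coe, mem_filter]
      rfl
    rw [h6, Set.ncard_coe_finset] at h5
    refine le_trans ?_ h5
    have h7 : (X : ℝ) / 2 ≤ (2 : ℝ) ^ j := by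
      have : (X : ℝ) ≤ 2 * 2 ^ j := by
        have h8 : X ≤ 2 * 2 ^ j := by omega
        exact_mod_cast h8
      linarith
    have h8 : (X : ℝ) ^ (1 - 2 * κ) / 2 ≤ ((2 : ℝ) ^ j) ^ (1 - 2 * κ) := by
      calc (X : ℝ) ^ (1 - 2 * κ) / 2 ≤ ((X : ℝ) / 2) ^ (1 - 2 * κ) := by
            rw [Real.div_rpow hX0.le (by norm_num)]
            refine div_le_div_of_nonneg_left (by positivity) (by positivity) ?_
            calc (2 : ℝ) ^ (1 - 2 * κ) ≤ (2 : ℝ) ^ (1 : ℝ) := Real.rpow_le_rpow_of_exponent_le (by norm_num) (by linarith)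
              _ = 2 := Real.rpow_one 2
        _ ≤ _ := Real.rpow_le_rpow (by positivity) h7 (by linarith)
    have h9 : (X : ℝ) ^ (1 - 2 * κ) = (X : ℝ) ^ (1 - ε) * (X : ℝ) ^ (ε - 2 * κ) := by
      rw [← Real.rpow_add hX0]
      congr 1
      ring
    have h10 : 0 < (X : ℝ) ^ (1 - ε) := by positivity
    nlinarith
  · simp only [mem_filter] at hm
    obtain ⟨g4, g5, _, _⟩ := g3 m hm.1
    have g6 : 0 < 2 ^ j := by positivity
    exact ⟨by omega, g5.trans hj2, fun i => hm.2 _ (mem_image_of_mem _ (mem_univ i))⟩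

/-- All admissible patterns at once. -/
theorem info_patterns {z p : ℕ → ℝ} (hp : Mod z p) {θ : ℝ} (hθ0 : 0 ≤ θ) (hθ1 : θ < 1) :
    ∀ (Ω : Type) [MeasurableSpace Ω] (μ : Measure Ω) [IsProbabilityMeasure μ] (A : Ω → Set ℕ), IsRandomSet A →
      (∀ᶠ x : ℕ in atTop, relEnt p μ A (ind (Un p) x) ≤ (x : ℝ) ^ θ) →
      ∀ᵐ ω ∂μ, ∀ S : Finset ℕ, Adm S → 0 ∈ S → 2 ≤ S.card → ∀ ε : ℝ, 0 < ε → ∀ᶠ X : ℕ in atTop,
        ∃ P : Finset ℕ, (X : ℝ) ^ (1 - ε) ≤ P.card ∧ ∀ m ∈ P, 1 ≤ m ∧ m ≤ X ∧ ∀ s ∈ S, m + s ∈ A ω := by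
  intro Ω _ μ _ A hA hent
  have h : ∀ (S : Finset ℕ) (j : ℕ), ∀ᵐ ω ∂μ, Adm S → 0 ∈ S → 2 ≤ S.card → ∀ᶠ N : ℕ in atTop,
      ∃ P : Finset ℕ, (N : ℝ) ^ (1 - 1 / ((j : ℝ) + 1)) ≤ P.card ∧ ∀ m ∈ P, 1 ≤ m ∧ m ≤ N ∧ ∀ s ∈ S, m + s ∈ A ω := by
    intro S j
    by_cases hS : Adm S ∧ 0 ∈ S ∧ 2 ≤ S.card
    · obtain ⟨hS1, hS2, hS3⟩ := hS
      obtain ⟨e, he⟩ : ∃ e : Fin S.card ↪o ℕ, e = S.orderEmbOfFin rfl := ⟨_, rfl⟩
      have hmem : ∀ i, e i ∈ S := fun i => by rw [he]; exact S.orderEmbOfFin_mem rfl i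
      have hsurj : ∀ s ∈ S, ∃ i, e i = s := by
        intro s hs
        have : s ∈ Set.range (S.orderEmbOfFin rfl) := by
          rw [Finset.range_orderEmbOfFin]
          exact hs
        rw [he]
        exact this
      have h1 := info_pattern hp (k := S.card) (y := S.sup id + 3) (h := fun i => e i) hS3 (by omega)
        e.injective (fun i => by
          have : e i ≤ S.sup id := Finset.le_sup (f := id) (hmem i)
          omega) (hsurj 0 hS2) (fun q hq => by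
          obtain ⟨a, ha⟩ := hS1 q hq
          exact ⟨a, fun i => ha _ (hmem i)⟩) hθ0 hθ1 (1 / ((j : ℝ) + 1)) (by positivity) Ω μ A hA hent
      filter_upwards [h1] with ω h2 _ _ _
      filter_upwards [h2] with N hN
      obtain ⟨P, hP1, hP2⟩ := hN
      refine ⟨P, hP1, fun m hm => ?_⟩
      obtain ⟨g1, g2, g3⟩ := hP2 m hm
      refine ⟨g1, g2, fun s hs => ?_⟩
      obtain ⟨i, hi⟩ := hsurj s hs
      rw [← hi]
      exact g3 i
    · exact ae_of_all _ (fun ω a b c => absurd ⟨a, b, c⟩ hS)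
  have h2 := ae_all_iff.2 (fun S => ae_all_iff.2 (fun j => h S j))
  filter_upwards [h2] with ω h3 S hS1 hS2 hS3 ε hε
  obtain ⟨j, hj⟩ := exists_nat_one_div_lt hε
  filter_upwards [h3 S j hS1 hS2 hS3, eventually_ge_atTop 1] with N hN hN1
  obtain ⟨P, hP1, hP2⟩ := hN
  refine ⟨P, le_trans ?_ hP1, hP2⟩
  exact Real.rpow_le_rpow_of_exponent_le (by exact_mod_cast hN1) (by linarith)

/-- **Windows in random sets of small information.** -/
theorem info_windows {z p : ℕ → ℝ} (hp : Mod z p) {θ : ℝ} (hθ0 : 0 ≤ θ) (hθ1 : θ < 1) :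
    ∀ (Ω : Type) [MeasurableSpace Ω] (μ : Measure Ω) [IsProbabilityMeasure μ] (A : Ω → Set ℕ), IsRandomSet A →
      (∀ᶠ x : ℕ in atTop, relEnt p μ A (ind (Un p) x) ≤ (x : ℝ) ^ θ) →
      ∀ᵐ ω ∂μ, ∀ y : ℕ, 3 ≤ y → Rh y ≤ rho (A ω) y ∧ ∀ ε : ℝ, 0 < ε → ∀ᶠ X : ℕ in atTop,
        (X : ℝ) ^ (1 - ε) ≤ ({x : ℕ | x ≤ X ∧ Rh y ≤ (A ω ∩ Set.Ioc x (x + y)).ncard} : Set ℕ).ncard := by
  classical
  intro Ω _ μ _ A hA hent
  filter_upwards [info_patterns hp hθ0 hθ1 Ω μ A hA hent] with ω h y hy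
  obtain ⟨S, hS1, hS2, hS3, hS4, hS5⟩ := exists_max hy
  have key : ∀ ε : ℝ, 0 < ε → ∀ᶠ X : ℕ in atTop,
      (X : ℝ) ^ (1 - ε) ≤ ({x : ℕ | x ≤ X ∧ Rh y ≤ (A ω ∩ Set.Ioc x (x + y)).ncard} : Set ℕ).ncard := by
    intro ε hε
    filter_upwards [h S hS2 hS3 hS4 ε hε, eventually_ge_atTop 2] with X hX hX2
    obtain ⟨P, hP1, hP3⟩ := hX
    refine hP1.trans ?_
    have hinj : (P.image (fun m => m - 1)).card = P.card := by
      refine card_image_of_injOn (fun m hm m' hm' hmm => ?_)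
      have h1 := (hP3 m hm).1
      have h2 := (hP3 m' hm').1
      omega
    have hfin : ({x : ℕ | x ≤ X ∧ Rh y ≤ (A ω ∩ Set.Ioc x (x + y)).ncard} : Set ℕ).Finite :=
      (Set.finite_Iic X).subset (fun x hx => hx.1)
    have h1 : ((P.image (fun m => m - 1) : Finset ℕ) : Set ℕ) ⊆ {x : ℕ | x ≤ X ∧
        Rh y ≤ (A ω ∩ Set.Ioc x (x + y)).ncard} := by
      intro x hx
      rw [mem_coe, mem_image] at hx
      obtain ⟨m, hm, rfl⟩ := hx
      obtain ⟨g1, g2, g3⟩ := hP3 m hm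
      refine ⟨by omega, ?_⟩
      rw [← hS5]
      exact window_ge hS1 (by omega) g3
    have h2 := Set.ncard_le_ncard h1 hfin
    rw [Set.ncard_coe_finset, hinj] at h2
    exact_mod_cast h2
  exact ⟨rho_ge (freq_of_count (ε := 1 / 2) (by norm_num) (key (1 / 2) (by norm_num))), key⟩

end Pool.Agent.Q106.IV
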