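import Pool.Agent.Q106.IV.Win
import Pool.Agent.Q106.IV.Low
import Pool.Agent.Q106.IV.Inst

/-!
# The empty set, and the sieved models
-/

set_option autoImplicit false

namespace Pool.Agent.Q106.IV

open Finset MeasureTheory ProbabilityTheory Filter
open Pool.Agent.Q120.ET (IsRandomSet)
open Pool.Agent.Q120.ME (bern relEnt ind kl)
open Pool.Agent.Q106.WG (mem_ind)
open scoped Topology

open Classical in
/-- The cost of deleting everything. -/
theorem cost_all {z p : ℕ → ℝ} (hp : Mod z p) :
    ∀ᶠ x : ℕ in atTop, ∑ N ∈ (ind (Un p) x).filter (fun N => N ∈ (Set.univ : Set ℕ)), cost p N ≤ (x : ℝ) := by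
  obtain ⟨a₀, ha₀⟩ := eventually_atTop.1 hp.upper
  obtain ⟨h, hh⟩ : ∃ h : ℕ → ℝ, h = fun N => if N ∈ Un p then cost p N else 0 := ⟨_, rfl⟩
  have h0 : ∀ N, 0 ≤ h N := by
    intro N
    rw [hh]
    simp only
    split_ifs with hN
    · exact cost_nonneg hN
    · exact le_rfl
  obtain ⟨K, hK⟩ : ∃ K : ℝ, K = ∑ N ∈ range a₀, h N := ⟨_, rfl⟩
  have hl : Real.log 2 < 3 / 4 := by have := Real.log_two_lt_d9; linarith
  have hl0 : 0 < Real.log 2 := Real.log_pos (by norm_num)
  have hterm : ∀ N : ℕ, a₀ ≤ N → h N ≤ Real.log 2 := by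
    intro N hN
    rw [hh]
    simp only
    split_ifs with hU
    · unfold cost
      have h1 := ha₀ N hN
      have h2 : Real.log (1 / 2) ≤ Real.log (1 - p N) := Real.log_le_log (by norm_num) (by linarith)
      rw [one_div, Real.log_inv] at h2
      linarith
    · exact hl0.le
  have t1 : Tendsto (fun x : ℕ => (x : ℝ)) atTop atTop := tendsto_natCast_atTop_atTop
  filter_upwards [t1.eventually_ge_atTop (4 * K)] with x hx
  have hx0 : (0 : ℝ) ≤ x := Nat.cast_nonneg x
  have h4 : ∑ N ∈ (ind (Un p) x).filter (fun N => N ∈ (Set.univ : Set ℕ)), cost p N ≤ ∑ N ∈ range x, h N := by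
    calc ∑ N ∈ (ind (Un p) x).filter (fun N => N ∈ (Set.univ : Set ℕ)), cost p N =
        ∑ N ∈ (ind (Un p) x).filter (fun N => N ∈ (Set.univ : Set ℕ)), h N := by
          refine sum_congr rfl (fun N hN => ?_)
          rw [mem_filter, mem_ind] at hN
          rw [hh]
          simp only
          rw [if_pos hN.1.2]
      _ ≤ _ := by
          refine sum_le_sum_of_subset_of_nonneg (fun N hN => ?_) (fun N _ _ => h0 N)
          rw [mem_filter, mem_ind] at hN
          exact mem_range.2 hN.1.1
  refine h4.trans ?_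
  calc ∑ N ∈ range x, h N ≤ ∑ N ∈ range x, ((if N < a₀ then h N else 0) + Real.log 2) := by
        refine sum_le_sum (fun N _ => ?_)
        by_cases h1 : N < a₀
        · rw [if_pos h1]
          linarith
        · rw [if_neg h1, zero_add]
          exact hterm N (by omega)
    _ ≤ K + x * Real.log 2 := by
        rw [sum_add_distrib, sum_const, card_range, nsmul_eq_mul]
        refine add_le_add ?_ le_rfl
        rw [← sum_filter, hK]
        refine sum_le_sum_of_subset_of_nonneg (fun a ha => ?_) (fun a _ _ => h0 a)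
        rw [mem_filter] at ha
        exact mem_range.2 ha.2
    _ ≤ x := by nlinarith

/-- The sieved models. -/
theorem mod_of_dens {C : ℝ} {p : ℕ → ℝ} (hp : Dens C p) : Mod (fun n => C * Real.log (Real.log n)) p := by
  have hlog : Tendsto (fun N : ℕ => Real.log N) atTop atTop := Real.tendsto_log_atTop.comp tendsto_natCast_atTop_atTop
  have hN : Tendsto (fun N : ℕ => (N : ℝ)) atTop atTop := tendsto_natCast_atTop_atTop
  refine ⟨hp.range, fun ε hε => ?_, ?_, fun ε hε => ?_⟩
  · have g1 := (isLittleO_log_rpow_atTop (r := ε) hε).def (c := (|C| + 1)⁻¹) (by positivity)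
    filter_upwards [hN.eventually g1, hlog.eventually_ge_atTop 1] with n h1 h2
    rw [Real.norm_of_nonneg (by linarith), Real.norm_of_nonneg (by positivity)] at h1
    have h3 : 0 ≤ Real.log (Real.log n) := Real.log_nonneg h2
    have h4 : Real.log (Real.log n) ≤ Real.log n := by
      have := Real.log_le_sub_one_of_pos (show 0 < Real.log n by linarith)
      linarith
    calc C * Real.log (Real.log n) ≤ (|C| + 1) * Real.log n := by
          have := le_abs_self C
          have := abs_nonneg C
          calc C * Real.log (Real.log n) ≤ |C| * Real.log (Real.log n) := mul_le_mul_of_nonneg_right (le_abs_self C) h3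
            _ ≤ |C| * Real.log n := mul_le_mul_of_nonneg_left h4 (abs_nonneg C)
            _ ≤ _ := by nlinarith
      _ ≤ (|C| + 1) * ((|C| + 1)⁻¹ * (n : ℝ) ^ ε) := mul_le_mul_of_nonneg_left h1 (by positivity)
      _ = (n : ℝ) ^ ε := by
          have : |C| + 1 ≠ 0 := by positivity
          field_simp
  · have t0 : Tendsto (fun y : ℝ => y ^ (-(1 / 2 : ℝ))) atTop (𝓝 0) := tendsto_rpow_neg_atTop (by norm_num)
    filter_upwards [hp.upper (1 / 2) (by norm_num), (t0.comp hlog).eventually_le_const (show (0 : ℝ) < 1 / 2 by norm_num)] with n h1 h2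
    refine h1.trans ?_
    have e : (-1 + 1 / 2 : ℝ) = -(1 / 2) := by norm_num
    rw [e]
    exact h2
  · have g1 := (isLittleO_log_rpow_atTop (r := ε / 2) (by positivity)).def (c := 1) one_pos
    filter_upwards [hp.lower 1 one_pos, hN.eventually g1, hlog.eventually_ge_atTop 1, eventually_ge_atTop 1] with n h1 h2 h3 h4 hq
    refine le_trans ?_ (h1 hq)
    rw [Real.norm_of_nonneg (by linarith), Real.norm_of_nonneg (by positivity), one_mul] at h2
    have hn0 : (0 : ℝ) < n := by exact_mod_cast h4
    have e : (-1 - 1 : ℝ) = -2 := by norm_num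
    rw [e]
    calc (n : ℝ) ^ (-ε) = ((n : ℝ) ^ (ε / 2)) ^ (-2 : ℝ) := by
          rw [← Real.rpow_mul hn0.le]
          congr 1
          ring
      _ ≤ Real.log n ^ (-2 : ℝ) := Real.rpow_le_rpow_of_nonpos (by linarith) h2 (by norm_num)

end Pool.Agent.Q106.IV
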